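import Pool.Agent.H632R2.Cogirth

set_option autoImplicit false

namespace Pool.Agent.TH694.GP

/-- the plane -/
abbrev Plane : Type := EuclideanSpace ℝ (Fin 2)

/-- equivalent frameworks -/
def Equivalent {V : Type} (G : SimpleGraph V) (p q : V → Plane) : Prop :=
  ∀ u v, G.Adj u v → dist (p u) (p v) = dist (q u) (q v)

/-- congruent frameworks -/
def Congruent {V : Type} (p q : V → Plane) : Prop := ∀ u v, dist (p u) (p v) = dist (q u) (q v)

/-- generic realizations -/
def GenericReal {V : Type} (p : V → Plane) : Prop :=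
  AlgebraicIndependent ℚ (fun c : V × Fin 2 => p c.1 c.2)

/-- globally rigid graphs -/
def GloballyRigid {V : Type} (G : SimpleGraph V) : Prop :=
  ∀ p, GenericReal p → ∀ q, Equivalent G p q → Congruent p q

/-- the complete graph on `P` -/
def complOn {V : Type} (P : Set V) : SimpleGraph V := SimpleGraph.fromRel (fun u v => u ∈ P ∧ v ∈ P)

/-- `P` pins `G` -/
def Pins {V : Type} (G : SimpleGraph V) (P : Set V) : Prop :=
  ∀ p, GenericReal p → ∀ q, Equivalent G p q → (∀ v ∈ P, q v = p v) → q = p

theorem exists_generic (V : Type) [Fintype V] : ∃ p : V → Plane, GenericReal p := by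
  obtain ⟨z, hz⟩ := Pool.Agent.H632R2.Laman.exists_gen V
  exact ⟨fun v => WithLp.toLp 2 (z v), hz⟩

namespace Geo

theorem dist_sq (a b : Plane) : dist a b ^ 2 = (a 0 - b 0) ^ 2 + (a 1 - b 1) ^ 2 := by
  rw [EuclideanSpace.dist_eq, Real.sq_sqrt (by positivity)]
  simp [Fin.sum_univ_two, Real.dist_eq, sq_abs]

theorem dist_iff (a b c d : Plane) : dist a b = dist c d ↔
    (a 0 - b 0) ^ 2 + (a 1 - b 1) ^ 2 = (c 0 - d 0) ^ 2 + (c 1 - d 1) ^ 2 := by
  rw [← dist_sq, ← dist_sq]
  exact (sq_eq_sq₀ dist_nonneg dist_nonneg).symm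

theorem ne_coord {V : Type} [Fintype V] {p : V → Plane} (hp : GenericReal p) {a b : V}
    (hab : a ≠ b) (k : Fin 2) : p a k ≠ p b k := by
  classical
  exact Pool.Agent.H632R2.Laman.Gen.ne (z := fun v => (p v).ofLp) hp hab k

theorem not_coll {V : Type} [Fintype V] {p : V → Plane} (hp : GenericReal p) {a b c : V}
    (hab : a ≠ b) (hac : a ≠ c) (hbc : b ≠ c) :
    (p a 0 - p b 0) * (p a 1 - p c 1) - (p a 1 - p b 1) * (p a 0 - p c 0) ≠ 0 := by
  classical
  exact Pool.Agent.H632R2.Laman.Gen.not_collinear (z := fun v => (p v).ofLp) hp hab hac hbc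

/-- generic triples have no right angle -/
theorem not_perp {V : Type} {p : V → Plane} (hp : GenericReal p) {u v w : V}
    (hwu : w ≠ u) (hwv : w ≠ v) :
    (p w 0 - p v 0) * (p w 0 - p u 0) + (p w 1 - p v 1) * (p w 1 - p u 1) ≠ 0 := by
  classical
  intro h
  have hinj : Function.Injective
      (MvPolynomial.aeval (R := ℚ) (fun c : V × Fin 2 => p c.1 c.2)) := hp
  let P : MvPolynomial (V × Fin 2) ℚ :=
    (MvPolynomial.X (w, 0) - MvPolynomial.X (v, 0)) *
      (MvPolynomial.X (w, 0) - MvPolynomial.X (u, 0)) +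
    (MvPolynomial.X (w, 1) - MvPolynomial.X (v, 1)) *
      (MvPolynomial.X (w, 1) - MvPolynomial.X (u, 1))
  have h1 : P = 0 := by
    apply hinj
    simp only [P, map_sub, map_add, map_mul, MvPolynomial.aeval_X, map_zero]
    exact h
  have h2 := congrArg (MvPolynomial.eval (fun q : V × Fin 2 =>
    if q = (w, 0) then (1 : ℚ) else 0)) h1
  simp [P, Ne.symm hwu, Ne.symm hwv] at h2

/-- a point is determined by its distances to three non-collinear points -/
theorem three_pts {X Y A B C : Plane} (h : (A 0 - B 0) * (A 1 - C 1) - (A 1 - B 1) * (A 0 - C 0) ≠ 0)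
    (hA : dist X A = dist Y A) (hB : dist X B = dist Y B) (hC : dist X C = dist Y C) : X = Y := by
  rw [dist_iff] at hA hB hC
  have h1 : (X 0 - Y 0) * (A 0 - B 0) + (X 1 - Y 1) * (A 1 - B 1) = 0 := by linarith
  have h2 : (X 0 - Y 0) * (A 0 - C 0) + (X 1 - Y 1) * (A 1 - C 1) = 0 := by linarith
  have h3 : (X 0 - Y 0) * ((A 0 - B 0) * (A 1 - C 1) - (A 1 - B 1) * (A 0 - C 0)) = 0 := by
    linear_combination (A 1 - C 1) * h1 - (A 1 - B 1) * h2
  have h4 : (X 1 - Y 1) * ((A 0 - B 0) * (A 1 - C 1) - (A 1 - B 1) * (A 0 - C 0)) = 0 := by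
    linear_combination (A 0 - B 0) * h2 - (A 0 - C 0) * h1
  have h5 := (mul_eq_zero.1 h3).resolve_right h
  have h6 := (mul_eq_zero.1 h4).resolve_right h
  ext i
  fin_cases i
  · exact sub_eq_zero.mp h5
  · exact sub_eq_zero.mp h6

/-- distance preserving maps extend to isometries of the plane -/
theorem exists_iso {ι : Type} (s : Set ι) (x y : ι → Plane)
    (h : ∀ i ∈ s, ∀ j ∈ s, dist (x i) (x j) = dist (y i) (y j)) :
    ∃ φ : Plane → Plane, Isometry φ ∧ ∀ i ∈ s, φ (x i) = y i := by
  rcases s.eq_empty_or_nonempty with hs | ⟨a, ha⟩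
  · exact ⟨id, isometry_id, by simp [hs]⟩
  let L : (s →₀ ℝ) →ₗ[ℝ] Plane := Finsupp.linearCombination ℝ (fun i : s => x i - x a)
  let L' : (s →₀ ℝ) →ₗ[ℝ] Plane := Finsupp.linearCombination ℝ (fun i : s => y i - y a)
  have hin : ∀ i j : s, inner ℝ (x i - x a) (x j - x a) = inner ℝ (y i - y a) (y j - y a) := by
    intro i j
    rw [real_inner_eq_norm_mul_self_add_norm_mul_self_sub_norm_sub_mul_self_div_two,
      real_inner_eq_norm_mul_self_add_norm_mul_self_sub_norm_sub_mul_self_div_two,
      sub_sub_sub_cancel_right, sub_sub_sub_cancel_right, ← dist_eq_norm, ← dist_eq_norm,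
      ← dist_eq_norm, ← dist_eq_norm, ← dist_eq_norm, ← dist_eq_norm,
      h i i.2 a ha, h j j.2 a ha, h i i.2 j j.2]
  have hn : ∀ c, ‖L c‖ = ‖L' c‖ := by
    intro c
    have h1 : inner ℝ (L c) (L c) = inner ℝ (L' c) (L' c) := by
      simp only [L, L', Finsupp.linearCombination_apply, Finsupp.sum, sum_inner, inner_sum,
        real_inner_smul_left, real_inner_smul_right, hin]
    rw [real_inner_self_eq_norm_sq, real_inner_self_eq_norm_sq] at h1
    exact (sq_eq_sq₀ (norm_nonneg _) (norm_nonneg _)).mp h1
  obtain ⟨g, hg⟩ := LinearMap.exists_rightInverse_of_surjective L.rangeRestrict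
    L.range_rangeRestrict
  have hg2 : ∀ z : L.range, L (g z) = z := by
    intro z
    have h1 := congrArg (fun f : L.range →ₗ[ℝ] L.range => ((f z : L.range) : Plane)) hg
    exact h1
  let A : L.range →ₗᵢ[ℝ] Plane := ⟨L'.comp g, fun z => by
    have h1 := hn (g z)
    rw [hg2 z] at h1
    exact h1.symm⟩
  refine ⟨fun z => A.extend (z - x a) + y a, ?_, ?_⟩
  · refine Isometry.of_dist_eq (fun z z' => ?_)
    rw [dist_add_right, A.extend.dist_map, dist_sub_right]
  · intro i hi
    have h1 : L (Finsupp.single ⟨i, hi⟩ 1) = x i - x a := by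
      simp [L, Finsupp.linearCombination_single]
    have h1' : L' (Finsupp.single ⟨i, hi⟩ 1) = y i - y a := by
      simp [L', Finsupp.linearCombination_single]
    have h2 : x i - x a ∈ L.range := ⟨_, h1⟩
    have h3 : A.extend (x i - x a) = A ⟨x i - x a, h2⟩ := A.extend_apply ⟨x i - x a, h2⟩
    have h4 : A ⟨x i - x a, h2⟩ = L' (g ⟨x i - x a, h2⟩) := rfl
    have h5 : L' (g ⟨x i - x a, h2⟩) = y i - y a := by
      have h6 := hn (g ⟨x i - x a, h2⟩ - Finsupp.single ⟨i, hi⟩ 1)
      rw [map_sub, map_sub, hg2, h1, h1', sub_self, norm_zero] at h6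
      exact sub_eq_zero.mp (norm_eq_zero.mp h6.symm)
    show A.extend (x i - x a) + y a = y i
    rw [h3, h4, h5, sub_add_cancel]

end Geo

open Geo

/-- graphs with at most three vertices -/
theorem small_globallyRigid {n : ℕ} (hn : n ≤ 3) (G : SimpleGraph (Fin n)) :
    GloballyRigid G ↔ G = ⊤ := by
  constructor
  · intro hG
    by_contra hne
    obtain ⟨u, v, huv, hadj⟩ : ∃ u v, u ≠ v ∧ ¬ G.Adj u v := by
      by_contra hcon
      push Not at hcon
      apply hne
      ext a b
      rw [SimpleGraph.top_adj]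
      exact ⟨fun h => h.ne, fun h => hcon a b h⟩
    obtain ⟨p, hp⟩ := exists_generic (Fin n)
    by_cases hw : ∃ w, w ≠ u ∧ w ≠ v
    · obtain ⟨w, hwu, hwv⟩ := hw
      have hall : ∀ x, x = u ∨ x = v ∨ x = w := by
        intro x
        by_contra hcon
        push Not at hcon
        obtain ⟨h1, h2, h3⟩ := hcon
        have h4 : ({x, u, v, w} : Finset (Fin n)).card = 4 := by
          rw [Finset.card_insert_of_notMem, Finset.card_insert_of_notMem,
            Finset.card_insert_of_notMem, Finset.card_singleton]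
          · simpa using hwv.symm
          · simp [huv, hwu.symm]
          · simp [h1, h2, h3]
        have h5 := Finset.card_le_univ ({x, u, v, w} : Finset (Fin n))
        rw [h4, Fintype.card_fin] at h5
        omega
      obtain ⟨q, hq⟩ : ∃ q : Fin n → Plane, q = fun x => if x = v then (2 : ℝ) • p w - p v
        else p x := ⟨_, rfl⟩
      have hqv : q v = (2 : ℝ) • p w - p v := by rw [hq]; simp
      have hqo : ∀ x, x ≠ v → q x = p x := fun x hx => by rw [hq]; simp [hx]
      have hvw : dist (p v) (p w) = dist (q v) (q w) := by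
        rw [hqv, hqo w hwv, dist_iff]
        simp only [PiLp.sub_apply, PiLp.smul_apply, smul_eq_mul]
        ring
      have heq : Equivalent G p q := by
        intro a b hab
        rcases hall a with rfl | rfl | rfl
        · rcases hall b with rfl | rfl | rfl
          · exact absurd hab (G.irrefl)
          · exact absurd hab hadj
          · rw [hqo _ huv, hqo _ hwv]
        · rcases hall b with rfl | rfl | rfl
          · exact absurd hab.symm hadj
          · exact absurd hab (G.irrefl)
          · exact hvw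
        · rcases hall b with rfl | rfl | rfl
          · rw [hqo _ huv, hqo _ hwv]
          · rw [dist_comm, hvw, dist_comm]
          · exact absurd hab (G.irrefl)
      have hc := hG p hp q heq u v
      rw [hqv, hqo u huv, dist_iff] at hc
      simp only [PiLp.sub_apply, PiLp.smul_apply, smul_eq_mul] at hc
      refine not_perp hp hwu hwv ?_
      linarith
    · push Not at hw
      have hall : ∀ x, x = u ∨ x = v := by
        intro x
        by_cases h : x = u
        · exact Or.inl h
        · exact Or.inr (hw x h)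
      obtain ⟨q, hq⟩ : ∃ q : Fin n → Plane, q = fun x => if x = v then (2 : ℝ) • p v - p u
        else p x := ⟨_, rfl⟩
      have hqv : q v = (2 : ℝ) • p v - p u := by rw [hq]; simp
      have hqo : ∀ x, x ≠ v → q x = p x := fun x hx => by rw [hq]; simp [hx]
      have heq : Equivalent G p q := by
        intro a b hab
        rcases hall a with rfl | rfl
        · rcases hall b with rfl | rfl
          · exact absurd hab (G.irrefl)
          · exact absurd hab hadj
        · rcases hall b with rfl | rfl
          · exact absurd hab.symm hadj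
          · exact absurd hab (G.irrefl)
      have hc := hG p hp q heq u v
      rw [hqv, hqo u huv, dist_iff] at hc
      simp only [PiLp.sub_apply, PiLp.smul_apply, smul_eq_mul] at hc
      have h1 := ne_coord hp huv 0
      have h2 : 0 < (p u 0 - p v 0) ^ 2 := by
        have := sub_ne_zero.mpr h1
        positivity
      nlinarith [sq_nonneg (p u 1 - p v 1)]
  · rintro rfl p _ q hq u v
    by_cases h : u = v
    · rw [h, dist_self, dist_self]
    · exact hq u v ((SimpleGraph.top_adj u v).mpr h)

/-- pinning by at least three vertices -/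
theorem pins_iff {n : ℕ} (G : SimpleGraph (Fin n)) (P : Finset (Fin n)) (h3 : 3 ≤ P.card) :
    Pins G P ↔ GloballyRigid (G ⊔ complOn (P : Set (Fin n))) := by
  constructor
  · intro h p hp q hq
    have hPd : ∀ u ∈ (P : Set (Fin n)), ∀ v ∈ (P : Set (Fin n)),
        dist (q u) (q v) = dist (p u) (p v) := by
      intro u hu v hv
      by_cases huv : u = v
      · rw [huv, dist_self, dist_self]
      · refine (hq u v ?_).symm
        rw [SimpleGraph.sup_adj]
        refine Or.inr ?_
        unfold complOn
        rw [SimpleGraph.fromRel_adj]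
        exact ⟨huv, Or.inl ⟨hu, hv⟩⟩
    obtain ⟨φ, hφ, hφ2⟩ := exists_iso (P : Set (Fin n)) q p hPd
    have h1 := h p hp (fun v => φ (q v)) (fun u v huv => by
      rw [hφ.dist_eq]
      exact hq u v (by rw [SimpleGraph.sup_adj]; exact Or.inl huv)) hφ2
    intro u v
    have h2 := congrFun h1 u
    have h3 := congrFun h1 v
    rw [← h2, ← h3, hφ.dist_eq]
  · intro h p hp q hq hP
    have h1 := h p hp q (fun u v huv => by
      rw [SimpleGraph.sup_adj] at huv
      rcases huv with h1 | h1
      · exact hq u v h1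
      · unfold complOn at h1
        rw [SimpleGraph.fromRel_adj] at h1
        have h2 : u ∈ (P : Set (Fin n)) ∧ v ∈ (P : Set (Fin n)) := by
          rcases h1.2 with h2 | h2
          · exact h2
          · exact ⟨h2.2, h2.1⟩
        rw [hP u h2.1, hP v h2.2])
    obtain ⟨a, ha, b, hb, c, hc, hab, hac, hbc⟩ := Finset.two_lt_card.mp h3
    funext v
    have hd : ∀ x ∈ P, dist (q v) (p x) = dist (p v) (p x) := by
      intro x hx
      have h2 := h1 v x
      rw [hP x hx] at h2
      exact h2.symm
    exact three_pts (not_coll hp hab hac hbc) (hd a ha) (hd b hb) (hd c hc)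

/-- at least `min n 3` pinned vertices are needed -/
theorem card_of_pins {n : ℕ} {G : SimpleGraph (Fin n)} {P : Finset (Fin n)} (h : Pins G P) :
    min n 3 ≤ P.card := by
  by_contra hcon
  push Not at hcon
  have hn : P.card < n := lt_of_lt_of_le hcon (min_le_left _ _)
  have h2 : P.card < 3 := lt_of_lt_of_le hcon (min_le_right _ _)
  obtain ⟨p, hp⟩ := exists_generic (Fin n)
  obtain ⟨w, hw⟩ : ∃ w, w ∉ P := by
    by_contra hc
    push Not at hc
    have : P = Finset.univ := Finset.eq_univ_iff_forall.mpr hc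
    rw [this, Finset.card_univ, Fintype.card_fin] at hn
    exact lt_irrefl _ hn
  have key : ∀ φ : Plane → Plane, Isometry φ → (∀ v ∈ P, φ (p v) = p v) → φ (p w) = p w := by
    intro φ hφ hv
    have h1 := h p hp (fun v => φ (p v)) (fun u v _ => (hφ.dist_eq _ _).symm) hv
    exact congrFun h1 w
  rcases P.eq_empty_or_nonempty with hP | hP
  · obtain ⟨c, hc⟩ : ∃ c : Plane, c ≠ 0 := exists_ne 0
    have h3 := key (fun z => z + c) (isometry_add_right c) (by simp [hP])
    exact hc (by simpa using h3)
  · have hS : ((p '' (P : Set (Fin n)))).Nonempty := by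
      obtain ⟨a, ha⟩ := hP
      exact ⟨p a, a, ha, rfl⟩
    have : Nonempty (affineSpan ℝ (p '' (P : Set (Fin n)))) := by
      obtain ⟨z, hz⟩ := hS
      exact ⟨⟨z, mem_affineSpan ℝ hz⟩⟩
    have h3 := key (EuclideanGeometry.reflection (affineSpan ℝ (p '' (P : Set (Fin n)))))
      (EuclideanGeometry.reflection (affineSpan ℝ (p '' (P : Set (Fin n))))).isometry (by
        intro v hv
        rw [EuclideanGeometry.reflection_eq_self_iff]
        exact mem_affineSpan ℝ ⟨v, hv, rfl⟩)
    rw [EuclideanGeometry.reflection_eq_self_iff] at h3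
    have h4 : P.card = 1 ∨ P.card = 2 := by
      have := Finset.card_pos.mpr hP
      omega
    rcases h4 with h4 | h4
    · obtain ⟨a, rfl⟩ := Finset.card_eq_one.mp h4
      rw [Finset.coe_singleton, Set.image_singleton,
        AffineSubspace.mem_affineSpan_singleton] at h3
      have hwa : w ≠ a := by simpa using hw
      exact ne_coord hp hwa 0 (by rw [h3])
    · obtain ⟨a, b, hab, rfl⟩ := Finset.card_eq_two.mp h4
      have hwa : w ≠ a := fun h => hw (by simp [h])
      have hwb : w ≠ b := fun h => hw (by simp [h])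
      rw [Finset.coe_insert, Finset.coe_singleton, Set.image_pair,
        mem_affineSpan_pair_iff_exists_lineMap_eq] at h3
      obtain ⟨r, hr⟩ := h3
      refine not_coll hp hwa hwb hab ?_
      rw [← hr, AffineMap.lineMap_apply]
      simp only [vsub_eq_sub, vadd_eq_add, PiLp.add_apply, PiLp.smul_apply, PiLp.sub_apply,
        smul_eq_mul]
      ring

end Pool.Agent.TH694.GP
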