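import Pool.Agent.TH694.GP.C1

/-!
# Globally rigid pinning: the greedy basis and the exchange relation
-/

set_option autoImplicit false

namespace Pool.Agent.TH694.GP

open Pool.Agent Pool.Agent.NPC Pool.Agent.H598R2.Cnt Pool.Agent.H632R2.Cogirth
  Pool.Agent.H442R3.MPar

/-! ### The set of pairs of a list of edges -/

theorem pr_inj {e f : ℕ × ℕ} (he : e.1 < e.2) (hf : f.1 < f.2) (h : pr e = pr f) : e = f := by
  obtain ⟨a, b⟩ := e
  obtain ⟨c, d⟩ := f
  simp only [pr] at he hf h
  have h1 : a ∈ ({c, d} : Finset ℕ) := by rw [← h]; simp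
  have h2 : b ∈ ({c, d} : Finset ℕ) := by rw [← h]; simp
  have h3 : c ∈ ({a, b} : Finset ℕ) := by rw [h]; simp
  have h4 : d ∈ ({a, b} : Finset ℕ) := by rw [h]; simp
  simp only [Finset.mem_insert, Finset.mem_singleton] at h1 h2 h3 h4
  refine Prod.ext ?_ ?_ <;> dsimp only <;> omega

theorem pr_card {e : ℕ × ℕ} (he : e.1 < e.2) : (pr e).card = 2 :=
  Finset.card_pair he.ne

theorem mem_ps_iff {E : List (ℕ × ℕ)} {p : Finset ℕ} : p ∈ ps E ↔ ∃ e ∈ E, pr e = p := by
  simp only [ps, pr, List.mem_toFinset, List.mem_map]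

theorem ps_cons (e : ℕ × ℕ) (E : List (ℕ × ℕ)) : ps (e :: E) = insert (pr e) (ps E) := by
  simp only [ps, pr, List.map_cons, List.toFinset_cons]

theorem ps_mono {E E' : List (ℕ × ℕ)} (h : ∀ e ∈ E, e ∈ E') : ps E ⊆ ps E' := by
  intro p hp
  obtain ⟨e, he, rfl⟩ := mem_ps_iff.1 hp
  exact mem_ps_iff.2 ⟨e, h e he, rfl⟩

theorem ps_card {E : List (ℕ × ℕ)} (hE : WF E) : (ps E).card = E.length := by
  have h : (E.map (fun e => ({e.1, e.2} : Finset ℕ))).Nodup :=
    List.Nodup.map_on (fun x hx y hy hxy => pr_inj (hE.1 x hx) (hE.1 y hy) hxy) hE.2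
  rw [ps, List.toFinset_card_of_nodup h, List.length_map]

theorem mem_ps {E : List (ℕ × ℕ)} (hE : WF E) {e : ℕ × ℕ} (he : e.1 < e.2) :
    pr e ∈ ps E ↔ e ∈ E := by
  rw [mem_ps_iff]
  constructor
  · rintro ⟨f, hf, hfe⟩
    exact pr_inj (hE.1 f hf) he hfe ▸ hf
  · exact fun h => ⟨e, h, rfl⟩

theorem ps_pairs {E : List (ℕ × ℕ)} (hE : WF E) : Pairs (ps E) := by
  intro p hp
  obtain ⟨e, he, rfl⟩ := mem_ps_iff.1 hp
  exact pr_card (hE.1 e he)

/-! ### The greedy basis -/

theorem basL_concat (E : List (ℕ × ℕ)) (e : ℕ × ℕ) :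
    basL (E ++ [e]) = if spT (e :: basL E) then e :: basL E else basL E := by
  unfold basL
  rw [List.foldl_append]
  rfl

theorem basL_sublist (E : List (ℕ × ℕ)) : (basL E).Sublist E.reverse := by
  induction E using List.reverseRecOn with
  | nil => exact List.Sublist.refl _
  | append_singleton E e ih =>
    rw [basL_concat, List.reverse_append]
    split_ifs
    · exact ih.cons_cons e
    · exact ih.cons e

theorem basL_subset {E : List (ℕ × ℕ)} {e : ℕ × ℕ} (h : e ∈ basL E) : e ∈ E :=
  List.mem_reverse.1 ((basL_sublist E).subset h)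

theorem basL_wf {E : List (ℕ × ℕ)} (hE : WF E) : WF (basL E) :=
  ⟨fun e he => hE.1 e (basL_subset he), (basL_sublist E).nodup (List.nodup_reverse.2 hE.2)⟩

theorem sp_empty : Sp (∅ : Finset (Finset ℕ)) := by
  intro X hX
  simp only [ins, Finset.filter_empty, Finset.card_empty]
  omega

theorem basL_maxl {E : List (ℕ × ℕ)} (hE : WF E) : Maxl (ps E) (ps (basL E)) := by
  induction E using List.reverseRecOn with
  | nil =>
    refine ⟨Finset.Subset.refl _, sp_empty, fun p hp => ?_⟩
    simp [ps] at hp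
  | append_singleton E e ih =>
    have hE' : WF E := ⟨fun x hx => hE.1 x (List.mem_append_left _ hx),
      (List.sublist_append_left E [e]).nodup hE.2⟩
    have he : e.1 < e.2 := hE.1 e (by simp)
    have heE : e ∉ E := by
      intro h
      have := (List.nodup_append.1 hE.2).2.2 e h e (by simp)
      exact this rfl
    have hW : WF (e :: basL E) := by
      refine ⟨fun x hx => ?_, List.nodup_cons.2 ⟨fun h => heE (basL_subset h), (basL_wf hE').2⟩⟩
      rcases List.mem_cons.1 hx with rfl | hx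
      · exact he
      · exact (basL_wf hE').1 x hx
    obtain ⟨h1, h2, h3⟩ := ih hE'
    refine ⟨ps_mono fun x hx => basL_subset hx, ?_, ?_⟩
    · rw [basL_concat]
      split_ifs with h
      · exact (spT_iff hW).1 h
      · exact h2
    · intro p hp
      obtain ⟨f, hf, rfl⟩ := mem_ps_iff.1 hp
      rw [basL_concat]
      split_ifs with h
      · intro h4 h5
        rw [ps_cons] at h4 h5
        rcases List.mem_append.1 hf with hf | hf
        · refine h3 (pr f) (mem_ps_iff.2 ⟨f, hf, rfl⟩) (fun h6 => h4 (Finset.mem_insert_of_mem h6))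
            (h5.mono (Finset.insert_subset_insert _ (Finset.subset_insert _ _)))
        · rw [List.mem_singleton] at hf
          subst hf
          exact h4 (Finset.mem_insert_self _ _)
      · intro h4 h5
        rcases List.mem_append.1 hf with hf | hf
        · exact h3 (pr f) (mem_ps_iff.2 ⟨f, hf, rfl⟩) h4 h5
        · rw [List.mem_singleton] at hf
          subst hf
          rw [← ps_cons] at h5
          exact h ((spT_iff hW).2 h5)

theorem basL_spec {E : List (ℕ × ℕ)} (hE : WF E) :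
    WF (basL E) ∧ (∀ e ∈ basL E, e ∈ E) ∧ Maxl (ps E) (ps (basL E)) :=
  ⟨basL_wf hE, fun _ h => basL_subset h, basL_maxl hE⟩

theorem sz_sublist_le' {β : Type} [TEnc β] {l l' : List β} (h : l.Sublist l') :
    sz l ≤ sz l' := by
  induction h with
  | slnil => exact le_rfl
  | cons a _ ih => simp; omega
  | cons_cons a _ ih => simp; omega

theorem poly_basL {α : Type} [TEnc α] {E : α → List (ℕ × ℕ)} (hE : Poly E) :
    Poly (fun a => basL (E a)) := by
  unfold basL
  obtain ⟨q, hq⟩ := hE.sz_le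
  refine NPC.Poly.foldl (l := E) (s := fun _ => ([] : List (ℕ × ℕ)))
    (F := fun _ I e => if spT (e :: I) then e :: I else I) hE (NPC.Poly.const _) ?_ q ?_
  · have h1 : Poly (fun p : α × List (ℕ × ℕ) × (ℕ × ℕ) => p.2.2 :: p.2.1) := by fun_prop
    have h2 : Poly (fun p : α × List (ℕ × ℕ) × (ℕ × ℕ) => p.2.1) := by fun_prop
    exact (NPC.Poly.cond (poly_spT h1) h1 h2).congr fun a => by
      cases spT (a.2.2 :: a.2.1) <;> rfl
  · intro a k hk
    refine le_trans ?_ (hq a)
    have h1 := sz_sublist_le' (basL_sublist ((E a).take k))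
    rw [sz_reverse] at h1
    exact h1.trans (sz_sublist_le' (List.take_sublist _ _))

/-! ### The exchange relation -/

theorem poly_exch {α : Type} [TEnc α] {I : α → List (ℕ × ℕ)} {e f : α → ℕ × ℕ} (hI : Poly I)
    (he : Poly e) (hf : Poly f) : Poly (fun a => exch (I a) (e a) (f a)) := by
  unfold exch
  have h1 : Poly (fun a => e a :: (I a).filter (fun g => !decide (g = f a))) := by fun_prop
  have h2 := poly_spT h1
  fun_prop

theorem poly_rel {α : Type} [TEnc α] {I : α → List (ℕ × ℕ)} {e f : α → ℕ × ℕ} (hI : Poly I)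
    (he : Poly e) (hf : Poly f) : Poly (fun a => rel (I a) (e a) (f a)) := by
  unfold rel
  have h1 := poly_exch hI he hf
  have h2 := poly_exch hI hf he
  fun_prop

theorem ps_filter {I : List (ℕ × ℕ)} (hI : WF I) {f : ℕ × ℕ} (hf : f.1 < f.2) :
    ps (I.filter (fun g => !decide (g = f))) = (ps I).erase (pr f) := by
  ext p
  rw [Finset.mem_erase, mem_ps_iff, mem_ps_iff]
  constructor
  · rintro ⟨e, he, rfl⟩
    obtain ⟨h1, h2⟩ := List.mem_filter.1 he
    refine ⟨fun h => ?_, e, h1, rfl⟩
    have : e = f := pr_inj (hI.1 e h1) hf h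
    simp [this] at h2
  · rintro ⟨h, e, he, rfl⟩
    refine ⟨e, List.mem_filter.2 ⟨he, ?_⟩, rfl⟩
    have : e ≠ f := fun h' => h (by rw [h'])
    simpa using this

theorem rel_iff {I : List (ℕ × ℕ)} (hI : WF I) {e f : ℕ × ℕ} (he : e.1 < e.2) (hf : f.1 < f.2) :
    exch I e f = true ↔
      pr e ∉ ps I ∧ pr f ∈ ps I ∧ Sp (insert (pr e) ((ps I).erase (pr f))) := by
  unfold exch
  rw [Bool.and_eq_true, Bool.and_eq_true, mem_ps hI he, mem_ps hI hf, decide_eq_true_iff,
    Bool.not_eq_true', decide_eq_false_iff_not]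
  refine and_congr_right fun h1 => and_congr_right fun _ => ?_
  have hW : WF (e :: I.filter (fun g => !decide (g = f))) := by
    refine ⟨fun x hx => ?_, List.nodup_cons.2 ⟨fun h => h1 (List.mem_filter.1 h).1,
      hI.2.filter _⟩⟩
    rcases List.mem_cons.1 hx with rfl | hx
    · exact he
    · exact hI.1 x (List.mem_filter.1 hx).1
  rw [spT_iff hW, ps_cons, ps_filter hI hf]

end Pool.Agent.TH694.GP
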