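import Pool.Agent.TH694.GP.M2

/-!
# Globally rigid pinning: the components of the count matroid and their vertex sets
-/

set_option autoImplicit false

namespace Pool.Agent.TH694.GP

open Pool.Agent.H598R2.Cnt

variable {V : Type*} [DecidableEq V]

theorem pairs_cmp {Γ : Finset (Finset V)} (hΓ : Pairs Γ) (e : Finset V) : Pairs (cmp Γ e) :=
  fun p hp => hΓ p (cmp_subset Γ e hp)

theorem sub_vs {D : Finset (Finset V)} {p : Finset V} (hp : p ∈ D) : p ⊆ vs D := fun x hx => by
  unfold vs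
  rw [Finset.mem_biUnion]
  exact ⟨p, hp, hx⟩

theorem mem_vs {D : Finset (Finset V)} {x : V} : x ∈ vs D ↔ ∃ p ∈ D, x ∈ p := by
  unfold vs
  rw [Finset.mem_biUnion]
  rfl

theorem vs_sub {D : Finset (Finset V)} {X : Finset V} (h : ∀ p ∈ D, p ⊆ X) : vs D ⊆ X := by
  intro x hx
  obtain ⟨p, hp, hxp⟩ := mem_vs.1 hx
  exact h p hp hxp

theorem two_le_vs {Γ : Finset (Finset V)} (hΓ : Pairs Γ) {e : Finset V} (he : e ∈ Γ) :
    2 ≤ (vs (cmp Γ e)).card := by
  rw [← hΓ e he]
  exact Finset.card_le_card (sub_vs (mem_cmp_self he))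

/-- a component is rigid -/
theorem rk_cmp {Γ : Finset (Finset V)} (hΓ : Pairs Γ) {e : Finset V} (he : e ∈ Γ) :
    rk (cmp Γ e) + 3 = 2 * (vs (cmp Γ e)).card := by
  set D := cmp Γ e with hDdef
  have hD : Pairs D := pairs_cmp hΓ e
  have heD : e ∈ D := mem_cmp_self he
  have hec : e.card = 2 := hΓ e he
  obtain ⟨I, -, hmax⟩ := exists_maxl (Γ := D) (J := ∅) (Finset.empty_subset _)
    (fun X hX => by simp only [ins, Finset.filter_empty, Finset.card_empty]; omega)
  have hI := hmax.2.1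
  have hID := hmax.1
  obtain ⟨X, hX, heX, hXmax⟩ := exists_largest hI (vs D) (fun p hp => sub_vs (hID hp)) hec
    (hmax.exists_tight hD heD)
  set S := D.filter (fun p => p ⊆ X) with hS
  have hSD : S ⊆ D := Finset.filter_subset _ _
  have hSpairs : Pairs S := fun p hp => hD p (hSD hp)
  have e1 : rk D = I.card := rk_eq hD hmax
  have e2 : rk S + 3 ≤ 2 * X.card :=
    rk_le_of_sub hSpairs (fun p hp => (Finset.mem_filter.1 hp).2) hX.1
  have hmax2 : Maxl (D \ S) (I \ S) := by
    refine ⟨Finset.sdiff_subset_sdiff hID subset_rfl, hI.mono Finset.sdiff_subset, ?_⟩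
    intro p hp hpI
    rw [Finset.mem_sdiff] at hp
    have hpX : ¬ p ⊆ X := fun h => hp.2 (Finset.mem_filter.2 ⟨hp.1, h⟩)
    have hpI' : p ∉ I := fun h => hpI (Finset.mem_sdiff.2 ⟨h, hp.2⟩)
    obtain ⟨Y, hY, hpY⟩ := exists_tight_of_not_sp hI (hmax.2.2 p hp.1 hpI')
    have hXY : (X ∩ Y).card ≤ 1 := by
      by_contra hcon
      have h1 := Tight.union hI hX hY (by omega)
      have h2 := hXmax (X ∪ Y) h1 (heX.trans Finset.subset_union_left)
      exact hpX (hpY.trans (Finset.subset_union_right.trans h2))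
    have hins : ins (I \ S) Y = ins I Y := by
      unfold ins
      congr 1
      ext q
      rw [Finset.mem_filter, Finset.mem_filter, Finset.mem_sdiff]
      constructor
      · rintro ⟨⟨h1, -⟩, h2⟩
        exact ⟨h1, h2⟩
      · rintro ⟨h1, h2⟩
        refine ⟨⟨h1, fun h3 => ?_⟩, h2⟩
        have h4 : q ⊆ X ∩ Y := Finset.subset_inter (Finset.mem_filter.1 h3).2 h2
        have h5 := Finset.card_le_card h4
        rw [hD q (hID h1)] at h5
        omega
    exact not_sp_of_tight (I := I \ S) ⟨hY.1, by rw [hins]; exact hY.2⟩ hpY hpI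
  have e3 : rk (D \ S) = (I \ S).card :=
    rk_eq (fun p hp => hD p (Finset.mem_sdiff.1 hp).1) hmax2
  have e4 : ins I X + (I \ S).card = I.card := by
    have : I.filter (fun p => p ⊆ X) = I ∩ S := by
      ext q
      rw [Finset.mem_filter, Finset.mem_inter, hS, Finset.mem_filter]
      exact ⟨fun h => ⟨h.1, hID h.1, h.2⟩, fun h => ⟨h.1, h.2.2⟩⟩
    unfold ins
    rw [this]
    exact Finset.card_inter_add_card_sdiff I S
  have e5 : rk D ≤ rk S + rk (D \ S) := by
    have := rk_union_le S (D \ S)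
    rwa [Finset.union_sdiff_of_subset hSD] at this
  have hXt := hX.2
  have hsep : Sepr D S := ⟨hSD, by omega⟩
  have hsepΓ : Sepr Γ S := sepr_trans (sepr_cmp hΓ he) hsep
  have hDS : D ⊆ S := cmp_subset_of_sepr hsepΓ (Finset.mem_filter.2 ⟨heD, heX⟩)
  have hDX : ∀ p ∈ D, p ⊆ X := fun p hp => (Finset.mem_filter.1 (hDS hp)).2
  have hvs : vs D = X := by
    refine (vs_sub hDX).antisymm ?_
    intro x hx
    by_contra hxD
    have hins : ins I (X.erase x) = ins I X := by
      unfold ins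
      congr 1
      ext q
      rw [Finset.mem_filter, Finset.mem_filter]
      constructor
      · rintro ⟨h1, h2⟩
        exact ⟨h1, h2.trans (Finset.erase_subset _ _)⟩
      · rintro ⟨h1, h2⟩
        exact ⟨h1, Finset.subset_erase.2 ⟨h2, fun h3 => hxD (sub_vs (hID h1) h3)⟩⟩
    have hc := Finset.card_erase_of_mem hx
    by_cases h3 : 3 ≤ X.card
    · have h4 := hI (X.erase x) (by omega)
      rw [hins, hc] at h4
      omega
    · have h4 := hX.1
      have h5 : e = X := Finset.eq_of_subset_of_card_le heX (by omega)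
      exact hxD (sub_vs heD (h5 ▸ hx))
  have hins : ins I X = I.card := by
    unfold ins
    rw [Finset.filter_true_of_mem (fun p hp => hDX p (hID hp))]
  rw [hvs, e1, ← hins]
  exact hXt

/-- different components have different vertex sets, which share at most one vertex -/
theorem vs_inter_le {Γ : Finset (Finset V)} (hΓ : Pairs Γ) {e f : Finset V} (he : e ∈ Γ)
    (hf : f ∈ Γ) (h : cmp Γ e ≠ cmp Γ f) : (vs (cmp Γ e) ∩ vs (cmp Γ f)).card ≤ 1 := by
  have hdisj : Disjoint (cmp Γ f) (cmp Γ e) := by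
    rw [Finset.disjoint_left]
    intro g hg1 hg2
    exact h ((cmp_eq_of_mem hΓ he hg2).symm.trans (cmp_eq_of_mem hΓ hf hg1))
  have h1 := rk_split hΓ (sepr_cmp hΓ he)
    (Finset.union_subset (cmp_subset Γ e) (cmp_subset Γ f))
  rw [Finset.union_inter_cancel_left, Finset.union_sdiff_cancel_left hdisj.symm] at h1
  have h2 := rk_cmp hΓ he
  have h3 := rk_cmp hΓ hf
  have h4 : rk (cmp Γ e ∪ cmp Γ f) + 3 ≤ 2 * (vs (cmp Γ e) ∪ vs (cmp Γ f)).card := by
    apply rk_le_of_sub
    · intro p hp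
      rcases Finset.mem_union.1 hp with h5 | h5
      · exact pairs_cmp hΓ e p h5
      · exact pairs_cmp hΓ f p h5
    · intro p hp
      rcases Finset.mem_union.1 hp with h5 | h5
      · exact (sub_vs h5).trans Finset.subset_union_left
      · exact (sub_vs h5).trans Finset.subset_union_right
    · exact (two_le_vs hΓ he).trans (Finset.card_le_card Finset.subset_union_left)
  have h5 := Finset.card_union_add_card_inter (vs (cmp Γ e)) (vs (cmp Γ f))
  omega

theorem cmp_eq_of_vs {Γ : Finset (Finset V)} (hΓ : Pairs Γ) {e f : Finset V} (he : e ∈ Γ)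
    (hf : f ∈ Γ) (h : vs (cmp Γ e) = vs (cmp Γ f)) : cmp Γ e = cmp Γ f := by
  by_contra hne
  have h1 := vs_inter_le hΓ he hf hne
  rw [← h, Finset.inter_self] at h1
  have := two_le_vs hΓ he
  omega

/-- the edges of `Γ` inside the vertex set of a component belong to it -/
theorem mem_cmp_of_sub {Γ : Finset (Finset V)} (hΓ : Pairs Γ) {e f : Finset V} (he : e ∈ Γ)
    (hf : f ∈ Γ) (h : f ⊆ vs (cmp Γ e)) : f ∈ cmp Γ e := by
  by_contra hcon
  have hne : cmp Γ e ≠ cmp Γ f := fun h1 => hcon (h1 ▸ mem_cmp_self hf)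
  have h1 := vs_inter_le hΓ he hf hne
  have h2 := Finset.card_le_card (Finset.subset_inter h (sub_vs (mem_cmp_self hf)))
  rw [hΓ f hf] at h2
  omega

theorem closed_of_vs {Γ : Finset (Finset V)} (hΓ : Pairs Γ) (P : Finset V → Prop)
    [DecidablePred P] : ∀ e ∈ Γ.filter (fun e => P (vs (cmp Γ e))),
      cmp Γ e ⊆ Γ.filter (fun e => P (vs (cmp Γ e))) := by
  intro e he f hf
  rw [Finset.mem_filter] at he ⊢
  refine ⟨cmp_subset Γ e hf, ?_⟩
  rw [cmp_eq_of_mem hΓ he.1 hf]
  exact he.2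

theorem mem_bodies {Γ : Finset (Finset V)} {B : Finset V} :
    B ∈ bodies Γ ↔ ∃ e ∈ Γ, vs (cmp Γ e) = B := by
  unfold bodies
  rw [Finset.mem_image]

/-- the rank of the union of some components -/
theorem rk_filter {Γ : Finset (Finset V)} (hΓ : Pairs Γ) (P : Finset V → Prop)
    [DecidablePred P] : rk (Γ.filter (fun e => P (vs (cmp Γ e)))) =
      ∑ B ∈ (bodies Γ).filter P, (2 * B.card - 3) := by
  classical
  rw [rk_sum hΓ (Finset.filter_subset _ _) (closed_of_vs hΓ P)]
  refine Finset.sum_bij (fun D _ => vs D) ?_ ?_ ?_ ?_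
  · intro D hD
    obtain ⟨e, he, rfl⟩ := Finset.mem_image.1 hD
    rw [Finset.mem_filter] at he ⊢
    exact ⟨mem_bodies.2 ⟨e, he.1, rfl⟩, he.2⟩
  · intro D hD D' hD' h
    obtain ⟨e, he, rfl⟩ := Finset.mem_image.1 hD
    obtain ⟨f, hf, rfl⟩ := Finset.mem_image.1 hD'
    exact cmp_eq_of_vs hΓ (Finset.mem_filter.1 he).1 (Finset.mem_filter.1 hf).1 h
  · intro B hB
    rw [Finset.mem_filter] at hB
    obtain ⟨e, he, rfl⟩ := mem_bodies.1 hB.1
    exact ⟨cmp Γ e, Finset.mem_image.2 ⟨e, Finset.mem_filter.2 ⟨he, hB.2⟩, rfl⟩, rfl⟩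
  · intro D hD
    obtain ⟨e, he, rfl⟩ := Finset.mem_image.1 hD
    have := rk_cmp hΓ (Finset.mem_filter.1 he).1
    omega

theorem bodies_spec {U : Finset V} {Γ : Finset (Finset V)} (hΓ : Pairs Γ)
    (hU : ∀ p ∈ Γ, p ⊆ U) : Bodies U Γ (bodies Γ) := by
  refine ⟨hΓ, hU, ?_, ?_, ?_, ?_, ?_⟩
  · intro B hB
    obtain ⟨e, he, rfl⟩ := mem_bodies.1 hB
    exact two_le_vs hΓ he
  · intro B hB
    obtain ⟨e, he, rfl⟩ := mem_bodies.1 hB
    exact vs_sub (fun p hp => hU p (cmp_subset Γ e hp))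
  · intro p hp
    exact ⟨vs (cmp Γ p), mem_bodies.2 ⟨p, hp, rfl⟩, sub_vs (mem_cmp_self hp)⟩
  · intro 𝒞 h𝒞 hne
    have h1 := rk_filter hΓ (fun B => B ∈ 𝒞)
    have h2 : (bodies Γ).filter (fun B => B ∈ 𝒞) = 𝒞 := by
      ext B
      rw [Finset.mem_filter]
      exact ⟨fun h => h.2, fun h => ⟨h𝒞 h, h⟩⟩
    rw [h2] at h1
    rw [← h1]
    apply rk_le_of_sub
    · exact fun p hp => hΓ p (Finset.mem_filter.1 hp).1
    · intro p hp x hx
      rw [Finset.mem_filter] at hp
      rw [Finset.mem_biUnion]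
      exact ⟨_, hp.2, sub_vs (mem_cmp_self hp.1) hx⟩
    · obtain ⟨B, hB⟩ := hne
      obtain ⟨e, he, hBe⟩ := mem_bodies.1 (h𝒞 hB)
      have h3 : B ⊆ 𝒞.biUnion id := Finset.subset_biUnion_of_mem id hB
      refine le_trans ?_ (Finset.card_le_card h3)
      rw [← hBe]
      exact two_le_vs hΓ he
  · intro B hB A C hAC hA hC hcard
    obtain ⟨e, he, rfl⟩ := mem_bodies.1 hB
    by_contra hcon
    push Not at hcon
    set D := cmp Γ e with hD
    have hDp : Pairs D := pairs_cmp hΓ e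
    have hor : ∀ p ∈ D, p ⊆ A ∨ p ⊆ C := by
      intro p hp
      by_contra h1
      push Not at h1
      obtain ⟨w, hw, hwA⟩ := Finset.not_subset.1 h1.1
      obtain ⟨u, hu, huC⟩ := Finset.not_subset.1 h1.2
      have hwB : w ∈ vs D := sub_vs hp hw
      have huB : u ∈ vs D := sub_vs hp hu
      have hwC : w ∈ C := (Finset.mem_union.1 (hAC hwB)).resolve_left hwA
      have huA : u ∈ A := (Finset.mem_union.1 (hAC huB)).resolve_right huC
      have hne : u ≠ w := fun h => hwA (h ▸ huA)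
      refine hcon u (Finset.mem_sdiff.2 ⟨huA, huC⟩) w (Finset.mem_sdiff.2 ⟨hwC, hwA⟩) huB hwB ?_
      have h2 : ({u, w} : Finset V) = p := by
        refine Finset.eq_of_subset_of_card_le ?_ ?_
        · intro x hx
          rw [Finset.mem_insert, Finset.mem_singleton] at hx
          rcases hx with rfl | rfl
          · exact hu
          · exact hw
        · rw [hDp p hp, Finset.card_pair hne]
      rw [h2]
      exact cmp_subset Γ e hp
    have hun : D.filter (fun p => p ⊆ A) ∪ D.filter (fun p => p ⊆ C) = D := by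
      ext p
      rw [Finset.mem_union, Finset.mem_filter, Finset.mem_filter]
      constructor
      · rintro (h | h)
        · exact h.1
        · exact h.1
      · intro h
        rcases hor p h with h1 | h1
        · exact Or.inl ⟨h, h1⟩
        · exact Or.inr ⟨h, h1⟩
    have half : ∀ A' : Finset V, 2 ≤ (A' ∩ vs D).card →
        rk (D.filter (fun p => p ⊆ A')) + 3 ≤ 2 * (A' ∩ vs D).card := by
      intro A' hA'
      apply rk_le_of_sub _ _ hA'
      · exact fun p hp => hDp p (Finset.mem_filter.1 hp).1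
      · intro p hp
        rw [Finset.mem_filter] at hp
        exact Finset.subset_inter hp.2 (sub_vs hp.1)
    have twoA : 2 ≤ (A ∩ vs D).card := by
      obtain ⟨x, hx, hxC⟩ := Finset.not_subset.1 hC
      obtain ⟨p, hp, hxp⟩ := mem_vs.1 hx
      have h1 : p ⊆ A := (hor p hp).resolve_right (fun h => hxC (h hxp))
      rw [← hDp p hp]
      exact Finset.card_le_card (Finset.subset_inter h1 (sub_vs hp))
    have twoC : 2 ≤ (C ∩ vs D).card := by
      obtain ⟨x, hx, hxA⟩ := Finset.not_subset.1 hA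
      obtain ⟨p, hp, hxp⟩ := mem_vs.1 hx
      have h1 : p ⊆ C := (hor p hp).resolve_left (fun h => hxA (h hxp))
      rw [← hDp p hp]
      exact Finset.card_le_card (Finset.subset_inter h1 (sub_vs hp))
    have h1 := half A twoA
    have h2 := half C twoC
    have h3 := rk_union_le (D.filter (fun p => p ⊆ A)) (D.filter (fun p => p ⊆ C))
    rw [hun] at h3
    have h4 := rk_cmp hΓ he
    have h5 := Finset.card_union_add_card_inter (A ∩ vs D) (C ∩ vs D)
    have h6 : (A ∩ vs D) ∪ (C ∩ vs D) = vs D := by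
      rw [← Finset.union_inter_distrib_right]
      exact Finset.inter_eq_right.2 hAC
    have h7 : (A ∩ vs D) ∩ (C ∩ vs D) = A ∩ C ∩ vs D := by
      ext x
      simp only [Finset.mem_inter]
      tauto
    rw [h6, h7] at h5
    rw [← hD] at h4
    omega

theorem bb_bodies {Γ : Finset (Finset V)} (hΓ : Pairs Γ) (Z : Finset V) :
    bb (bodies Γ) Z = rk (Γ.filter (fun e => (vs (cmp Γ e) ∩ Z).Nonempty)) := by
  rw [rk_filter hΓ (fun B => (B ∩ Z).Nonempty)]
  rfl

/-- the edges whose component meets `Z` form a separator -/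
theorem sepr_filter {Γ : Finset (Finset V)} (hΓ : Pairs Γ) (Z : Finset V) :
    Sepr Γ (Γ.filter (fun e => (vs (cmp Γ e) ∩ Z).Nonempty)) :=
  sepr_of_closed hΓ (Finset.filter_subset _ _) (closed_of_vs hΓ (fun B => (B ∩ Z).Nonempty))

theorem bb_maxl {Γ I : Finset (Finset V)} (hΓ : Pairs Γ) (hI : Maxl Γ I) (Z : Finset V) :
    bb (bodies Γ) Z = (I.filter (fun e => (vs (cmp Γ e) ∩ Z).Nonempty)).card := by
  rw [bb_bodies hΓ, rk_eq_inter hΓ hI (sepr_filter hΓ Z)]
  congr 1
  ext e
  rw [Finset.mem_inter, Finset.mem_filter, Finset.mem_filter]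
  exact ⟨fun h => ⟨h.1, h.2.2⟩, fun h => ⟨h.1, hI.1 h.1, h.2⟩⟩

end Pool.Agent.TH694.GP
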