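import Pool.Agent.TH694.GP.C0
import Pool.Agent.TH694.GP.C2
import Pool.Agent.TH694.GP.M3

/-!
# Globally rigid pinning: the components of the count matroid by exchanges

The component of an edge `e` is the set of the edges reachable from `e` by exchanges with a fixed
basis; the function `bb` of the bodies in terms of the list `bodL E`.
-/

set_option autoImplicit false

namespace Pool.Agent.TH694.GP

open Pool.Agent Pool.Agent.NPC Pool.Agent.H598R2.Cnt Pool.Agent.H632R2.Cogirth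
  Pool.Agent.H442R3.MPar

theorem C3.pr_inj {e f : ℕ × ℕ} (he : e.1 < e.2) (hf : f.1 < f.2) (h : pr e = pr f) : e = f := by
  obtain ⟨a, b⟩ := e
  obtain ⟨c, d⟩ := f
  simp only [pr] at h he hf
  have h1 : a ∈ ({c, d} : Finset ℕ) := by rw [← h]; simp
  have h2 : b ∈ ({c, d} : Finset ℕ) := by rw [← h]; simp
  simp only [Finset.mem_insert, Finset.mem_singleton] at h1 h2
  rcases h1 with rfl | rfl <;> rcases h2 with rfl | rfl
  · omega
  · rfl
  · omega
  · omega

theorem C3.mem_ps' {E : List (ℕ × ℕ)} {p : Finset ℕ} : p ∈ ps E ↔ ∃ x ∈ E, pr x = p := by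
  unfold ps pr
  simp

theorem C3.exch_sep {E : List (ℕ × ℕ)} (hE : WF E) {S : Finset (Finset ℕ)}
    (hS : Sepr (ps E) S) {x y : ℕ × ℕ} (hx : x ∈ E) (hy : y ∈ E)
    (h : exch (basL E) x y = true) : pr x ∈ S ↔ pr y ∈ S := by
  obtain ⟨hI, -, hM⟩ := basL_spec hE
  have h1 := (rel_iff hI (hE.1 x hx) (hE.1 y hy)).1 h
  exact (sepr_iff_exch (ps_pairs hE) hM hS.1).1 hS (pr x) (C3.mem_ps'.2 ⟨x, hx, rfl⟩) h1.1
    (pr y) h1.2.1 h1.2.2

theorem C3.rel_symm (I : List (ℕ × ℕ)) (x y : ℕ × ℕ) : rel I x y = rel I y x := by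
  unfold rel
  exact Bool.or_comm _ _

theorem mem_compL {E : List (ℕ × ℕ)} (hE : WF E) {e : ℕ × ℕ} (he : e ∈ E) (f : ℕ × ℕ) :
    f ∈ compL E e ↔ f ∈ E ∧ pr f ∈ cmp (ps E) (pr e) := by
  classical
  obtain ⟨hI, hIE, hM⟩ := basL_spec hE
  have hpe : pr e ∈ ps E := C3.mem_ps'.2 ⟨e, he, rfl⟩
  have hmem : ∀ x, x ∈ compL E e ↔
      Relation.ReflTransGen (fun y z => z ∈ E ∧ rel (basL E) y z = true) e x := by
    intro x
    unfold compL
    rw [mem_clos]
    constructor
    · rintro ⟨s, hs, -, h⟩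
      rw [List.mem_singleton] at hs
      subst hs
      exact h
    · intro h
      exact ⟨e, List.mem_singleton.2 rfl, he, h⟩
  have hin : ∀ x, x ∈ compL E e → x ∈ E := fun x hx => (clos_sublist _ _ _).subset hx
  constructor
  · intro hf
    refine ⟨hin f hf, ?_⟩
    have h1 := (hmem f).1 hf
    clear hf
    have h2 : f ∈ E ∧ pr f ∈ cmp (ps E) (pr e) := by
      induction h1 with
      | refl => exact ⟨he, mem_cmp_self hpe⟩
      | tail _ hyz ih =>
        refine ⟨hyz.1, ?_⟩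
        have h3 := hyz.2
        unfold rel at h3
        rw [Bool.or_eq_true] at h3
        rcases h3 with h3 | h3
        · exact (C3.exch_sep hE (sepr_cmp (ps_pairs hE) hpe) ih.1 hyz.1 h3).1 ih.2
        · exact (C3.exch_sep hE (sepr_cmp (ps_pairs hE) hpe) hyz.1 ih.1 h3).2 ih.2
    exact h2.2
  · rintro ⟨hf, hc⟩
    have hstep : ∀ x y, y ∈ E → rel (basL E) x y = true → x ∈ compL E e → y ∈ compL E e := by
      intro x y hy hr hx
      rw [hmem] at hx ⊢
      exact hx.tail ⟨hy, hr⟩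
    have hT : ∀ x, x ∈ E → (pr x ∈ (ps E).filter (fun p => ∃ z ∈ compL E e, pr z = p) ↔
        x ∈ compL E e) := by
      intro x hx
      rw [Finset.mem_filter]
      constructor
      · rintro ⟨-, z, hz, hzx⟩
        rw [← C3.pr_inj (hE.1 z (hin z hz)) (hE.1 x hx) hzx]
        exact hz
      · intro h
        exact ⟨C3.mem_ps'.2 ⟨x, hx, rfl⟩, x, h, rfl⟩
    have hS : Sepr (ps E) ((ps E).filter (fun p => ∃ z ∈ compL E e, pr z = p)) := by
      rw [sepr_iff_exch (ps_pairs hE) hM (Finset.filter_subset _ _)]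
      intro p hp hpI q hq hs
      obtain ⟨x, hx, rfl⟩ := C3.mem_ps'.1 hp
      obtain ⟨y, hy, rfl⟩ := C3.mem_ps'.1 hq
      have hyE := hIE y hy
      have hex : exch (basL E) x y = true :=
        (rel_iff hI (hE.1 x hx) (hE.1 y hyE)).2 ⟨hpI, hq, hs⟩
      have hr : rel (basL E) x y = true := by
        unfold rel
        rw [hex, Bool.true_or]
      have hr' : rel (basL E) y x = true := by rw [C3.rel_symm]; exact hr
      rw [hT x hx, hT y hyE]
      exact ⟨hstep x y hyE hr, hstep y x hx hr'⟩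
    have heT : pr e ∈ (ps E).filter (fun p => ∃ z ∈ compL E e, pr z = p) :=
      (hT e he).2 ((hmem e).2 Relation.ReflTransGen.refl)
    exact (hT f hf).1 (cmp_subset_of_sepr hS heT hc)

theorem C3.mem_vlt {S : List (ℕ × ℕ)} {v : ℕ} : v ∈ vlt S ↔ ∃ x ∈ S, v ∈ pr x := by
  unfold vlt pr
  simp

theorem mem_vlt_compL {E : List (ℕ × ℕ)} (hE : WF E) {e : ℕ × ℕ} (he : e ∈ E) (v : ℕ) :
    v ∈ vlt (compL E e) ↔ v ∈ vs (cmp (ps E) (pr e)) := by
  rw [C3.mem_vlt, mem_vs]
  constructor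
  · rintro ⟨x, hx, hv⟩
    exact ⟨pr x, ((mem_compL hE he x).1 hx).2, hv⟩
  · rintro ⟨p, hp, hv⟩
    obtain ⟨x, hx, rfl⟩ := C3.mem_ps'.1 (cmp_subset _ _ hp)
    exact ⟨x, (mem_compL hE he x).2 ⟨hx, hp⟩, hv⟩

theorem poly_compL {α : Type} [TEnc α] {E : α → List (ℕ × ℕ)} {e : α → ℕ × ℕ} (hE : Poly E)
    (he : Poly e) : Poly (fun a => compL (E a) (e a)) := by
  unfold compL
  refine poly_clos hE ?_ ?_
  · refine poly_rel (poly_basL ?_) ?_ ?_ <;> fun_prop
  · fun_prop

theorem C3.poly_vlt {α : Type} [TEnc α] {S : α → List (ℕ × ℕ)} (hS : Poly S) :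
    Poly (fun a => vlt (S a)) := by
  unfold vlt
  fun_prop

theorem poly_bodL {α : Type} [TEnc α] {E : α → List (ℕ × ℕ)} (hE : Poly E) :
    Poly (fun a => bodL (E a)) := by
  unfold bodL
  refine NPC.Poly.map (poly_basL hE) ?_
  refine C3.poly_vlt (poly_compL ?_ ?_) <;> fun_prop

/-- the function `b` in terms of the list `bodL E` -/
theorem bb_bodL {E : List (ℕ × ℕ)} (hE : WF E) (Z : Finset ℕ) :
    bb (bodies (ps E)) Z = ((Finset.range (bodL E).length).filter
      (fun i => ∃ z ∈ Z, z ∈ (bodL E).getD i [])).card := by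
  classical
  obtain ⟨hI, hIE, hM⟩ := basL_spec hE
  rw [bb_maxl (ps_pairs hE) hM Z]
  have hlen : (bodL E).length = (basL E).length := by
    unfold bodL
    rw [List.length_map]
  have hget : ∀ i (hi : i < (basL E).length), (bodL E).getD i [] =
      vlt (compL E ((basL E)[i])) := by
    intro i hi
    unfold bodL
    rw [List.getD_eq_getElem _ _ (by rw [List.length_map]; exact hi), List.getElem_map]
  symm
  refine Finset.card_bij (fun i _ => pr ((basL E).getD i (0, 0))) ?_ ?_ ?_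
  · intro i hi
    rw [Finset.mem_filter, Finset.mem_range, hlen] at hi
    obtain ⟨hi, z, hz, hzi⟩ := hi
    rw [hget i hi, mem_vlt_compL hE (hIE _ (List.getElem_mem hi))] at hzi
    rw [Finset.mem_filter, List.getD_eq_getElem _ _ hi]
    exact ⟨C3.mem_ps'.2 ⟨_, List.getElem_mem hi, rfl⟩, z, Finset.mem_inter.2 ⟨hzi, hz⟩⟩
  · intro i hi j hj hij
    rw [Finset.mem_filter, Finset.mem_range, hlen] at hi hj
    simp only [List.getD_eq_getElem _ _ hi.1, List.getD_eq_getElem _ _ hj.1] at hij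
    have h1 := C3.pr_inj (hI.1 _ (List.getElem_mem hi.1)) (hI.1 _ (List.getElem_mem hj.1)) hij
    exact (List.Nodup.getElem_inj_iff hI.2).1 h1
  · intro p hp
    rw [Finset.mem_filter] at hp
    obtain ⟨hp, z, hz⟩ := hp
    obtain ⟨x, hx, rfl⟩ := C3.mem_ps'.1 hp
    obtain ⟨i, hi, rfl⟩ := List.getElem_of_mem hx
    rw [Finset.mem_inter] at hz
    refine ⟨i, ?_, ?_⟩
    · rw [Finset.mem_filter, Finset.mem_range, hlen]
      refine ⟨hi, z, hz.2, ?_⟩
      rw [hget i hi, mem_vlt_compL hE (hIE _ (List.getElem_mem hi))]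
      exact hz.1
    · simp only [List.getD_eq_getElem _ _ hi]

end Pool.Agent.TH694.GP
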