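import Pool.Agent.TH694.GP.AlgDefs

/-!
# Globally rigid pinning, part C4: the largest size of a valid subset of a list
-/

set_option autoImplicit false

namespace Pool.Agent.TH694.GP

open Pool.Agent Pool.Agent.NPC Pool.Agent.H598R2.Cnt Pool.Agent.H632R2.Cogirth
  Pool.Agent.H442R3.MPar

theorem mem_hv {L : List (List ℕ)} {v j : ℕ} :
    j ∈ hv L v ↔ j < L.length ∧ v ∈ L.getD j [] := by
  unfold hv
  rw [List.mem_map]
  constructor
  · rintro ⟨⟨l, i⟩, h, rfl⟩
    rw [List.mem_filter, List.mem_zipIdx_iff_getElem?] at h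
    obtain ⟨h1, h2⟩ := h
    simp only at h1 h2 ⊢
    obtain ⟨h3, h4⟩ := List.getElem?_eq_some_iff.1 h1
    refine ⟨h3, ?_⟩
    rw [List.getD_eq_getElem _ _ h3, h4]
    exact of_decide_eq_true h2
  · rintro ⟨h1, h2⟩
    refine ⟨(L.getD j [], j), ?_, rfl⟩
    rw [List.mem_filter, List.mem_zipIdx_iff_getElem?]
    refine ⟨?_, decide_eq_true h2⟩
    rw [List.getD_eq_getElem _ _ h1]
    exact List.getElem?_eq_getElem h1

theorem edgeOf_hv {L : List (List ℕ)} {W : List ℕ} {i : ℕ} (hi : i < W.length) (s : Bool) :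
    edgeOf (W.map (fun v => (hv L v, hv L v))) (i, s) = (hv L (W.getD i 0)).toFinset := by
  unfold edgeOf
  simp only
  rw [List.getD_eq_getElem _ _ (by rw [List.length_map]; exact hi), List.getElem_map,
    List.getD_eq_getElem _ _ hi]
  cases s <;> rfl

theorem getD_inj {W : List ℕ} (hW : W.Nodup) {i j : ℕ} (hi : i < W.length) (hj : j < W.length)
    (h : W.getD i 0 = W.getD j 0) : i = j := by
  rw [List.getD_eq_getElem _ _ hi, List.getD_eq_getElem _ _ hj] at h
  exact (List.Nodup.getElem_inj_iff hW).1 h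

/-- the union of the sets `h(v)` -/
theorem biUnion_hv {L : List (List ℕ)} {W : List ℕ} {Y : Finset (ℕ × Bool)}
    (hY : ∀ y ∈ Y, y.1 < W.length) {Z : Finset ℕ}
    (hZ : Z = (Y.image Prod.fst).image (fun i => W.getD i 0)) :
    Y.biUnion (edgeOf (W.map (fun v => (hv L v, hv L v)))) =
      (Finset.range L.length).filter (fun i => ∃ z ∈ Z, z ∈ L.getD i []) := by
  ext j
  rw [Finset.mem_biUnion, Finset.mem_filter, Finset.mem_range]
  constructor
  · rintro ⟨⟨i, s⟩, hy, hj⟩
    rw [edgeOf_hv (hY _ hy), List.mem_toFinset, mem_hv] at hj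
    refine ⟨hj.1, W.getD i 0, ?_, hj.2⟩
    rw [hZ]
    exact Finset.mem_image_of_mem _ (Finset.mem_image_of_mem Prod.fst hy)
  · rintro ⟨h1, z, hz, h2⟩
    rw [hZ, Finset.mem_image] at hz
    obtain ⟨i, hi, rfl⟩ := hz
    rw [Finset.mem_image] at hi
    obtain ⟨⟨i', s⟩, hy, rfl⟩ := hi
    refine ⟨(i', s), hy, ?_⟩
    rw [edgeOf_hv (hY _ hy), List.mem_toFinset, mem_hv]
    exact ⟨h1, h2⟩

theorem hypIndep_iff {L : List (List ℕ)} {W : List ℕ} (hW : W.Nodup) {M : Finset ℕ}
    (hM : M ⊆ Finset.range W.length) :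
    HypIndep (edgeOf (W.map (fun v => (hv L v, hv L v)))) (M ×ˢ (Finset.univ : Finset Bool)) ↔
      ∀ Z ⊆ M.image (fun i => W.getD i 0), Z.Nonempty → 2 * Z.card + 1 ≤
        ((Finset.range L.length).filter (fun i => ∃ z ∈ Z, z ∈ L.getD i [])).card := by
  have hinj : ∀ I ⊆ M, (I.image (fun i => W.getD i 0)).card = I.card := by
    intro I hI
    apply Finset.card_image_of_injOn
    intro i hi j hj h
    exact getD_inj hW (Finset.mem_range.1 (hM (hI hi))) (Finset.mem_range.1 (hM (hI hj))) h
  constructor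
  · intro h Z hZ hne
    set I := M.filter (fun i => W.getD i 0 ∈ Z) with hI
    have hIM : I ⊆ M := Finset.filter_subset _ _
    have hIZ : I.image (fun i => W.getD i 0) = Z := by
      ext z
      rw [Finset.mem_image]
      constructor
      · rintro ⟨i, hi, rfl⟩
        exact (Finset.mem_filter.1 hi).2
      · intro hz
        obtain ⟨i, hi, rfl⟩ := Finset.mem_image.1 (hZ hz)
        exact ⟨i, Finset.mem_filter.2 ⟨hi, hz⟩, rfl⟩
    have hfst : (I ×ˢ (Finset.univ : Finset Bool)).image Prod.fst = I := by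
      ext i
      rw [Finset.mem_image]
      constructor
      · rintro ⟨⟨a, b⟩, h1, rfl⟩
        exact (Finset.mem_product.1 h1).1
      · intro hi
        exact ⟨(i, true), Finset.mem_product.2 ⟨hi, Finset.mem_univ _⟩, rfl⟩
    have hYne : (I ×ˢ (Finset.univ : Finset Bool)).Nonempty := by
      obtain ⟨z, hz⟩ := hne
      rw [← hIZ, Finset.mem_image] at hz
      obtain ⟨i, hi, -⟩ := hz
      exact ⟨(i, true), Finset.mem_product.2 ⟨hi, Finset.mem_univ _⟩⟩
    have h1 := h (I ×ˢ (Finset.univ : Finset Bool))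
      (Finset.product_subset_product_left hIM) hYne
    rw [biUnion_hv (Z := Z) (fun y hy =>
      Finset.mem_range.1 (hM (hIM (Finset.mem_product.1 hy).1))) (by rw [hfst, hIZ])] at h1
    rw [Finset.card_product, Finset.card_univ, Fintype.card_bool] at h1
    rw [← hinj I hIM, hIZ] at h1
    omega
  · intro h Y hY hne
    have hYM : Y.image Prod.fst ⊆ M := by
      intro i hi
      obtain ⟨y, hy, rfl⟩ := Finset.mem_image.1 hi
      exact (Finset.mem_product.1 (hY hy)).1
    have h1 := h ((Y.image Prod.fst).image (fun i => W.getD i 0))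
      (Finset.image_subset_image hYM) ((hne.image _).image _)
    rw [← biUnion_hv (L := L) (W := W) (Y := Y) (fun y hy =>
      Finset.mem_range.1 (hM (hYM (Finset.mem_image_of_mem _ hy)))) rfl] at h1
    rw [hinj _ hYM] at h1
    have h2 : Y.card ≤ (Y.image Prod.fst ×ˢ (Finset.univ : Finset Bool)).card := by
      apply Finset.card_le_card
      intro y hy
      exact Finset.mem_product.2 ⟨Finset.mem_image_of_mem _ hy, Finset.mem_univ _⟩
    rw [Finset.card_product, Finset.card_univ, Fintype.card_bool] at h2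
    omega

theorem nuV_spec (L : List (List ℕ)) {W : List ℕ} (hW : W.Nodup) :
    IsGreatest {k | ∃ Q ⊆ W.toFinset, (∀ Z ⊆ Q, Z.Nonempty → 2 * Z.card + 1 ≤
      ((Finset.range L.length).filter (fun i => ∃ z ∈ Z, z ∈ L.getD i [])).card) ∧ Q.card = k}
      (nuV L W) := by
  have h := nuF_correct (W.map (fun v => (hv L v, hv L v)))
  have hset : {k | ∃ Q ⊆ W.toFinset, (∀ Z ⊆ Q, Z.Nonempty → 2 * Z.card + 1 ≤
      ((Finset.range L.length).filter (fun i => ∃ z ∈ Z, z ∈ L.getD i [])).card) ∧ Q.card = k} =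
      {k | ∃ M, IsMatch (W.map (fun v => (hv L v, hv L v))) M ∧ M.card = k} := by
    ext k
    simp only [Set.mem_ofPred_eq]
    constructor
    · rintro ⟨Q, hQ, hval, rfl⟩
      have hM : (Finset.range W.length).filter (fun i => W.getD i 0 ∈ Q) ⊆
          Finset.range W.length := Finset.filter_subset _ _
      have himg : ((Finset.range W.length).filter (fun i => W.getD i 0 ∈ Q)).image
          (fun i => W.getD i 0) = Q := by
        ext z
        rw [Finset.mem_image]
        constructor
        · rintro ⟨i, hi, rfl⟩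
          exact (Finset.mem_filter.1 hi).2
        · intro hz
          obtain ⟨i, hi, hiz⟩ := List.getElem_of_mem (List.mem_toFinset.1 (hQ hz))
          have hg : W.getD i 0 = z := by rw [List.getD_eq_getElem _ _ hi]; exact hiz
          exact ⟨i, Finset.mem_filter.2 ⟨Finset.mem_range.2 hi, by rw [hg]; exact hz⟩, hg⟩
      refine ⟨(Finset.range W.length).filter (fun i => W.getD i 0 ∈ Q), ⟨?_, ?_⟩, ?_⟩
      · rw [List.length_map]; exact hM
      · rw [hypIndep_iff hW hM, himg]
        exact hval
      · conv_rhs => rw [← himg]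
        rw [Finset.card_image_of_injOn]
        intro i hi j hj hij
        exact getD_inj hW (Finset.mem_range.1 (hM hi)) (Finset.mem_range.1 (hM hj)) hij
    · rintro ⟨M, ⟨hM, hI⟩, rfl⟩
      rw [List.length_map] at hM
      rw [hypIndep_iff hW hM] at hI
      refine ⟨M.image (fun i => W.getD i 0), ?_, hI, ?_⟩
      · intro z hz
        obtain ⟨i, hi, rfl⟩ := Finset.mem_image.1 hz
        have hi' := Finset.mem_range.1 (hM hi)
        rw [List.mem_toFinset, List.getD_eq_getElem _ _ hi']
        exact List.getElem_mem hi'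
      · rw [Finset.card_image_of_injOn]
        intro i hi j hj hij
        exact getD_inj hW (Finset.mem_range.1 (hM hi)) (Finset.mem_range.1 (hM hj)) hij
  rw [hset]
  exact h

section poly

variable {α : Type} [TEnc α]

theorem poly_hv {L : α → List (List ℕ)} {v : α → ℕ} (hL : Poly L) (hv' : Poly v) :
    Poly (fun a => hv (L a) (v a)) := by
  unfold hv
  fun_prop

attribute [fun_prop] poly_hv

theorem poly_nuV {L : α → List (List ℕ)} {W : α → List ℕ} (hL : Poly L)
    (hW : Poly W) : Poly (fun a => nuV (L a) (W a)) := by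
  unfold nuV
  exact poly_nuF (by fun_prop)

end poly

end Pool.Agent.TH694.GP
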