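import Pool.Agent.TH694.GP.C0

/-!
# Globally rigid pinning: the candidate sets
-/

set_option autoImplicit false

namespace Pool.Agent.TH694.GP

open Pool.Agent Pool.Agent.NPC Pool.Agent.H598R2.Cnt Pool.Agent.H632R2.Cogirth
  Pool.Agent.H442R3.MPar

theorem c5_adj {E : List (ℕ × ℕ)} (hE : WF E) (x y : ℕ) :
    adjL E x y = true ↔ ({x, y} : Finset ℕ) ∈ ps E := by
  unfold adjL ps
  rw [Bool.or_eq_true, decide_eq_true_iff, decide_eq_true_iff, List.mem_toFinset, List.mem_map]
  constructor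
  · rintro (h | h)
    · exact ⟨(x, y), h, rfl⟩
    · exact ⟨(y, x), h, Finset.pair_comm _ _⟩
  · rintro ⟨⟨a, b⟩, hm, he⟩
    have hlt : a < b := hE.1 _ hm
    have ha : a ∈ ({x, y} : Finset ℕ) := by rw [← he]; simp
    have hb : b ∈ ({x, y} : Finset ℕ) := by rw [← he]; simp
    rw [Finset.mem_insert, Finset.mem_singleton] at ha hb
    rcases ha with rfl | rfl <;> rcases hb with rfl | rfl
    · exact absurd hlt (lt_irrefl _)
    · exact Or.inl hm
    · exact Or.inr hm
    · exact absurd hlt (lt_irrefl _)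

theorem c5_adj_comm (E : List (ℕ × ℕ)) (x y : ℕ) : adjL E x y = adjL E y x := by
  unfold adjL
  rw [Bool.or_comm]

theorem mem_nbL {U : List ℕ} {E : List (ℕ × ℕ)} (hE : WF E) (X : List ℕ) (v : ℕ) :
    v ∈ nbL U E X ↔ v ∈ Nb U.toFinset (ps E) X.toFinset := by
  unfold nbL
  rw [mem_Nb, List.mem_filter, List.mem_toFinset, List.mem_toFinset]
  refine and_congr_right fun _ => ?_
  rw [Bool.and_eq_true, Bool.not_eq_true', decide_eq_false_iff_not, List.any_eq_true]
  refine and_congr_right fun _ => exists_congr fun x => ?_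
  rw [List.mem_toFinset, c5_adj hE]

theorem c5_nbL_toFinset {U : List ℕ} {E : List (ℕ × ℕ)} (hE : WF E) (X : List ℕ) :
    (nbL U E X).toFinset = Nb U.toFinset (ps E) X.toFinset := by
  ext v
  rw [List.mem_toFinset, mem_nbL hE]

theorem c5_mem_cands {U : List ℕ} {E : List (ℕ × ℕ)} {X : List ℕ} :
    X ∈ cands U E ↔ (∃ u ∈ U, ∃ v ∈ U, ∃ x ∈ U, comL U E u v x = X) ∧ X ≠ [] ∧
      X.length + (nbL U E X).length < U.length := by
  unfold cands
  simp only [List.mem_filter, List.mem_flatMap, List.mem_map, Bool.and_eq_true,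
    Bool.not_eq_true', decide_eq_false_iff_not, decide_eq_true_iff, ne_eq]

theorem c5_com_sub (U : List ℕ) (E : List (ℕ × ℕ)) (u v x : ℕ) :
    (comL U E u v x).Sublist U :=
  (clos_sublist _ _ _).trans List.filter_sublist

theorem c5_mem_com {U : List ℕ} {E : List (ℕ × ℕ)} {u v x z : ℕ} :
    z ∈ comL U E u v x ↔ (x ∈ U ∧ x ≠ u ∧ x ≠ v) ∧
      Relation.ReflTransGen (fun y z => (z ∈ U ∧ z ≠ u ∧ z ≠ v) ∧ adjL E y z = true) x z := by
  unfold comL
  rw [mem_clos]
  have key : ∀ w, w ∈ U.filter (fun w => !decide (w = u) && !decide (w = v)) ↔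
      (w ∈ U ∧ w ≠ u ∧ w ≠ v) := by
    intro w
    simp only [List.mem_filter, Bool.and_eq_true, Bool.not_eq_true', decide_eq_false_iff_not,
      ne_eq]
  simp only [List.mem_singleton, exists_eq_left, key]

theorem cands_sound {U : List ℕ} {E : List (ℕ × ℕ)} (hU : U.Nodup) (hE : WF E) {X : List ℕ}
    (hX : X ∈ cands U E) : X.Nodup ∧ X ≠ [] ∧ Sepd U.toFinset (ps E) X.toFinset := by
  obtain ⟨⟨u, -, v, -, x, -, rfl⟩, hne, hlt⟩ := c5_mem_cands.1 hX
  have hsub := c5_com_sub U E u v x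
  refine ⟨hU.sublist hsub, hne, ?_, ?_, ?_, ?_⟩
  · intro w hw
    rw [List.mem_toFinset] at hw ⊢
    exact hsub.subset hw
  · rw [List.toFinset_nonempty_iff]
    exact hne
  · have h2 : Nb U.toFinset (ps E) (comL U E u v x).toFinset ⊆ {u, v} := by
      intro w hw
      rw [mem_Nb] at hw
      obtain ⟨h1, h2, y, hy, h3⟩ := hw
      rw [List.mem_toFinset] at h1 h2 hy
      by_contra hc
      rw [Finset.mem_insert, Finset.mem_singleton, not_or] at hc
      apply h2
      rw [c5_mem_com] at hy ⊢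
      refine ⟨hy.1, hy.2.tail ⟨⟨h1, hc.1, hc.2⟩, ?_⟩⟩
      rw [c5_adj_comm, c5_adj hE]
      exact h3
    exact (Finset.card_le_card h2).trans Finset.card_le_two
  · intro he
    have h1 : U.toFinset.card = U.length := List.toFinset_card_of_nodup hU
    rw [← he, ← c5_nbL_toFinset hE] at h1
    have h2 := Finset.card_union_le (comL U E u v x).toFinset
      (nbL U E (comL U E u v x)).toFinset
    have h3 := List.toFinset_card_le (comL U E u v x)
    have h4 := List.toFinset_card_le (nbL U E (comL U E u v x))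
    omega

theorem c5_pair {S A : Finset ℕ} (hS : S.card ≤ 2) (hSA : S ⊆ A) (hA : A.Nonempty) :
    ∃ u ∈ A, ∃ v ∈ A, S ⊆ {u, v} := by
  have h3 : S.card = 0 ∨ S.card = 1 ∨ S.card = 2 := by omega
  rcases h3 with h | h | h
  · obtain ⟨y, hy⟩ := hA
    rw [Finset.card_eq_zero] at h
    exact ⟨y, hy, y, hy, by rw [h]; exact Finset.empty_subset _⟩
  · rw [Finset.card_eq_one] at h
    obtain ⟨a, rfl⟩ := h
    have ha : a ∈ A := hSA (Finset.mem_singleton_self a)
    exact ⟨a, ha, a, ha, by intro w hw; rw [Finset.mem_singleton] at hw; simp [hw]⟩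
  · rw [Finset.card_eq_two] at h
    obtain ⟨a, b, -, rfl⟩ := h
    exact ⟨a, hSA (by simp), b, hSA (by simp), Finset.Subset.refl _⟩

theorem cands_complete {U : List ℕ} {E : List (ℕ × ℕ)} (hU : U.Nodup) (hE : WF E)
    {X : Finset ℕ} (hX : Sepd U.toFinset (ps E) X) : ∃ Y ∈ cands U E, Y.toFinset ⊆ X := by
  obtain ⟨hXU, ⟨x, hx⟩, hc, hne⟩ := hX
  have hy : ∃ y ∈ U.toFinset, y ∉ X ∪ Nb U.toFinset (ps E) X := by
    by_contra hcon
    push Not at hcon
    apply hne
    apply Finset.Subset.antisymm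
    · apply Finset.union_subset hXU
      intro w hw
      exact (mem_Nb.1 hw).1
    · exact hcon
  obtain ⟨y, hyU, hy⟩ := hy
  rw [Finset.mem_union, not_or] at hy
  have hNA : Nb U.toFinset (ps E) X ⊆ U.toFinset \ X := by
    intro w hw
    rw [mem_Nb] at hw
    exact Finset.mem_sdiff.2 ⟨hw.1, hw.2.1⟩
  obtain ⟨u, hu, v, hv, huv⟩ := c5_pair hc hNA ⟨y, Finset.mem_sdiff.2 ⟨hyU, hy.1⟩⟩
  rw [Finset.mem_sdiff] at hu hv
  have hYX : ∀ z ∈ comL U E u v x, z ∈ X := by
    intro z hz
    rw [c5_mem_com] at hz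
    obtain ⟨-, hz⟩ := hz
    induction hz with
    | refl => exact hx
    | @tail b c _ h2 ih =>
      by_contra hcX
      have hcN : c ∈ Nb U.toFinset (ps E) X := by
        rw [mem_Nb]
        refine ⟨List.mem_toFinset.2 h2.1.1, hcX, b, ih, ?_⟩
        rw [← c5_adj hE, c5_adj_comm]
        exact h2.2
      have := huv hcN
      rw [Finset.mem_insert, Finset.mem_singleton] at this
      rcases this with h | h
      · exact h2.1.2.1 h
      · exact h2.1.2.2 h
  have hxU : x ∈ U := List.mem_toFinset.1 (hXU hx)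
  have hxY : x ∈ comL U E u v x := by
    rw [c5_mem_com]
    refine ⟨⟨hxU, ?_, ?_⟩, Relation.ReflTransGen.refl⟩
    · rintro rfl
      exact hu.2 hx
    · rintro rfl
      exact hv.2 hx
  refine ⟨comL U E u v x, c5_mem_cands.2 ⟨⟨u, List.mem_toFinset.1 hu.1, v,
    List.mem_toFinset.1 hv.1, x, hxU, rfl⟩, List.ne_nil_of_mem hxY, ?_⟩, ?_⟩
  · have hyY : y ∉ comL U E u v x := fun h => hy.1 (hYX y h)
    have hyN : y ∉ nbL U E (comL U E u v x) := by
      intro h
      rw [mem_nbL hE, mem_Nb] at h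
      obtain ⟨h1, -, z, hz, h3⟩ := h
      exact hy.2 (mem_Nb.2 ⟨h1, hy.1, z, hYX z (List.mem_toFinset.1 hz), h3⟩)
    have hnd : (y :: (comL U E u v x ++ nbL U E (comL U E u v x))).Nodup := by
      rw [List.nodup_cons, List.mem_append, not_or]
      refine ⟨⟨hyY, hyN⟩, ?_⟩
      rw [List.nodup_append']
      refine ⟨hU.sublist (c5_com_sub _ _ _ _ _), hU.sublist List.filter_sublist, ?_⟩
      intro w hw1 hw2
      rw [mem_nbL hE, mem_Nb] at hw2
      exact hw2.2.1 (List.mem_toFinset.2 hw1)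
    have hsub : (y :: (comL U E u v x ++ nbL U E (comL U E u v x))) ⊆ U := by
      intro w hw
      rw [List.mem_cons, List.mem_append] at hw
      rcases hw with rfl | hw | hw
      · exact List.mem_toFinset.1 hyU
      · exact (c5_com_sub _ _ _ _ _).subset hw
      · exact List.filter_sublist.subset hw
    have := (hnd.subperm hsub).length_le
    rw [List.length_cons, List.length_append] at this
    omega
  · intro z hz
    exact hYX z (List.mem_toFinset.1 hz)

theorem c5_poly_adjL {α : Type} [TEnc α] {E : α → List (ℕ × ℕ)} {x y : α → ℕ} (hE : Poly E)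
    (hx : Poly x) (hy : Poly y) : Poly (fun a => adjL (E a) (x a) (y a)) := by
  unfold adjL
  fun_prop

theorem c5_poly_nbL {α : Type} [TEnc α] {U : α → List ℕ} {E : α → List (ℕ × ℕ)} {X : α → List ℕ}
    (hU : Poly U) (hE : Poly E) (hX : Poly X) : Poly (fun a => nbL (U a) (E a) (X a)) := by
  unfold nbL adjL
  fun_prop

theorem c5_poly_comL {α : Type} [TEnc α] {U : α → List ℕ} {E : α → List (ℕ × ℕ)} {u v x : α → ℕ}
    (hU : Poly U) (hE : Poly E) (hu : Poly u) (hv : Poly v) (hx : Poly x) :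
    Poly (fun a => comL (U a) (E a) (u a) (v a) (x a)) := by
  unfold comL
  refine poly_clos (U := fun a => (U a).filter (fun w => !decide (w = u a) && !decide (w = v a)))
    (R := fun a => adjL (E a)) (S := fun a => [x a]) ?_ ?_ ?_
  · fun_prop
  · unfold adjL
    fun_prop
  · fun_prop

attribute [fun_prop] c5_poly_adjL c5_poly_nbL c5_poly_comL

theorem poly_cands {α : Type} [TEnc α] {U : α → List ℕ} {E : α → List (ℕ × ℕ)} (hU : Poly U)
    (hE : Poly E) : Poly (fun a => cands (U a) (E a)) := by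
  unfold cands
  fun_prop

attribute [fun_prop] poly_cands

end Pool.Agent.TH694.GP
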