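import Pool.Agent.TH694.GP.Defs

/-!
# The rank function of the (2,3)-count matroid
-/

set_option autoImplicit false
namespace Pool.Agent.TH694.GP
open Pool.Agent.H598R2.Cnt
variable {V : Type*} [DecidableEq V]

theorem card_le_rk {Γ I : Finset (Finset V)} (hI : I ⊆ Γ) (hs : Sp I) : I.card ≤ rk Γ := by
  classical
  unfold rk
  exact Finset.le_sup (f := Finset.card) (Finset.mem_filter.2 ⟨Finset.mem_powerset.2 hI, hs⟩)

theorem M1.sp_empty : Sp (∅ : Finset (Finset V)) := by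
  intro X hX
  have : ins (∅ : Finset (Finset V)) X = 0 := by
    unfold ins
    rw [Finset.filter_empty, Finset.card_empty]
  omega

theorem exists_card_rk (Γ : Finset (Finset V)) : ∃ I ⊆ Γ, Sp I ∧ I.card = rk Γ := by
  classical
  obtain ⟨I, hI, h⟩ := Finset.exists_mem_eq_sup (Γ.powerset.filter (fun I => Sp I))
    ⟨∅, Finset.mem_filter.2 ⟨Finset.empty_mem_powerset _, M1.sp_empty⟩⟩ Finset.card
  rw [Finset.mem_filter, Finset.mem_powerset] at hI
  refine ⟨I, hI.1, hI.2, ?_⟩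
  rw [← h]
  unfold rk
  congr!

theorem rk_eq {Γ I : Finset (Finset V)} (hΓ : Pairs Γ) (h : Maxl Γ I) : rk Γ = I.card := by
  obtain ⟨J, hJ, hs, hc⟩ := exists_card_rk Γ
  have h1 := h.card_le hΓ hJ hs
  have h2 := card_le_rk h.1 h.2.1
  omega

theorem rk_le_card (Γ : Finset (Finset V)) : rk Γ ≤ Γ.card := by
  obtain ⟨J, hJ, hs, hc⟩ := exists_card_rk Γ
  rw [← hc]
  exact Finset.card_le_card hJ

theorem rk_mono {Γ Δ : Finset (Finset V)} (h : Γ ⊆ Δ) : rk Γ ≤ rk Δ := by
  obtain ⟨J, hJ, hs, hc⟩ := exists_card_rk Γ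
  rw [← hc]
  exact card_le_rk (hJ.trans h) hs

theorem rk_of_sp {I : Finset (Finset V)} (hs : Sp I) : rk I = I.card :=
  le_antisymm (rk_le_card I) (card_le_rk subset_rfl hs)

theorem rk_union_le (A B : Finset (Finset V)) : rk (A ∪ B) ≤ rk A + rk B := by
  obtain ⟨J, hJ, hs, hc⟩ := exists_card_rk (A ∪ B)
  have h1 : (J ∩ A).card ≤ rk A :=
    card_le_rk Finset.inter_subset_right (hs.mono Finset.inter_subset_left)
  have h2 : (J ∩ B).card ≤ rk B :=
    card_le_rk Finset.inter_subset_right (hs.mono Finset.inter_subset_left)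
  have h3 : J ⊆ (J ∩ A) ∪ (J ∩ B) := by
    rw [← Finset.inter_union_distrib_left]
    exact Finset.subset_inter subset_rfl hJ
  have h4 := (Finset.card_le_card h3).trans (Finset.card_union_le _ _)
  omega

theorem rk_submod {A B : Finset (Finset V)} (hA : Pairs A) (hB : Pairs B) :
    rk (A ∪ B) + rk (A ∩ B) ≤ rk A + rk B := by
  obtain ⟨I, -, hI⟩ := exists_maxl (Finset.empty_subset (A ∩ B)) (M1.sp_empty (V := V))
  obtain ⟨J, hIJ, hJ⟩ := exists_maxl (Γ := A ∪ B)
    (hI.1.trans (Finset.inter_subset_left.trans Finset.subset_union_left)) hI.2.1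
  have hAB : Pairs (A ∩ B) := fun p hp => hA p (Finset.mem_inter.1 hp).1
  have hAU : Pairs (A ∪ B) := fun p hp => (Finset.mem_union.1 hp).elim (hA p) (hB p)
  rw [rk_eq hAU hJ, rk_eq hAB hI]
  have h1 : (J ∩ A).card ≤ rk A :=
    card_le_rk Finset.inter_subset_right (hJ.2.1.mono Finset.inter_subset_left)
  have h2 : (J ∩ B).card ≤ rk B :=
    card_le_rk Finset.inter_subset_right (hJ.2.1.mono Finset.inter_subset_left)
  have h3 : J ⊆ (J ∩ A) ∪ (J ∩ B) := by
    rw [← Finset.inter_union_distrib_left]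
    exact Finset.subset_inter subset_rfl hJ.1
  have h4 : I ⊆ (J ∩ A) ∩ (J ∩ B) := by
    intro p hp
    have h5 := Finset.mem_inter.1 (hI.1 hp)
    exact Finset.mem_inter.2 ⟨Finset.mem_inter.2 ⟨hIJ hp, h5.1⟩,
      Finset.mem_inter.2 ⟨hIJ hp, h5.2⟩⟩
  have h5 := Finset.card_union_add_card_inter (J ∩ A) (J ∩ B)
  have h6 := Finset.card_le_card h3
  have h7 := Finset.card_le_card h4
  omega

theorem rk_singleton {e : Finset V} (he : e.card = 2) : rk {e} = 1 := by
  have h : Sp ({e} : Finset (Finset V)) := by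
    intro X hX
    have : ins ({e} : Finset (Finset V)) X ≤ 1 :=
      (ins_le_card _ _).trans (Finset.card_singleton e).le
    omega
  rw [rk_of_sp h, Finset.card_singleton]

/-- all pairs in `Γ` are subsets of `U` -/
theorem rk_le_of_sub {Γ : Finset (Finset V)} (hΓ : Pairs Γ) {U : Finset V}
    (hU : ∀ p ∈ Γ, p ⊆ U) (h2 : 2 ≤ U.card) : rk Γ + 3 ≤ 2 * U.card := by
  obtain ⟨J, hJ, hs, hc⟩ := exists_card_rk Γ
  have h1 := hs U h2
  have h3 : ins J U = J.card := by
    unfold ins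
    rw [Finset.filter_true_of_mem (fun p hp => hU p (hJ hp))]
  omega

theorem rig_iff_rk {Γ : Finset (Finset V)} (hΓ : Pairs Γ) {U : Finset V}
    (hU : ∀ p ∈ Γ, p ⊆ U) (h2 : 2 ≤ U.card) : Rig Γ U ↔ rk Γ + 3 = 2 * U.card := by
  constructor
  · rintro ⟨I, hI, hs, -, hc⟩
    have h3 := card_le_rk hI hs
    have h4 := rk_le_of_sub hΓ hU h2
    omega
  · intro h
    obtain ⟨J, hJ, hs, hc⟩ := exists_card_rk Γ
    exact ⟨J, hJ, hs, fun p hp => hU p (hJ hp), by omega⟩

end Pool.Agent.TH694.GP
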