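import Pool.Agent.TH694.GP.AlgDefs
import Pool.Agent.TH694.GP.M1
import Pool.Agent.TH694.GP.C2
import Pool.Agent.TH694.GP.C5

/-!
# Globally rigid pinning: the test of global rigidity, small sets
-/

set_option autoImplicit false

namespace Pool.Agent.TH694.GP

open Pool.Agent Pool.Agent.NPC Pool.Agent.H598R2.Cnt Pool.Agent.H632R2.Cogirth
  Pool.Agent.H442R3.MPar

theorem basL_length {E : List (ℕ × ℕ)} (hE : WF E) : (basL E).length = rk (ps E) := by
  obtain ⟨h1, _, h3⟩ := basL_spec hE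
  rw [rk_eq (ps_pairs hE) h3, ps_card h1]

theorem mem_allP {U : List ℕ} {e : ℕ × ℕ} : e ∈ allP U ↔ e.1 ∈ U ∧ e.2 ∈ U ∧ e.1 < e.2 := by
  unfold allP
  simp only [List.mem_flatMap, List.mem_map, List.mem_filter, decide_eq_true_eq]
  constructor
  · rintro ⟨a, ha, b, ⟨hb, hab⟩, rfl⟩
    exact ⟨ha, hb, hab⟩
  · rintro ⟨ha, hb, hab⟩
    exact ⟨e.1, ha, e.2, ⟨hb, hab⟩, rfl⟩

theorem allP_nodup {U : List ℕ} (hU : U.Nodup) : (allP U).Nodup := by
  unfold allP
  rw [List.nodup_flatMap]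
  refine ⟨fun a _ => ?_, ?_⟩
  · exact (hU.filter _).map (fun b c h => by
      simp only [Prod.mk.injEq, true_and] at h
      exact h)
  · refine hU.imp (fun {a b} hab => ?_)
    intro e he he'
    simp only [List.mem_map, List.mem_filter] at he he'
    obtain ⟨x, _, rfl⟩ := he
    obtain ⟨y, _, h⟩ := he'
    exact hab (congrArg Prod.fst h).symm

namespace C7

theorem mem_ps' {E : List (ℕ × ℕ)} {s : Finset ℕ} : s ∈ ps E ↔ ∃ e ∈ E, pr e = s := by
  unfold ps pr
  rw [List.mem_toFinset, List.mem_map]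

theorem pair_of_card {s : Finset ℕ} (h : s.card = 2) : ∃ e : ℕ × ℕ, e.1 < e.2 ∧ s = pr e := by
  obtain ⟨a, b, hab, rfl⟩ := Finset.card_eq_two.1 h
  rcases lt_or_gt_of_ne hab with h1 | h1
  · exact ⟨(a, b), h1, rfl⟩
  · exact ⟨(b, a), h1, Finset.pair_comm a b⟩

theorem pr_card {e : ℕ × ℕ} (h : e.1 < e.2) : (pr e).card = 2 := Finset.card_pair h.ne

theorem pr_sub {e : ℕ × ℕ} {s : Finset ℕ} : pr e ⊆ s ↔ e.1 ∈ s ∧ e.2 ∈ s := by
  unfold pr
  rw [Finset.insert_subset_iff, Finset.singleton_subset_iff]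

theorem pr_inj {e f : ℕ × ℕ} (he : e.1 < e.2) (hf : f.1 < f.2) (h : pr e = pr f) : e = f := by
  have h1 : e.1 ∈ pr f := by
    rw [← h]
    exact Finset.mem_insert_self _ _
  have h2 : e.2 ∈ pr f := by
    rw [← h]
    exact Finset.mem_insert_of_mem (Finset.mem_singleton_self _)
  unfold pr at h1 h2
  rw [Finset.mem_insert, Finset.mem_singleton] at h1 h2
  apply Prod.ext <;> omega

theorem sub_of {U : List ℕ} {E : List (ℕ × ℕ)} (hEU : ∀ e ∈ E, e.1 ∈ U ∧ e.2 ∈ U) :
    ∀ p ∈ ps E, p ⊆ U.toFinset := by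
  intro p hp
  obtain ⟨e, he, rfl⟩ := mem_ps'.1 hp
  rw [pr_sub, List.mem_toFinset, List.mem_toFinset]
  exact hEU e he

theorem WF_filter {E : List (ℕ × ℕ)} (hE : WF E) (p : ℕ × ℕ → Bool) : WF (E.filter p) :=
  ⟨fun e he => hE.1 e (List.mem_filter.1 he).1, hE.2.filter _⟩

theorem ps_filter7 {E : List (ℕ × ℕ)} (hE : WF E) {e : ℕ × ℕ} (he : e ∈ E) :
    ps (E.filter (fun f => !decide (f = e))) = (ps E).erase (pr e) := by
  ext s
  rw [Finset.mem_erase, mem_ps', mem_ps']
  constructor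
  · rintro ⟨f, hf, rfl⟩
    rw [List.mem_filter] at hf
    refine ⟨?_, f, hf.1, rfl⟩
    intro h
    have := pr_inj (hE.1 f hf.1) (hE.1 e he) h
    simp [this] at hf
  · rintro ⟨hs, f, hf, rfl⟩
    refine ⟨f, List.mem_filter.2 ⟨hf, ?_⟩, rfl⟩
    have : f ≠ e := fun h => hs (by rw [h])
    simp [this]

end C7

open C7

theorem addK_spec {U : List ℕ} {E : List (ℕ × ℕ)} (hU : U.Nodup) (hE : WF E)
    (hEU : ∀ e ∈ E, e.1 ∈ U ∧ e.2 ∈ U) {P : List ℕ} (hP : ∀ x ∈ P, x ∈ U) :
    WF (addK U E P) ∧ (∀ e ∈ addK U E P, e.1 ∈ U ∧ e.2 ∈ U) ∧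
      ps (addK U E P) = ps E ∪ P.toFinset.powersetCard 2 := by
  have hmem : ∀ e : ℕ × ℕ, e ∈ addK U E P ↔
      (e.1 ∈ U ∧ e.2 ∈ U ∧ e.1 < e.2) ∧ (e ∈ E ∨ (e.1 ∈ P ∧ e.2 ∈ P)) := by
    intro e
    unfold addK
    rw [List.mem_filter, mem_allP]
    simp only [Bool.or_eq_true, Bool.and_eq_true, decide_eq_true_eq]
  refine ⟨⟨fun e he => ((hmem e).1 he).1.2.2, (allP_nodup hU).filter _⟩,
    fun e he => ⟨((hmem e).1 he).1.1, ((hmem e).1 he).1.2.1⟩, ?_⟩
  ext s
  rw [Finset.mem_union, Finset.mem_powersetCard, mem_ps', mem_ps']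
  constructor
  · rintro ⟨e, he, rfl⟩
    obtain ⟨⟨_, _, h3⟩, h4⟩ := (hmem e).1 he
    rcases h4 with h4 | h4
    · exact Or.inl ⟨e, h4, rfl⟩
    · right
      rw [pr_sub, List.mem_toFinset, List.mem_toFinset]
      exact ⟨h4, pr_card h3⟩
  · rintro (⟨e, he, rfl⟩ | ⟨h1, h2⟩)
    · exact ⟨e, (hmem e).2 ⟨⟨(hEU e he).1, (hEU e he).2, hE.1 e he⟩, Or.inl he⟩, rfl⟩
    · obtain ⟨e, he, rfl⟩ := pair_of_card h2
      rw [pr_sub, List.mem_toFinset, List.mem_toFinset] at h1
      exact ⟨e, (hmem e).2 ⟨⟨hP _ h1.1, hP _ h1.2, he⟩, Or.inr h1⟩, rfl⟩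

/-- the combinatorial form of global rigidity -/
def GR (U : Finset ℕ) (Γ : Finset (Finset ℕ)) : Prop :=
  (U.card ≤ 3 → Γ = U.powersetCard 2) ∧
    (4 ≤ U.card → (∀ X, ¬ Sepd U Γ X) ∧ Rig Γ U ∧ ∀ e ∈ Γ, Rig (Γ.erase e) U)

theorem grT_iff {U : List ℕ} {E : List (ℕ × ℕ)} (hU : U.Nodup) (hE : WF E)
    (hEU : ∀ e ∈ E, e.1 ∈ U ∧ e.2 ∈ U) : grT U E = true ↔ GR U.toFinset (ps E) := by
  have hc : U.toFinset.card = U.length := List.toFinset_card_of_nodup hU
  unfold grT GR
  rw [hc]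
  by_cases h3 : U.length ≤ 3
  · rw [if_pos h3, List.all_eq_true]
    simp only [decide_eq_true_eq]
    constructor
    · intro h
      refine ⟨fun _ => ?_, fun h4 => absurd h4 (by omega)⟩
      ext s
      rw [Finset.mem_powersetCard]
      constructor
      · intro hs
        exact ⟨sub_of hEU s hs, ps_pairs hE s hs⟩
      · rintro ⟨h1, h2⟩
        obtain ⟨e, he, rfl⟩ := pair_of_card h2
        rw [pr_sub, List.mem_toFinset, List.mem_toFinset] at h1
        exact (mem_ps hE he).2 (h e (mem_allP.2 ⟨h1.1, h1.2, he⟩))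
    · rintro ⟨h1, _⟩ e he
      rw [mem_allP] at he
      rw [← mem_ps hE he.2.2, h1 h3, Finset.mem_powersetCard, pr_sub, List.mem_toFinset,
        List.mem_toFinset]
      exact ⟨⟨he.1, he.2.1⟩, pr_card he.2.2⟩
  · rw [if_neg h3]
    simp only [Bool.and_eq_true, decide_eq_true_eq, List.isEmpty_iff, List.all_eq_true]
    have hrig : ∀ {F : List (ℕ × ℕ)}, WF F → (∀ e ∈ F, e.1 ∈ U ∧ e.2 ∈ U) →
        ((basL F).length + 3 = 2 * U.length ↔ Rig (ps F) U.toFinset) := by
      intro F hF hFU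
      rw [rig_iff_rk (ps_pairs hF) (sub_of hFU) (by omega), basL_length hF, hc]
    constructor
    · rintro ⟨h1, h2, h4⟩
      refine ⟨fun h => absurd h h3, fun _ => ⟨?_, (hrig hE hEU).1 h2, ?_⟩⟩
      · intro X hX
        obtain ⟨Y, hY, _⟩ := cands_complete hU hE hX
        rw [h1] at hY
        exact absurd hY (List.not_mem_nil)
      · intro s hs
        obtain ⟨e, he, rfl⟩ := mem_ps'.1 hs
        rw [← ps_filter7 hE he]
        exact (hrig (WF_filter hE _) (fun f hf => hEU f (List.mem_filter.1 hf).1)).1 (h4 e he)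
    · rintro ⟨_, h⟩
      obtain ⟨h1, h2, h4⟩ := h (by omega)
      refine ⟨?_, (hrig hE hEU).2 h2, ?_⟩
      · rw [List.eq_nil_iff_forall_not_mem]
        intro X hX
        exact h1 _ (cands_sound hU hE hX).2.2
      · intro e he
        rw [hrig (WF_filter hE _) (fun f hf => hEU f (List.mem_filter.1 hf).1), ps_filter7 hE he]
        exact h4 _ (mem_ps'.2 ⟨e, he, rfl⟩)

/-- small sets -/
theorem smallT_iff {U : List ℕ} {E : List (ℕ × ℕ)} (hU : U.Nodup) (hE : WF E)
    (hEU : ∀ e ∈ E, e.1 ∈ U ∧ e.2 ∈ U) (k : ℕ) : smallT U E k = true ↔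
      ∃ P ⊆ U.toFinset, P.card ≤ k ∧ P.card ≤ 3 ∧ GR U.toFinset (ps E ∪ P.powersetCard 2) := by
  have key : ∀ P : List ℕ, (∀ x ∈ P, x ∈ U) → (grT U (addK U E P) = true ↔
      GR U.toFinset (ps E ∪ P.toFinset.powersetCard 2)) := by
    intro P hP
    obtain ⟨h1, h2, h3⟩ := addK_spec hU hE hEU hP
    rw [grT_iff hU h1 h2, h3]
  unfold smallT
  simp only [Bool.or_eq_true, Bool.and_eq_true, decide_eq_true_eq, List.any_eq_true]
  constructor
  · rintro (h | ⟨hk, a, ha, b, hb, h⟩ | ⟨hk, a, ha, b, hb, c, hc, h⟩)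
    · refine ⟨∅, Finset.empty_subset _, by simp, by simp, ?_⟩
      have h0 : (∅ : Finset ℕ).powersetCard 2 = ∅ :=
        Finset.powersetCard_eq_empty.2 (by simp)
      rw [h0, Finset.union_empty]
      exact (grT_iff hU hE hEU).1 h
    · have hP : ∀ x ∈ [a, b], x ∈ U := by
        intro x hx
        simp only [List.mem_cons, List.not_mem_nil, or_false] at hx
        rcases hx with rfl | rfl <;> assumption
      have hlen := List.toFinset_card_le [a, b]
      simp only [List.length_cons, List.length_nil] at hlen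
      refine ⟨[a, b].toFinset, fun x hx => List.mem_toFinset.2 (hP x (List.mem_toFinset.1 hx)),
        by omega, by omega, (key _ hP).1 h⟩
    · have hP : ∀ x ∈ [a, b, c], x ∈ U := by
        intro x hx
        simp only [List.mem_cons, List.not_mem_nil, or_false] at hx
        rcases hx with rfl | rfl | rfl <;> assumption
      have hlen := List.toFinset_card_le [a, b, c]
      simp only [List.length_cons, List.length_nil] at hlen
      refine ⟨[a, b, c].toFinset, fun x hx => List.mem_toFinset.2 (hP x (List.mem_toFinset.1 hx)),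
        by omega, by omega, (key _ hP).1 h⟩
  · rintro ⟨P, hPU, hk, h3, h⟩
    have hPU' : ∀ x ∈ P, x ∈ U := fun x hx => List.mem_toFinset.1 (hPU hx)
    rcases Nat.lt_or_ge P.card 2 with h2 | h2
    · left
      rw [Finset.powersetCard_eq_empty.2 h2, Finset.union_empty] at h
      exact (grT_iff hU hE hEU).2 h
    · right
      rcases Nat.lt_or_ge P.card 3 with h4 | h4
      · left
        have h5 : P.card = 2 := by omega
        obtain ⟨a, b, _, rfl⟩ := Finset.card_eq_two.1 h5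
        have ha : a ∈ U := hPU' a (by simp)
        have hb : b ∈ U := hPU' b (by simp)
        refine ⟨by omega, a, ha, b, hb, ?_⟩
        rw [key]
        · have e : [a, b].toFinset = ({a, b} : Finset ℕ) := by ext x; simp
          rw [e]
          exact h
        · intro x hx
          simp only [List.mem_cons, List.not_mem_nil, or_false] at hx
          rcases hx with rfl | rfl <;> assumption
      · right
        have h5 : P.card = 3 := by omega
        obtain ⟨a, b, c, _, _, _, rfl⟩ := Finset.card_eq_three.1 h5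
        have ha : a ∈ U := hPU' a (by simp)
        have hb : b ∈ U := hPU' b (by simp)
        have hc : c ∈ U := hPU' c (by simp)
        refine ⟨by omega, a, ha, b, hb, c, hc, ?_⟩
        rw [key]
        · have e : [a, b, c].toFinset = ({a, b, c} : Finset ℕ) := by ext x; simp
          rw [e]
          exact h
        · intro x hx
          simp only [List.mem_cons, List.not_mem_nil, or_false] at hx
          rcases hx with rfl | rfl | rfl <;> assumption

end Pool.Agent.TH694.GP
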