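import Pool.Agent.TH694.GP.M3

/-!
# Globally rigid pinning, part M4A
(job 3694 of helper694, written by helper643)
-/

set_option autoImplicit false

namespace Pool.Agent.TH694.GP.M4

open Pool.Agent.H598R2.Cnt Pool.Agent.TH694.GP

variable {V : Type*} [DecidableEq V]

/-- the vertices of `B` in no other body -/
def priv (𝓑 : Finset (Finset V)) (B : Finset V) : Finset V :=
  B.filter (fun v => ∀ B' ∈ 𝓑, v ∈ B' → B' = B)

theorem priv_subset (𝓑 : Finset (Finset V)) (B : Finset V) : priv 𝓑 B ⊆ B :=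
  Finset.filter_subset _ _

theorem vsm {S : Finset (Finset V)} {v : V} : v ∈ vs S ↔ ∃ p ∈ S, v ∈ p := by
  unfold vs
  simp only [Finset.mem_biUnion, id]

theorem bdm {Γ : Finset (Finset V)} {B : Finset V} :
    B ∈ bodies Γ ↔ ∃ e ∈ Γ, vs (cmp Γ e) = B := by
  classical
  unfold bodies
  rw [Finset.mem_image]

theorem sub_vs_cmp {Γ : Finset (Finset V)} {e : Finset V} (he : e ∈ Γ) : e ⊆ vs (cmp Γ e) :=
  fun _ hv => vsm.2 ⟨e, mem_cmp_self he, hv⟩

/-- the total weight of the bodies -/
theorem sum_bodies {U : Finset V} {H : Finset (Finset V)} (hH : Pairs H) (hU : ∀ p ∈ H, p ⊆ U) :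
    ∑ B ∈ bodies H, (2 * B.card - 3) = rk H := by
  classical
  have hB := bodies_spec hH hU
  have h1 := bb_bodies hH U
  have h2 : H.filter (fun e => (vs (cmp H e) ∩ U).Nonempty) = H := by
    apply Finset.filter_true_of_mem
    intro e he
    have h3 : e.card = 2 := hH e he
    obtain ⟨v, hv⟩ : e.Nonempty := Finset.card_pos.1 (by omega)
    exact ⟨v, Finset.mem_inter.2 ⟨sub_vs_cmp he hv, hU e he hv⟩⟩
  have h3 : (bodies H).filter (fun B => (B ∩ U).Nonempty) = bodies H := by
    apply Finset.filter_true_of_mem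
    intro B hBm
    have h4 := hB.two B hBm
    obtain ⟨v, hv⟩ : B.Nonempty := Finset.card_pos.1 (by omega)
    exact ⟨v, Finset.mem_inter.2 ⟨hv, hB.subU B hBm hv⟩⟩
  unfold bb at h1
  rw [h2, h3] at h1
  exact h1

/-- a component with two vertices is a coloop -/
theorem three_le {U : Finset V} {H : Finset (Finset V)} (hH : Pairs H) (hU : ∀ p ∈ H, p ⊆ U)
    (h4 : 4 ≤ U.card) (hr : Rig H U) (hrr : ∀ e ∈ H, Rig (H.erase e) U) {B : Finset V}
    (hB : B ∈ bodies H) : 3 ≤ B.card := by
  classical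
  have hsp := bodies_spec hH hU
  have h2 := hsp.two B hB
  by_contra hcon
  have hB2 : B.card = 2 := by omega
  obtain ⟨g, hg, rfl⟩ := bdm.1 hB
  have h1 : ∀ p ∈ cmp H g, p = vs (cmp H g) := by
    intro p hp
    have hpH : p ∈ H := cmp_subset H g hp
    apply Finset.eq_of_subset_of_card_le
    · intro v hv
      exact vsm.2 ⟨p, hp, hv⟩
    · rw [hB2, hH p hpH]
  have h3 : cmp H g = {g} := by
    apply Finset.Subset.antisymm
    · intro p hp
      rw [Finset.mem_singleton, h1 p hp, ← h1 g (mem_cmp_self hg)]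
    · intro p hp
      rw [Finset.mem_singleton] at hp
      rw [hp]
      exact mem_cmp_self hg
  have h5 := (sepr_cmp hH hg).2
  rw [h3, rk_singleton (hH g hg), Finset.sdiff_singleton_eq_erase] at h5
  have h6 := (rig_iff_rk hH hU (by omega)).1 hr
  have hHe : Pairs (H.erase g) := fun p hp => hH p (Finset.mem_of_mem_erase hp)
  have h7 := (rig_iff_rk hHe (fun p hp => hU p (Finset.mem_of_mem_erase hp)) (by omega)).1
    (hrr g hg)
  omega

/-- the private vertices of a body are separated by the others -/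
theorem three_le_sdiff {U : Finset V} {H : Finset (Finset V)} (hH : Pairs H)
    (hU : ∀ p ∈ H, p ⊆ U) (h4 : 4 ≤ U.card) (hc : ∀ X, ¬ Sepd U H X) (hr : Rig H U)
    (hrr : ∀ e ∈ H, Rig (H.erase e) U) (h2 : ∀ B ∈ bodies H, ∃ B' ∈ bodies H, B' ≠ B)
    {B : Finset V} (hB : B ∈ bodies H) : 3 ≤ (B \ priv (bodies H) B).card := by
  classical
  have hsp := bodies_spec hH hU
  have h3 := three_le hH hU h4 hr hrr hB
  rcases (priv (bodies H) B).eq_empty_or_nonempty with hX | hX
  · rw [hX, Finset.sdiff_empty]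
    exact h3
  have hN : Nb U H (priv (bodies H) B) ⊆ B \ priv (bodies H) B := by
    intro v hv
    obtain ⟨_, g2, x, hx, g3⟩ := mem_Nb.1 hv
    obtain ⟨B', hB', g4⟩ := hsp.cover _ g3
    unfold priv at hx
    rw [Finset.mem_filter] at hx
    have g5 : B' = B := hx.2 B' hB' (g4 (by simp))
    rw [g5] at g4
    exact Finset.mem_sdiff.2 ⟨g4 (by simp), g2⟩
  have hcX := hc (priv (bodies H) B)
  by_cases hc3 : (Nb U H (priv (bodies H) B)).card ≤ 2
  · exfalso
    have hun : priv (bodies H) B ∪ Nb U H (priv (bodies H) B) = U := by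
      by_contra hne
      exact hcX ⟨(priv_subset _ _).trans (hsp.subU B hB), hX, hc3, hne⟩
    have hUB : U ⊆ B := by
      rw [← hun]
      exact Finset.union_subset (priv_subset _ _) (hN.trans Finset.sdiff_subset)
    have hBU : B = U := Finset.Subset.antisymm (hsp.subU B hB) hUB
    obtain ⟨B', hB', hne⟩ := h2 B hB
    have h5 : ∑ C ∈ ({B, B'} : Finset (Finset V)), (2 * C.card - 3) ≤
        ∑ C ∈ bodies H, (2 * C.card - 3) := by
      apply Finset.sum_le_sum_of_subset
      intro C hC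
      rw [Finset.mem_insert, Finset.mem_singleton] at hC
      rcases hC with rfl | rfl
      · exact hB
      · exact hB'
    rw [Finset.sum_pair hne.symm, sum_bodies hH hU, hBU] at h5
    have h6 := (rig_iff_rk hH hU (by omega)).1 hr
    have h7 := hsp.two B' hB'
    omega
  · have := Finset.card_le_card hN
    omega

/-- (Jackson and Jordan) a redundantly rigid graph without small separations has a connected rigidity
matroid -/
theorem no_sepr {U : Finset V} {H : Finset (Finset V)} (hH : Pairs H) (hU : ∀ p ∈ H, p ⊆ U)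
    (h4 : 4 ≤ U.card) (hc : ∀ X, ¬ Sepd U H X) (hr : Rig H U) (hrr : ∀ e ∈ H, Rig (H.erase e) U)
    {S : Finset (Finset V)} (hS : Sepr H S) : S = ∅ ∨ S = H := by
  classical
  by_contra hcon
  rw [not_or] at hcon
  obtain ⟨e, he⟩ := Finset.nonempty_iff_ne_empty.2 hcon.1
  have heH : e ∈ H := hS.1 he
  obtain ⟨f, hfH, hf⟩ : ∃ f ∈ H, f ∉ S := by
    by_contra hn
    push Not at hn
    exact hcon.2 (Finset.Subset.antisymm hS.1 hn)
  have hsp := bodies_spec hH hU
  have hcmp : vs (cmp H e) ≠ vs (cmp H f) := by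
    intro h
    have h1 := cmp_eq_of_vs hH heH hfH h
    have h2 := cmp_subset_of_sepr hS he
    rw [h1] at h2
    exact hf (h2 (mem_cmp_self hfH))
  have h2 : ∀ B ∈ bodies H, ∃ B' ∈ bodies H, B' ≠ B := by
    intro B _
    by_cases hBe : vs (cmp H e) = B
    · exact ⟨vs (cmp H f), bdm.2 ⟨f, hfH, rfl⟩, fun h => hcmp (hBe.trans h.symm)⟩
    · exact ⟨vs (cmp H e), bdm.2 ⟨e, heH, rfl⟩, hBe⟩
  have h3 : ∀ B ∈ bodies H, B.card + (priv (bodies H) B).card ≤ 2 * B.card - 3 := by
    intro B hB
    have g1 := three_le_sdiff hH hU h4 hc hr hrr h2 hB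
    have g2 := Finset.card_sdiff_add_card_eq_card (priv_subset (bodies H) B)
    omega
  have hcov : ∀ v ∈ U, ∃ B ∈ bodies H, v ∈ B := by
    intro v hv
    by_contra hn
    push Not at hn
    have hN : Nb U H {v} = ∅ := by
      rw [Finset.eq_empty_iff_forall_notMem]
      intro x hx
      obtain ⟨_, _, y, hy, g3⟩ := mem_Nb.1 hx
      rw [Finset.mem_singleton] at hy
      obtain ⟨B', hB', g4⟩ := hsp.cover _ g3
      exact hn B' hB' (g4 (by simp [hy]))
    refine hc {v} ⟨by simpa using hv, Finset.singleton_nonempty v, by rw [hN]; simp, ?_⟩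
    intro h
    rw [hN, Finset.union_empty] at h
    rw [← h, Finset.card_singleton] at h4
    omega
  have h5 : 2 * U.card ≤ ∑ B ∈ bodies H, (B.card + (priv (bodies H) B).card) := by
    have e1 : ∀ B ∈ bodies H, B.card + (priv (bodies H) B).card =
        ∑ v ∈ U, ((if v ∈ B then 1 else 0) + (if v ∈ priv (bodies H) B then 1 else 0)) := by
      intro B hB
      rw [Finset.sum_add_distrib, ← Finset.card_filter, ← Finset.card_filter]
      congr 2
      · ext v
        rw [Finset.mem_filter]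
        exact ⟨fun h => ⟨hsp.subU B hB h, h⟩, fun h => h.2⟩
      · ext v
        rw [Finset.mem_filter]
        exact ⟨fun h => ⟨hsp.subU B hB (priv_subset _ _ h), h⟩, fun h => h.2⟩
    rw [Finset.sum_congr rfl e1, Finset.sum_comm, mul_comm, ← smul_eq_mul]
    apply Finset.card_nsmul_le_sum
    intro v hv
    obtain ⟨B, hB, hvB⟩ := hcov v hv
    by_cases hp : v ∈ priv (bodies H) B
    · refine le_trans ?_ (Finset.single_le_sum (f := fun B => (if v ∈ B then 1 else 0) +
        (if v ∈ priv (bodies H) B then 1 else 0)) (fun _ _ => Nat.zero_le _) hB)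
      simp only [hvB, hp, if_true]
      norm_num
    · obtain ⟨B', hB', hvB', hne⟩ : ∃ B' ∈ bodies H, v ∈ B' ∧ B' ≠ B := by
        by_contra hn
        push Not at hn
        exact hp (Finset.mem_filter.2 ⟨hvB, hn⟩)
      have g1 : ∑ C ∈ ({B, B'} : Finset (Finset V)), ((if v ∈ C then 1 else 0) +
          (if v ∈ priv (bodies H) C then 1 else 0)) ≤
          ∑ C ∈ bodies H, ((if v ∈ C then 1 else 0) +
          (if v ∈ priv (bodies H) C then 1 else 0)) := by
        apply Finset.sum_le_sum_of_subset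
        intro C hC
        rw [Finset.mem_insert, Finset.mem_singleton] at hC
        rcases hC with rfl | rfl
        · exact hB
        · exact hB'
      refine le_trans ?_ g1
      rw [Finset.sum_pair hne.symm, if_pos hvB, if_pos hvB']
      omega
  have h6 := Finset.sum_le_sum h3
  rw [sum_bodies hH hU] at h6
  have h7 := (rig_iff_rk hH hU (by omega)).1 hr
  omega

theorem claimA {U : Finset V} {Γ : Finset (Finset V)} {P : Finset V} (hΓ : Pairs Γ)
    (hU : ∀ p ∈ Γ, p ⊆ U) (hP : P ⊆ U) (h4 : 4 ≤ P.card)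
    (hc : ∀ X, ¬ Sepd U (Γ ∪ P.powersetCard 2) X) (hr : Rig (Γ ∪ P.powersetCard 2) U)
    (hrr : ∀ e ∈ Γ ∪ P.powersetCard 2, Rig ((Γ ∪ P.powersetCard 2).erase e) U) :
    Val (bodies Γ) (U \ P) := by
  classical
  intro Z hZ hZn
  by_contra hcon
  have hbZ : bb (bodies Γ) Z ≤ 2 * Z.card := by omega
  have hH : Pairs (Γ ∪ P.powersetCard 2) := by
    intro p hp
    rcases Finset.mem_union.1 hp with h | h
    · exact hΓ p h
    · exact (Finset.mem_powersetCard.1 h).2
  have hHU : ∀ p ∈ Γ ∪ P.powersetCard 2, p ⊆ U := by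
    intro p hp
    rcases Finset.mem_union.1 hp with h | h
    · exact hU p h
    · exact (Finset.mem_powersetCard.1 h).1.trans hP
  have h4U : 4 ≤ U.card := h4.trans (Finset.card_le_card hP)
  obtain ⟨D, hD⟩ : ∃ D, D = Γ.filter (fun e => (vs (cmp Γ e) ∩ Z).Nonempty) := ⟨_, rfl⟩
  have hDr : bb (bodies Γ) Z = rk D := by rw [hD]; exact bb_bodies hΓ Z
  have hDH : D ⊆ Γ ∪ P.powersetCard 2 := by
    rw [hD]
    exact (Finset.filter_subset _ _).trans Finset.subset_union_left
  have hZP : ∀ z ∈ Z, z ∈ U ∧ z ∉ P := fun z hz => Finset.mem_sdiff.1 (hZ hz)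
  have hmem : ∀ p ∈ Γ ∪ P.powersetCard 2, ∀ z ∈ Z, z ∈ p → p ∈ D := by
    intro p hp z hz hzp
    rcases Finset.mem_union.1 hp with h | h
    · rw [hD, Finset.mem_filter]
      exact ⟨h, z, Finset.mem_inter.2 ⟨sub_vs_cmp h hzp, hz⟩⟩
    · exact absurd ((Finset.mem_powersetCard.1 h).1 hzp) (hZP z hz).2
  have hZU : Z ⊆ U := fun z hz => (hZP z hz).1
  have hcard : (U \ Z).card + Z.card = U.card := Finset.card_sdiff_add_card_eq_card hZU
  have hPZ : P ⊆ U \ Z := by
    intro v hv
    exact Finset.mem_sdiff.2 ⟨hP hv, fun hvZ => (hZP v hvZ).2 hv⟩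
  have hPZc := Finset.card_le_card hPZ
  have h1 : rk ((Γ ∪ P.powersetCard 2) \ D) + 3 ≤ 2 * (U \ Z).card := by
    apply rk_le_of_sub
    · intro p hp
      exact hH p (Finset.mem_sdiff.1 hp).1
    · intro p hp z hzp
      obtain ⟨g1, g2⟩ := Finset.mem_sdiff.1 hp
      exact Finset.mem_sdiff.2 ⟨hHU p g1 hzp, fun hz => g2 (hmem p g1 z hz hzp)⟩
    · omega
  have h2 := (rig_iff_rk hH hHU (by omega)).1 hr
  have h3 := rk_union_le D ((Γ ∪ P.powersetCard 2) \ D)
  rw [Finset.union_sdiff_of_subset hDH] at h3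
  have hsep : Sepr (Γ ∪ P.powersetCard 2) D := ⟨hDH, by omega⟩
  rcases no_sepr hH hHU h4U hc hr hrr hsep with h | h
  · obtain ⟨z, hz⟩ := hZn
    have hN : Nb U (Γ ∪ P.powersetCard 2) {z} = ∅ := by
      rw [Finset.eq_empty_iff_forall_notMem]
      intro x hx
      obtain ⟨_, _, y, hy, g3⟩ := mem_Nb.1 hx
      rw [Finset.mem_singleton] at hy
      have := hmem _ g3 z hz (by simp [hy])
      rw [h] at this
      exact absurd this (Finset.notMem_empty _)
    refine hc {z} ⟨by simpa using (hZP z hz).1, Finset.singleton_nonempty z,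
      by rw [hN]; simp, ?_⟩
    intro hh
    rw [hN, Finset.union_empty] at hh
    rw [← hh, Finset.card_singleton] at h4U
    omega
  · rw [h] at hDr
    omega

end Pool.Agent.TH694.GP.M4
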