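import Pool.Agent.TH694.GP.Opt
import Pool.Agent.TH694.GP.C2
import Pool.Agent.TH694.GP.C3
import Pool.Agent.TH694.GP.C4
import Pool.Agent.TH694.GP.C5
import Pool.Agent.TH694.GP.C7
import Pool.Agent.TH694.GP.M4A
import Pool.Agent.TH554.GP.ClaimB
import Pool.Agent.TH554.GP.HitL

/-!
# Correctness of the algorithm
-/

set_option autoImplicit false

namespace Pool.Agent.TH694.GP

open Pool.Agent Pool.Agent.NPC Pool.Agent.H598R2.Cnt Pool.Agent.H632R2.Cogirth
  Pool.Agent.H442R3.MPar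

/-- global rigidity and feasible sets -/
theorem gr_iff_feas {U : Finset ℕ} {Γ : Finset (Finset ℕ)} (hΓ : Pairs Γ)
    (hU : ∀ p ∈ Γ, p ⊆ U) {P : Finset ℕ} (hP : P ⊆ U) (h4 : 4 ≤ P.card) :
    GR U (Γ ∪ P.powersetCard 2) ↔ Feas U Γ (bodies Γ) P := by
  have hU4 : 4 ≤ U.card := h4.trans (Finset.card_le_card hP)
  constructor
  · intro h
    obtain ⟨h1, h2, h3⟩ := h.2 hU4
    exact ⟨hP, h4, M4.claimA hΓ hU hP h4 h1 h2 h3, (claim_hit hU hP).1 h1⟩
  · rintro ⟨-, -, h1, h2⟩
    refine ⟨fun h => absurd h (by omega), fun _ => ⟨(claim_hit hU hP).2 h2, ?_⟩⟩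
    exact claimB hΓ hU hP h4 h1

section

variable {U : List ℕ} {E : List (ℕ × ℕ)}

theorem val_iff (hE : WF E) (Q : Finset ℕ) : Val (bodies (ps E)) Q ↔
    ∀ Z ⊆ Q, Z.Nonempty → 2 * Z.card + 1 ≤ ((Finset.range (bodL E).length).filter
      (fun i => ∃ z ∈ Z, z ∈ (bodL E).getD i [])).card := by
  unfold Val
  refine forall_congr' fun Z => forall_congr' fun _ => forall_congr' fun _ => ?_
  rw [bb_bodL hE]

theorem nuV_eq_length (hE : WF E) {X : List ℕ} (hX : X.Nodup) :
    nuV (bodL E) X = X.length ↔ Val (bodies (ps E)) X.toFinset := by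
  obtain ⟨⟨Q, h1, h2, h3⟩, h4⟩ := nuV_spec (bodL E) hX
  constructor
  · intro h
    have h5 : Q = X.toFinset := by
      apply Finset.eq_of_subset_of_card_le h1
      rw [h3, h, List.toFinset_card_of_nodup hX]
    rw [← h5, val_iff hE]
    exact h2
  · intro h
    apply le_antisymm
    · rw [← h3, ← List.toFinset_card_of_nodup hX]
      exact Finset.card_le_card h1
    · exact h4 ⟨X.toFinset, le_rfl, (val_iff hE _).1 h, List.toFinset_card_of_nodup hX⟩

theorem okX_iff (hE : WF E) {F X : List ℕ} (hX : X.Nodup) : okX (bodL E) F X = true ↔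
    Disjoint X.toFinset F.toFinset ∧ Val (bodies (ps E)) X.toFinset := by
  unfold okX
  rw [Bool.and_eq_true, decide_eq_true_eq, nuV_eq_length hE hX, List.all_eq_true,
    Finset.disjoint_left]
  simp

/-- no candidate can be picked -/
def Done (L C : List (List ℕ)) (F : List ℕ) : Prop := ∀ X ∈ C, okX L F X = false

theorem stepF_done {L C : List (List ℕ)} {F : List ℕ} (h : Done L C F) : stepF L C F = F := by
  have h1 : C.filter (fun X => okX L F X) = [] := by
    rw [List.filter_eq_nil_iff]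
    intro X hX
    simp [h X hX]
  unfold stepF
  rw [h1]
  simp

theorem stepF_not_done {L C : List (List ℕ)} {F : List ℕ} (h : ¬ Done L C F) :
    ∃ X ∈ C, okX L F X = true ∧ (∀ Y ∈ C, okX L F Y = true → X.length ≤ Y.length) ∧
      stepF L C F = X.take 1 ++ F := by
  unfold stepF
  set D := C.filter (fun X => okX L F X) with hD
  have hne : D ≠ [] := by
    intro h0
    apply h
    intro X hX
    rw [List.filter_eq_nil_iff] at h0
    simpa using h0 X hX
  obtain ⟨m, hm1⟩ := List.exists_mem_of_ne_nil D hne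
  obtain ⟨X₀, hX₀, hmin⟩ : ∃ X ∈ D, ∀ Y ∈ D, X.length ≤ Y.length := by
    obtain ⟨X, hX, h1⟩ := Finset.exists_min_image D.toFinset List.length ⟨m, by simpa using hm1⟩
    exact ⟨X, by simpa using hX, fun Y hY => h1 Y (by simpa using hY)⟩
  cases hh : (D.filter (fun X => D.all (fun Y => decide (X.length ≤ Y.length)))).head? with
  | none =>
    rw [List.head?_eq_none_iff, List.filter_eq_nil_iff] at hh
    exfalso
    apply hh X₀ hX₀
    rw [List.all_eq_true]
    intro Y hY
    simpa using hmin Y hY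
  | some X =>
    have hX := List.mem_of_mem_head? (by rw [hh]; rfl : X ∈ (D.filter (fun X => D.all (fun Y => decide (X.length ≤ Y.length)))).head?)
    rw [List.mem_filter, List.all_eq_true] at hX
    obtain ⟨hXD, hXm⟩ := hX
    rw [hD, List.mem_filter] at hXD
    refine ⟨X, hXD.1, hXD.2, fun Y hY hok => ?_, rfl⟩
    have := hXm Y (by rw [hD, List.mem_filter]; exact ⟨hY, hok⟩)
    simpa using this

theorem ps_sub (hEU : ∀ e ∈ E, e.1 ∈ U ∧ e.2 ∈ U) : ∀ p ∈ ps E, p ⊆ U.toFinset := by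
  intro p hp
  rw [ps, List.mem_toFinset, List.mem_map] at hp
  obtain ⟨e, he, rfl⟩ := hp
  intro x hx
  rw [Finset.mem_insert, Finset.mem_singleton] at hx
  rw [List.mem_toFinset]
  rcases hx with rfl | rfl
  · exact (hEU e he).1
  · exact (hEU e he).2

/-- the invariant of the loop -/
theorem loop_inv (hU : U.Nodup) (hE : WF E) (hEU : ∀ e ∈ E, e.1 ∈ U ∧ e.2 ∈ U) (j : ℕ) :
    ((stepF (bodL E) (cands U E))^[j] []).toFinset ⊆ U.toFinset ∧
    (∀ k, (∃ P, Feas U.toFinset (ps E) (bodies (ps E)) P ∧ P.card ≤ k) →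
      ∃ P, ((stepF (bodL E) (cands U E))^[j] []).toFinset ⊆ P ∧
        Feas U.toFinset (ps E) (bodies (ps E)) P ∧ P.card ≤ k) ∧
    (Done (bodL E) (cands U E) ((stepF (bodL E) (cands U E))^[j] []) ∨
      j ≤ ((stepF (bodL E) (cands U E))^[j] []).toFinset.card) := by
  have hB := bodies_spec (ps_pairs hE) (ps_sub hEU)
  induction j with
  | zero =>
    refine ⟨by simp, ?_, Or.inr (Nat.zero_le _)⟩
    rintro k ⟨P, h1, h2⟩
    exact ⟨P, by simp, h1, h2⟩
  | succ j ih =>
    rw [Function.iterate_succ_apply']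
    set F := (stepF (bodL E) (cands U E))^[j] [] with hF
    obtain ⟨ih1, ih2, ih3⟩ := ih
    by_cases hd : Done (bodL E) (cands U E) F
    · rw [stepF_done hd]
      exact ⟨ih1, ih2, Or.inl hd⟩
    · obtain ⟨X, hX, hok, hmin, hst⟩ := stepF_not_done hd
      have hj : j ≤ F.toFinset.card := ih3.resolve_left hd
      obtain ⟨hXn, hXne, hXs⟩ := cands_sound hU hE hX
      rw [okX_iff hE hXn] at hok
      obtain ⟨r, X', rfl⟩ := List.exists_cons_of_ne_nil hXne
      have hst' : stepF (bodL E) (cands U E) F = r :: F := by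
        rw [hst]
        simp
      rw [hst', List.toFinset_cons]
      have hrX : r ∈ (r :: X').toFinset := by simp
      have hrF : r ∉ F.toFinset := Finset.disjoint_left.1 hok.1 hrX
      refine ⟨Finset.insert_subset (hXs.1 hrX) ih1, ?_, Or.inr ?_⟩
      · intro k hk
        refine feas_step hB hXs ?_ hok.2 hok.1 hrX (ih2 k hk)
        intro Y hY hYs
        obtain ⟨Z, hZ, hZY⟩ := cands_complete hU hE hYs
        obtain ⟨hZn, hZne, hZs⟩ := cands_sound hU hE hZ
        have hZX : Z.toFinset ⊂ (r :: X').toFinset := lt_of_le_of_lt hZY hY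
        have h1 := hmin Z hZ ((okX_iff hE hZn).2
          ⟨Finset.disjoint_of_subset_left hZX.subset hok.1, hok.2.mono hZX.subset⟩)
        have h2 := Finset.card_lt_card hZX
        rw [List.toFinset_card_of_nodup hZn, List.toFinset_card_of_nodup hXn] at h2
        omega
      · rw [Finset.card_insert_of_notMem hrF]
        omega

theorem finF_done (hU : U.Nodup) (hE : WF E) (hEU : ∀ e ∈ E, e.1 ∈ U ∧ e.2 ∈ U) :
    Done (bodL E) (cands U E) (finF U (bodL E) (cands U E)) := by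
  obtain ⟨h1, -, h2 | h2⟩ := loop_inv hU hE hEU U.length
  · exact h2
  · change Done _ _ ((stepF (bodL E) (cands U E))^[U.length] [])
    set F := (stepF (bodL E) (cands U E))^[U.length] []
    have h3 : F.toFinset = U.toFinset :=
      Finset.eq_of_subset_of_card_le h1 (by rwa [List.toFinset_card_of_nodup hU])
    intro X hX
    obtain ⟨hXn, hXne, hXs⟩ := cands_sound hU hE hX
    by_contra h
    rw [Bool.not_eq_false, okX_iff hE hXn, h3] at h
    obtain ⟨x, hx⟩ := hXs.2.1
    exact Finset.disjoint_left.1 h.1 hx (hXs.1 hx)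

theorem bigOpt_iff (hU : U.Nodup) (hE : WF E) (hEU : ∀ e ∈ E, e.1 ∈ U ∧ e.2 ∈ U)
    (h4 : 4 ≤ U.length) (k : ℕ) : bigOpt U E ≤ k ↔
      ∃ P, Feas U.toFinset (ps E) (bodies (ps E)) P ∧ P.card ≤ k := by
  obtain ⟨hFU, hinv, -⟩ := loop_inv hU hE hEU U.length
  have hdone := finF_done hU hE hEU
  change (finF U (bodL E) (cands U E)).toFinset ⊆ U.toFinset at hFU
  change ∀ k, (∃ P, Feas U.toFinset (ps E) (bodies (ps E)) P ∧ P.card ≤ k) →
      ∃ P, (finF U (bodL E) (cands U E)).toFinset ⊆ P ∧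
        Feas U.toFinset (ps E) (bodies (ps E)) P ∧ P.card ≤ k at hinv
  unfold bigOpt
  set F := finF U (bodL E) (cands U E)
  have hend : ∀ X, Sepd U.toFinset (ps E) X → Disjoint X F.toFinset →
      ¬ Val (bodies (ps E)) X := by
    intro X hX hd hV
    obtain ⟨Y, hY, hYX⟩ := cands_complete hU hE hX
    obtain ⟨hYn, -, -⟩ := cands_sound hU hE hY
    have h1 := hdone Y hY
    rw [← Bool.not_eq_true, okX_iff hE hYn] at h1
    exact h1 ⟨Finset.disjoint_of_subset_left hYX hd, hV.mono hYX⟩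
  have h1 : (∃ P, Feas U.toFinset (ps E) (bodies (ps E)) P ∧ P.card ≤ k) ↔
      ∃ P, F.toFinset ⊆ P ∧ Feas U.toFinset (ps E) (bodies (ps E)) P ∧ P.card ≤ k :=
    ⟨hinv k, fun ⟨P, _, h⟩ => ⟨P, h⟩⟩
  rw [h1, feas_end hFU hend]
  have hWn : (U.filter (fun v => !decide (v ∈ F))).Nodup := hU.filter _
  have hWf : (U.filter (fun v => !decide (v ∈ F))).toFinset = U.toFinset \ F.toFinset := by
    ext v
    simp
  obtain ⟨⟨Q, g1, g2, g3⟩, g4⟩ := nuV_spec (bodL E) hWn
  have hUc : U.toFinset.card = U.length := List.toFinset_card_of_nodup hU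
  rw [hUc]
  constructor
  · intro h
    have h5 := (le_max_left _ _).trans h
    have h6 := (le_max_right _ _).trans h
    refine ⟨h5, h4, Q, by rw [← hWf]; exact g1, (val_iff hE _).2 g2, ?_⟩
    rw [g3]
    omega
  · rintro ⟨h5, -, Q', h6, h7, h8⟩
    have h9 := g4 ⟨Q', by rw [hWf]; exact h6, (val_iff hE _).1 h7, rfl⟩
    apply max_le h5
    omega

/-- **Correctness of the algorithm.** -/
theorem dec_iff (hU : U.Nodup) (hE : WF E) (hEU : ∀ e ∈ E, e.1 ∈ U ∧ e.2 ∈ U) (k : ℕ) :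
    (smallT U E k || (decide (4 ≤ U.length) && decide (bigOpt U E ≤ k))) = true ↔
      ∃ P ⊆ U.toFinset, P.card ≤ k ∧ GR U.toFinset (ps E ∪ P.powersetCard 2) := by
  rw [Bool.or_eq_true, Bool.and_eq_true, decide_eq_true_eq, decide_eq_true_eq,
    smallT_iff hU hE hEU]
  constructor
  · rintro (⟨P, h1, h2, -, h3⟩ | ⟨h4, h5⟩)
    · exact ⟨P, h1, h2, h3⟩
    · obtain ⟨P, h6, h7⟩ := (bigOpt_iff hU hE hEU h4 k).1 h5
      exact ⟨P, h6.1, h7, (gr_iff_feas (ps_pairs hE) (ps_sub hEU) h6.1 h6.2.1).2 h6⟩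
  · rintro ⟨P, h1, h2, h3⟩
    by_cases h4 : P.card ≤ 3
    · exact Or.inl ⟨P, h1, h2, h4, h3⟩
    · have h5 : 4 ≤ P.card := by omega
      have h6 : 4 ≤ U.length := by
        rw [← List.toFinset_card_of_nodup hU]
        exact h5.trans (Finset.card_le_card h1)
      exact Or.inr ⟨h6, (bigOpt_iff hU hE hEU h6 k).2
        ⟨P, (gr_iff_feas (ps_pairs hE) (ps_sub hEU) h1 h5).1 h3, h2⟩⟩

end

end Pool.Agent.TH694.GP
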