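import Pool.Agent.TH694.GP.Defs
import Pool.Agent.H632R2.Cogirth
import Pool.Agent.H442R3.MPar.Main
import Pool.Agent.NPC.Dec
import Pool.Agent.H671R2.PolyAuto
import Pool.Agent.H601R2.PP

/-!
# Globally rigid pinning: the algorithm (definitions only)

Edges are pairs `(a, b)` of natural numbers with `a < b`; `ps E` is the set of the corresponding
two-element sets.
-/

set_option autoImplicit false

namespace Pool.Agent.TH694.GP

open Pool.Agent Pool.Agent.NPC Pool.Agent.H598R2.Cnt Pool.Agent.H632R2.Cogirth
  Pool.Agent.H442R3.MPar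

/-- well-formed edge lists -/
def WF (E : List (ℕ × ℕ)) : Prop := (∀ e ∈ E, e.1 < e.2) ∧ E.Nodup

/-- the two-element set of an edge -/
def pr (e : ℕ × ℕ) : Finset ℕ := {e.1, e.2}

/-- the hypergraph for the test of sparsity -/
def hyp (E : List (ℕ × ℕ)) (e₀ : ℕ × ℕ) : List (List ℕ × List ℕ) :=
  (e₀ :: e₀ :: E).zipIdx.map (fun q =>
    ([4 * q.1.1, 4 * q.1.1 + 1, 4 * q.1.2, 4 * q.1.2 + 1], [4 * q.2 + 2, 4 * q.2 + 3]))

/-- test of sparsity -/
def spT (E : List (ℕ × ℕ)) : Bool := E.all (fun e₀ => decide (nuF (hyp E e₀) = (hyp E e₀).length))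

/-- a greedy basis -/
def basL (E : List (ℕ × ℕ)) : List (ℕ × ℕ) :=
  E.foldl (fun I e => if spT (e :: I) then e :: I else I) []

/-- `I - f + e` is sparse -/
def exch (I : List (ℕ × ℕ)) (e f : ℕ × ℕ) : Bool :=
  !decide (e ∈ I) && (decide (f ∈ I) && spT (e :: I.filter (fun g => !decide (g = f))))

/-- the symmetric exchange relation -/
def rel (I : List (ℕ × ℕ)) (e f : ℕ × ℕ) : Bool := exch I e f || exch I f e

/-- the closure of `S` in `U` under the relation `R` -/
def clos {β : Type} [DecidableEq β] (U : List β) (R : β → β → Bool) (S : List β) : List β :=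
  (fun T => U.filter (fun x => decide (x ∈ T) || T.any (fun y => R y x)))^[U.length]
    (U.filter (fun x => decide (x ∈ S)))

/-- the component of the edge `e` -/
def compL (E : List (ℕ × ℕ)) (e : ℕ × ℕ) : List (ℕ × ℕ) := clos E (rel (basL E)) [e]

/-- the vertices of a list of edges -/
def vlt (S : List (ℕ × ℕ)) : List ℕ := S.flatMap (fun e => [e.1, e.2])

/-- for every edge of the basis the list of the vertices of its component -/
def bodL (E : List (ℕ × ℕ)) : List (List ℕ) := (basL E).map (fun f => vlt (compL E f))

/-- the indices of the members of `L` which contain `v` -/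
def hv (L : List (List ℕ)) (v : ℕ) : List ℕ :=
  (L.zipIdx.filter (fun q => decide (v ∈ q.1))).map (fun q => q.2)

/-- the largest size of a valid subset of `W` -/
def nuV (L : List (List ℕ)) (W : List ℕ) : ℕ := nuF (W.map (fun v => (hv L v, hv L v)))

/-- adjacency -/
def adjL (E : List (ℕ × ℕ)) (x y : ℕ) : Bool := decide ((x, y) ∈ E) || decide ((y, x) ∈ E)

/-- the neighbours of `X` -/
def nbL (U : List ℕ) (E : List (ℕ × ℕ)) (X : List ℕ) : List ℕ :=
  U.filter (fun v => !decide (v ∈ X) && X.any (fun x => adjL E v x))

/-- the vertices reachable from `x` in the graph minus `{u, v}` -/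
def comL (U : List ℕ) (E : List (ℕ × ℕ)) (u v x : ℕ) : List ℕ :=
  clos (U.filter (fun w => !decide (w = u) && !decide (w = v))) (adjL E) [x]

/-- the candidates: components of the graph minus `{u, v}` which, together with their neighbours,
are not everything -/
def cands (U : List ℕ) (E : List (ℕ × ℕ)) : List (List ℕ) :=
  (U.flatMap (fun u => U.flatMap (fun v => U.map (fun x => comL U E u v x)))).filter
    (fun X => !decide (X = []) && decide (X.length + (nbL U E X).length < U.length))

/-- `X` is disjoint from `F` and all its subsets are valid -/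
def okX (L : List (List ℕ)) (F X : List ℕ) : Bool :=
  X.all (fun x => !decide (x ∈ F)) && decide (nuV L X = X.length)

/-- one round: take a smallest candidate which is disjoint from `F` and valid, and add one of its
elements to `F` -/
def stepF (L : List (List ℕ)) (C : List (List ℕ)) (F : List ℕ) : List ℕ :=
  match ((C.filter (fun X => okX L F X)).filter (fun X =>
    (C.filter (fun X => okX L F X)).all (fun Y => decide (X.length ≤ Y.length)))).head? with
  | none => F
  | some X => X.take 1 ++ F

/-- the set of forced elements -/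
def finF (U : List ℕ) (L : List (List ℕ)) (C : List (List ℕ)) : List ℕ :=
  (stepF L C)^[U.length] []

/-- the smallest size of a feasible set with at least four elements -/
def bigOpt (U : List ℕ) (E : List (ℕ × ℕ)) : ℕ :=
  max 4 (U.length - nuV (bodL E) (U.filter (fun v =>
    !decide (v ∈ finF U (bodL E) (cands U E)))))

/-- all pairs -/
def allP (U : List ℕ) : List (ℕ × ℕ) :=
  U.flatMap (fun a => (U.filter (fun b => decide (a < b))).map (fun b => (a, b)))

/-- add the complete graph on `P` -/
def addK (U : List ℕ) (E : List (ℕ × ℕ)) (P : List ℕ) : List (ℕ × ℕ) :=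
  (allP U).filter (fun e => decide (e ∈ E) || (decide (e.1 ∈ P) && decide (e.2 ∈ P)))

/-- test of global rigidity -/
def grT (U : List ℕ) (E : List (ℕ × ℕ)) : Bool :=
  if U.length ≤ 3 then (allP U).all (fun e => decide (e ∈ E))
  else (cands U E).isEmpty && (decide ((basL E).length + 3 = 2 * U.length) &&
    E.all (fun e => decide ((basL (E.filter (fun f => !decide (f = e)))).length + 3 = 2 * U.length)))

/-- is there a solution with at most `min k 3` elements? -/
def smallT (U : List ℕ) (E : List (ℕ × ℕ)) (k : ℕ) : Bool :=
  grT U E || ((decide (2 ≤ k) && U.any (fun a => U.any (fun b => grT U (addK U E [a, b])))) ||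
    (decide (3 ≤ k) && U.any (fun a => U.any (fun b => U.any (fun c =>
      grT U (addK U E [a, b, c]))))))

/-- the edges of an adjacency matrix -/
def edgesM (M : List (List Bool)) : List (ℕ × ℕ) :=
  (allP (List.range M.length)).filter (fun e => (M.getD e.1 []).getD e.2 false)

/-- the algorithm -/
def decT (M : List (List Bool)) (k : ℕ) : Bool :=
  smallT (List.range M.length) (edgesM M) k ||
    (decide (4 ≤ M.length) && decide (bigOpt (List.range M.length) (edgesM M) ≤ k))

end Pool.Agent.TH694.GP
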