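import Pool.Agent.TH694.GP.AlgDefs

/-!
# Globally rigid pinning: closures under a relation
-/

set_option autoImplicit false

namespace Pool.Agent.TH694.GP

open Pool.Agent Pool.Agent.NPC Pool.Agent.H598R2.Cnt Pool.Agent.H632R2.Cogirth
  Pool.Agent.H442R3.MPar

namespace C0

theorem sz_sublist_le {β : Type} [TEnc β] {l l' : List β} (h : l.Sublist l') : sz l ≤ sz l' := by
  induction h with
  | slnil => exact le_rfl
  | cons a _ ih => simp; omega
  | cons_cons a _ ih => simp; omega

section
variable {β : Type} [DecidableEq β]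

/-- one round -/
def cstep (U : List β) (R : β → β → Bool) (T : List β) : List β :=
  U.filter (fun x => decide (x ∈ T) || T.any (fun y => R y x))

theorem mem_cstep {U : List β} {R : β → β → Bool} {T : List β} {x : β} :
    x ∈ cstep U R T ↔ x ∈ U ∧ (x ∈ T ∨ ∃ y ∈ T, R y x = true) := by
  simp [cstep]

theorem clos_eq (U : List β) (R : β → β → Bool) (S : List β) :
    clos U R S = (cstep U R)^[U.length] (U.filter (fun x => decide (x ∈ S))) := rfl

theorem iter_sublist (U : List β) (R : β → β → Bool) (S : List β) (k : ℕ) :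
    ((cstep U R)^[k] (U.filter (fun x => decide (x ∈ S)))).Sublist U := by
  cases k with
  | zero => exact List.filter_sublist
  | succ k => rw [Function.iterate_succ_apply']; exact List.filter_sublist

theorem subset_cstep {U T : List β} {R : β → β → Bool} (hT : T ⊆ U) : T ⊆ cstep U R T :=
  fun _ hv => mem_cstep.2 ⟨hT hv, Or.inl hv⟩

theorem cstep_mono {U T T' : List β} {R : β → β → Bool} (h : T ⊆ T') :
    cstep U R T ⊆ cstep U R T' := by
  intro v hv
  rw [mem_cstep] at hv ⊢
  obtain ⟨h1, h2 | ⟨y, hy, h3⟩⟩ := hv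
  · exact ⟨h1, Or.inl (h h2)⟩
  · exact ⟨h1, Or.inr ⟨y, h hy, h3⟩⟩

theorem iter_closed_or (U : List β) (R : β → β → Bool) (T₀ : List β) (h0 : T₀ ⊆ U) (k : ℕ) :
    (cstep U R)^[k] T₀ ⊆ U ∧ (cstep U R ((cstep U R)^[k] T₀) ⊆ (cstep U R)^[k] T₀ ∨
      k ≤ ((cstep U R)^[k] T₀).toFinset.card) := by
  induction k with
  | zero => exact ⟨h0, Or.inr (Nat.zero_le _)⟩
  | succ k ih =>
    rw [Function.iterate_succ_apply']
    set T := (cstep U R)^[k] T₀ with hT
    obtain ⟨ih1, ih2⟩ := ih
    refine ⟨fun v hv => (mem_cstep.1 hv).1, ?_⟩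
    by_cases hc : cstep U R T ⊆ T
    · exact Or.inl (cstep_mono hc)
    · right
      rcases ih2 with ih2 | ih2
      · exact absurd ih2 hc
      · have h1 : T.toFinset ⊂ (cstep U R T).toFinset := by
          rw [Finset.ssubset_iff_subset_ne]
          constructor
          · intro v hv
            rw [List.mem_toFinset] at hv ⊢
            exact subset_cstep ih1 hv
          · intro h
            apply hc
            intro v hv
            rw [← List.mem_toFinset, h, List.mem_toFinset]
            exact hv
        have := Finset.card_lt_card h1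
        omega

theorem clos_closed (U : List β) (R : β → β → Bool) (S : List β) :
    cstep U R (clos U R S) ⊆ clos U R S := by
  have h0 : U.filter (fun x => decide (x ∈ S)) ⊆ U := List.filter_sublist.subset
  rw [clos_eq]
  obtain ⟨h1, h2 | h2⟩ := iter_closed_or U R _ h0 U.length
  · exact h2
  · set W := (cstep U R)^[U.length] (U.filter (fun x => decide (x ∈ S))) with hW
    have h3 : W.toFinset ⊆ U.toFinset := by
      intro v hv
      rw [List.mem_toFinset] at hv ⊢
      exact h1 hv
    have h4 : U.toFinset.card ≤ U.length := List.toFinset_card_le _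
    have h5 : W.toFinset = U.toFinset := Finset.eq_of_subset_of_card_le h3 (h4.trans h2)
    intro v hv
    rw [← List.mem_toFinset, h5, List.mem_toFinset]
    exact (mem_cstep.1 hv).1

theorem iter_sound (U : List β) (R : β → β → Bool) (S : List β) (k : ℕ) :
    ∀ x ∈ (cstep U R)^[k] (U.filter (fun x => decide (x ∈ S))),
      ∃ s ∈ S, s ∈ U ∧ Relation.ReflTransGen (fun y z => z ∈ U ∧ R y z = true) s x := by
  induction k with
  | zero =>
    intro x hx
    rw [Function.iterate_zero, id_eq, List.mem_filter, decide_eq_true_eq] at hx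
    exact ⟨x, hx.2, hx.1, Relation.ReflTransGen.refl⟩
  | succ k ih =>
    intro x hx
    rw [Function.iterate_succ_apply', mem_cstep] at hx
    obtain ⟨h1, h2 | ⟨y, hy, h3⟩⟩ := hx
    · exact ih x h2
    · obtain ⟨s, hs, hsU, h4⟩ := ih y hy
      exact ⟨s, hs, hsU, h4.tail ⟨h1, h3⟩⟩

theorem start_mem {U : List β} {R : β → β → Bool} {S : List β} {s : β} (hs : s ∈ S)
    (hsU : s ∈ U) : s ∈ clos U R S := by
  have key : ∀ k, s ∈ (cstep U R)^[k] (U.filter (fun x => decide (x ∈ S))) := by
    intro k
    induction k with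
    | zero =>
      rw [Function.iterate_zero, id_eq, List.mem_filter, decide_eq_true_eq]
      exact ⟨hsU, hs⟩
    | succ k ih =>
      rw [Function.iterate_succ_apply']
      exact mem_cstep.2 ⟨hsU, Or.inl ih⟩
  exact key _

end

end C0

open C0

theorem clos_sublist {β : Type} [DecidableEq β] (U : List β) (R : β → β → Bool) (S : List β) :
    (clos U R S).Sublist U := iter_sublist U R S U.length

theorem mem_clos {β : Type} [DecidableEq β] {U : List β} {R : β → β → Bool} {S : List β} {x : β} :
    x ∈ clos U R S ↔ ∃ s ∈ S, s ∈ U ∧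
      Relation.ReflTransGen (fun y z => z ∈ U ∧ R y z = true) s x := by
  constructor
  · intro h
    exact iter_sound U R S U.length x h
  · rintro ⟨s, hs, hsU, h⟩
    induction h with
    | refl => exact start_mem hs hsU
    | @tail p q h1 h2 ih =>
      exact clos_closed U R S (mem_cstep.2 ⟨h2.1, Or.inr ⟨p, ih, h2.2⟩⟩)

theorem poly_clos {α β : Type} [TEnc α] [TEnc β] [DecidableEq β] {U : α → List β}
    {R : α → β → β → Bool} {S : α → List β} (hU : Poly U)
    (hR : Poly (fun p : α × β × β => R p.1 p.2.1 p.2.2)) (hS : Poly S) :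
    Poly (fun a => clos (U a) (R a) (S a)) := by
  obtain ⟨q, hq⟩ := hU.sz_le
  refine Poly.iterLen (l := U) (s := fun a => (U a).filter (fun x => decide (x ∈ S a)))
    (F := fun a T => cstep (U a) (R a) T) hU (by fun_prop) ?_ q ?_
  · unfold cstep
    have h1 : Poly (fun p : (α × List β) × β => p.1.2.any (fun y => R p.1.1 y p.2)) := by
      refine Poly.any (by fun_prop) ?_
      exact hR.comp (f := fun p : ((α × List β) × β) × β => (p.1.1.1, p.2, p.1.2)) (by fun_prop)
    have h2 : Poly (fun p : α × List β => U p.1) := by fun_prop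
    refine Poly.filter h2 ?_
    exact Poly.or (by fun_prop) h1
  · intro a k hk
    exact (sz_sublist_le (iter_sublist _ _ _ _)).trans (hq a)

end Pool.Agent.TH694.GP
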