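import Pool.Agent.TH694.GP.AlgDefs

/-!
# Globally rigid pinning: the test of sparsity
-/

set_option autoImplicit false

namespace Pool.Agent.TH694.GP

open Pool.Agent Pool.Agent.NPC Pool.Agent.H598R2.Cnt Pool.Agent.H632R2.Cogirth
  Pool.Agent.H442R3.MPar

namespace C1

/-- doubled vertices -/
def V2 (X : Finset ℕ) : Finset ℕ := X.biUnion (fun x => {4 * x, 4 * x + 1})

theorem mem_V2 {X : Finset ℕ} {y : ℕ} : y ∈ V2 X ↔ ∃ x ∈ X, y = 4 * x ∨ y = 4 * x + 1 := by
  unfold V2
  simp only [Finset.mem_biUnion, Finset.mem_insert, Finset.mem_singleton]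

theorem card_V2 (X : Finset ℕ) : (V2 X).card = 2 * X.card := by
  unfold V2
  rw [Finset.card_biUnion]
  · rw [Finset.sum_congr rfl (g := fun _ => 2) (fun x _ => by
      rw [Finset.card_pair (by omega)])]
    rw [Finset.sum_const, smul_eq_mul, mul_comm]
  · intro x _ y _ hxy
    refine Finset.disjoint_left.2 ?_
    intro z hz hz'
    simp only [Finset.mem_insert, Finset.mem_singleton] at hz hz'
    omega

/-- the list of the first hyperedges -/
def lst (E : List (ℕ × ℕ)) (e₀ : ℕ × ℕ) (i : ℕ) : ℕ × ℕ := (e₀ :: e₀ :: E).getD i (0, 0)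

theorem hyp_len (E : List (ℕ × ℕ)) (e₀ : ℕ × ℕ) : (hyp E e₀).length = E.length + 2 := by
  unfold hyp
  rw [List.length_map, List.length_zipIdx]
  rfl

theorem hyp_getD (E : List (ℕ × ℕ)) (e₀ : ℕ × ℕ) {i : ℕ} (hi : i < E.length + 2) :
    (hyp E e₀).getD i ([], []) = ([4 * (lst E e₀ i).1, 4 * (lst E e₀ i).1 + 1,
      4 * (lst E e₀ i).2, 4 * (lst E e₀ i).2 + 1], [4 * i + 2, 4 * i + 3]) := by
  have h1 : i < (hyp E e₀).length := by rw [hyp_len]; exact hi
  have h2 : i < (e₀ :: e₀ :: E).length := hi
  rw [List.getD_eq_getElem _ _ h1]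
  unfold hyp lst
  rw [List.getElem_map, List.getElem_zipIdx, List.getD_eq_getElem _ _ h2, zero_add]

theorem edge_false (E : List (ℕ × ℕ)) (e₀ : ℕ × ℕ) {i : ℕ} (hi : i < E.length + 2) :
    edgeOf (hyp E e₀) (i, false) = V2 (pr (lst E e₀ i)) := by
  unfold edgeOf
  rw [cond_false, hyp_getD E e₀ hi]
  ext y
  rw [mem_V2]
  simp only [List.mem_toFinset, List.mem_cons, List.not_mem_nil, or_false, pr,
    Finset.mem_insert, Finset.mem_singleton]
  constructor
  · rintro (h | h | h | h)
    · exact ⟨_, Or.inl rfl, Or.inl h⟩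
    · exact ⟨_, Or.inl rfl, Or.inr h⟩
    · exact ⟨_, Or.inr rfl, Or.inl h⟩
    · exact ⟨_, Or.inr rfl, Or.inr h⟩
  · rintro ⟨x, rfl | rfl, h | h⟩
    · exact Or.inl h
    · exact Or.inr (Or.inl h)
    · exact Or.inr (Or.inr (Or.inl h))
    · exact Or.inr (Or.inr (Or.inr h))

theorem edge_true (E : List (ℕ × ℕ)) (e₀ : ℕ × ℕ) {i : ℕ} (hi : i < E.length + 2) :
    edgeOf (hyp E e₀) (i, true) = {4 * i + 2, 4 * i + 3} := by
  unfold edgeOf
  rw [cond_true, hyp_getD E e₀ hi]
  ext y
  simp only [List.mem_toFinset, List.mem_cons, List.not_mem_nil, or_false,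
    Finset.mem_insert, Finset.mem_singleton]

theorem nuF_eq_iff (B : List (List ℕ × List ℕ)) :
    nuF B = B.length ↔ HypIndep (edgeOf B) (Finset.range B.length ×ˢ (Finset.univ : Finset Bool)) := by
  obtain ⟨⟨M, hM, hMc⟩, hub⟩ := nuF_correct B
  constructor
  · intro h
    have : M = Finset.range B.length :=
      Finset.eq_of_subset_of_card_le hM.1 (by rw [Finset.card_range, hMc, h])
    rw [← this]
    exact hM.2
  · intro h
    have h1 : (Finset.range B.length).card ≤ nuF B := hub ⟨_, ⟨subset_rfl, h⟩, rfl⟩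
    have h2 := Finset.card_le_card hM.1
    rw [Finset.card_range] at h1 h2
    omega

theorem lst_succ (E : List (ℕ × ℕ)) (e₀ : ℕ × ℕ) {j : ℕ} (hj : j < E.length) :
    lst E e₀ (j + 2) = E[j] := by
  unfold lst
  rw [List.getD_cons_succ, List.getD_cons_succ, List.getD_eq_getElem _ _ hj]

theorem mem_ps {E : List (ℕ × ℕ)} {p : Finset ℕ} : p ∈ ps E ↔ ∃ e ∈ E, pr e = p := by
  unfold ps pr
  rw [List.mem_toFinset, List.mem_map]

theorem pr_inj {e f : ℕ × ℕ} (he : e.1 < e.2) (hf : f.1 < f.2) (h : pr e = pr f) : e = f := by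
  unfold pr at h
  have h1 : e.1 ∈ ({f.1, f.2} : Finset ℕ) := by rw [← h]; simp
  have h2 : e.2 ∈ ({f.1, f.2} : Finset ℕ) := by rw [← h]; simp
  have h3 : f.1 ∈ ({e.1, e.2} : Finset ℕ) := by rw [h]; simp
  rw [Finset.mem_insert, Finset.mem_singleton] at h1 h2 h3
  ext
  · omega
  · omega

theorem lst_mem {E : List (ℕ × ℕ)} {e₀ : ℕ × ℕ} (he₀ : e₀ ∈ E) {i : ℕ} (hi : i < E.length + 2) :
    lst E e₀ i ∈ E := by
  match i, hi with
  | 0, _ => exact he₀
  | 1, _ => exact he₀
  | j + 2, hj =>
    rw [lst_succ E e₀ (by omega)]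
    exact List.getElem_mem _

theorem pr_subset {e : ℕ × ℕ} {X : Finset ℕ} : pr e ⊆ X ↔ e.1 ∈ X ∧ e.2 ∈ X := by
  unfold pr
  rw [Finset.insert_subset_iff, Finset.singleton_subset_iff]

end C1

open C1

theorem spT_iff {E : List (ℕ × ℕ)} (hE : WF E) : spT E = true ↔ Sp (ps E) := by
  have hspT : spT E = true ↔ ∀ e₀ ∈ E, HypIndep (edgeOf (hyp E e₀))
      (Finset.range (E.length + 2) ×ˢ (Finset.univ : Finset Bool)) := by
    unfold spT
    rw [List.all_eq_true]
    refine forall₂_congr fun e₀ _ => ?_
    rw [decide_eq_true_iff, nuF_eq_iff, hyp_len]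
  rw [hspT]
  constructor
  · intro h X hX
    by_cases hne : ((ps E).filter (· ⊆ X)).Nonempty
    · obtain ⟨p, hp⟩ := hne
      rw [Finset.mem_filter] at hp
      obtain ⟨e₀, he₀, rfl⟩ := mem_ps.1 hp.1
      set J := (Finset.range (E.length + 2)).filter (fun i => pr (lst E e₀ i) ⊆ X) with hJ
      have h0J : 0 ∈ J := Finset.mem_filter.2 ⟨Finset.mem_range.2 (by omega), hp.2⟩
      have h1J : 1 ∈ J := Finset.mem_filter.2 ⟨Finset.mem_range.2 (by omega), hp.2⟩
      have key := h e₀ he₀ (J ×ˢ {false}) (Finset.product_subset_product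
        (Finset.filter_subset _ _) (Finset.subset_univ _)) ⟨(0, false), by simp [h0J]⟩
      rw [Finset.card_product, Finset.card_singleton, mul_one] at key
      have hun : (J ×ˢ {false}).biUnion (edgeOf (hyp E e₀)) ⊆ V2 X := by
        intro y hy
        rw [Finset.mem_biUnion] at hy
        obtain ⟨⟨i, b⟩, hib, hy⟩ := hy
        rw [Finset.mem_product, Finset.mem_singleton] at hib
        obtain ⟨hi, hb⟩ := hib
        simp only at hi hb
        subst hb
        rw [hJ, Finset.mem_filter, Finset.mem_range] at hi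
        rw [edge_false E e₀ hi.1, mem_V2] at hy
        rw [mem_V2]
        obtain ⟨x, hx, hy⟩ := hy
        exact ⟨x, hi.2 hx, hy⟩
      have h2 := Finset.card_le_card hun
      rw [card_V2] at h2
      have h3 : ins (ps E) X + 2 ≤ J.card := by
        have h4 : (ps E).filter (· ⊆ X) ⊆ ((J.erase 0).erase 1).image
            (fun i => pr (lst E e₀ i)) := by
          intro p hp
          rw [Finset.mem_filter] at hp
          obtain ⟨e, he, rfl⟩ := mem_ps.1 hp.1
          obtain ⟨j, hj, rfl⟩ := List.mem_iff_getElem.1 he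
          rw [Finset.mem_image]
          refine ⟨j + 2, ?_, by rw [lst_succ E e₀ hj]⟩
          rw [Finset.mem_erase, Finset.mem_erase, hJ, Finset.mem_filter, Finset.mem_range,
            lst_succ E e₀ hj]
          exact ⟨by omega, by omega, by omega, hp.2⟩
        have h5 := (Finset.card_le_card h4).trans Finset.card_image_le
        rw [Finset.card_erase_of_mem (Finset.mem_erase.2 ⟨by norm_num, h1J⟩),
          Finset.card_erase_of_mem h0J] at h5
        have h6 : 2 ≤ J.card := by
          rw [← Finset.card_pair (show (0 : ℕ) ≠ 1 by norm_num)]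
          refine Finset.card_le_card ?_
          intro x hx
          rw [Finset.mem_insert, Finset.mem_singleton] at hx
          rcases hx with rfl | rfl
          · exact h0J
          · exact h1J
        unfold ins
        omega
      omega
    · rw [Finset.not_nonempty_iff_eq_empty] at hne
      unfold ins
      rw [hne, Finset.card_empty]
      omega
  · intro h e₀ he₀ Y hY hYne
    set B := hyp E e₀ with hB
    set Y1 := (Y.filter (fun x => x.2 = false)).image Prod.fst with hY1
    set Y2 := (Y.filter (fun x => x.2 = true)).image Prod.fst with hY2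
    have mem1 : ∀ i, i ∈ Y1 ↔ (i, false) ∈ Y := by
      intro i
      rw [hY1, Finset.mem_image]
      constructor
      · rintro ⟨⟨a, b⟩, hab, rfl⟩
        rw [Finset.mem_filter] at hab
        obtain ⟨h1, h2⟩ := hab
        simp only at h2
        subst h2
        exact h1
      · intro h1
        exact ⟨(i, false), Finset.mem_filter.2 ⟨h1, rfl⟩, rfl⟩
    have mem2 : ∀ i, i ∈ Y2 ↔ (i, true) ∈ Y := by
      intro i
      rw [hY2, Finset.mem_image]
      constructor
      · rintro ⟨⟨a, b⟩, hab, rfl⟩
        rw [Finset.mem_filter] at hab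
        obtain ⟨h1, h2⟩ := hab
        simp only at h2
        subst h2
        exact h1
      · intro h1
        exact ⟨(i, true), Finset.mem_filter.2 ⟨h1, rfl⟩, rfl⟩
    have lt1 : ∀ i ∈ Y1, i < E.length + 2 := fun i hi => by
      have := hY ((mem1 i).1 hi)
      rw [Finset.mem_product, Finset.mem_range] at this
      exact this.1
    have lt2 : ∀ i ∈ Y2, i < E.length + 2 := fun i hi => by
      have := hY ((mem2 i).1 hi)
      rw [Finset.mem_product, Finset.mem_range] at this
      exact this.1
    have hYc : Y.card ≤ Y1.card + Y2.card := by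
      have : Y ⊆ Y1.image (fun i => (i, false)) ∪ Y2.image (fun i => (i, true)) := by
        rintro ⟨i, b⟩ hib
        rw [Finset.mem_union, Finset.mem_image, Finset.mem_image]
        cases b with
        | false => exact Or.inl ⟨i, (mem1 i).2 hib, rfl⟩
        | true => exact Or.inr ⟨i, (mem2 i).2 hib, rfl⟩
      refine (Finset.card_le_card this).trans ((Finset.card_union_le _ _).trans ?_)
      exact Nat.add_le_add Finset.card_image_le Finset.card_image_le
    set X := Y1.biUnion (fun i => pr (lst E e₀ i)) with hX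
    set W := Y2.biUnion (fun i => ({4 * i + 2, 4 * i + 3} : Finset ℕ)) with hW
    have hsub : V2 X ∪ W ⊆ Y.biUnion (edgeOf B) := by
      intro y hy
      rw [Finset.mem_union] at hy
      rw [Finset.mem_biUnion]
      rcases hy with hy | hy
      · rw [mem_V2] at hy
        obtain ⟨x, hx, hy⟩ := hy
        rw [hX, Finset.mem_biUnion] at hx
        obtain ⟨i, hi, hx⟩ := hx
        refine ⟨(i, false), (mem1 i).1 hi, ?_⟩
        rw [hB, edge_false E e₀ (lt1 i hi), mem_V2]
        exact ⟨x, hx, hy⟩
      · rw [hW, Finset.mem_biUnion] at hy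
        obtain ⟨i, hi, hy⟩ := hy
        refine ⟨(i, true), (mem2 i).1 hi, ?_⟩
        rw [hB, edge_true E e₀ (lt2 i hi)]
        exact hy
    have hWc : W.card = 2 * Y2.card := by
      rw [hW, Finset.card_biUnion]
      · rw [Finset.sum_congr rfl (g := fun _ => 2) (fun x _ => by
          rw [Finset.card_pair (by omega)])]
        rw [Finset.sum_const, smul_eq_mul, mul_comm]
      · intro x _ y _ hxy
        refine Finset.disjoint_left.2 ?_
        intro z hz hz'
        simp only [Finset.mem_insert, Finset.mem_singleton] at hz hz'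
        omega
    have hdisj : Disjoint (V2 X) W := by
      rw [Finset.disjoint_left]
      intro y hy hy'
      rw [mem_V2] at hy
      obtain ⟨x, -, hy⟩ := hy
      rw [hW, Finset.mem_biUnion] at hy'
      obtain ⟨i, -, hy'⟩ := hy'
      rw [Finset.mem_insert, Finset.mem_singleton] at hy'
      omega
    have hcard := Finset.card_le_card hsub
    rw [Finset.card_union_of_disjoint hdisj, card_V2, hWc] at hcard
    rcases Finset.eq_empty_or_nonempty Y1 with hemp | hne1
    · have : 0 < Y.card := Finset.card_pos.2 hYne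
      rw [hemp, Finset.card_empty] at hYc
      omega
    · obtain ⟨i0, hi0⟩ := hne1
      have hX2 : 2 ≤ X.card := by
        have h1 : pr (lst E e₀ i0) ⊆ X := Finset.subset_biUnion_of_mem
          (fun i => pr (lst E e₀ i)) hi0
        refine le_trans ?_ (Finset.card_le_card h1)
        have h2 := hE.1 _ (lst_mem he₀ (lt1 i0 hi0))
        unfold pr
        rw [Finset.card_pair (by omega)]
      have h1 := h X hX2
      have h2 : Y1.card ≤ 2 + ins (ps E) X := by
        have h3 : Y1 ⊆ {0, 1} ∪ (Y1.filter (fun i => 2 ≤ i)) := by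
          intro i hi
          rw [Finset.mem_union, Finset.mem_insert, Finset.mem_singleton, Finset.mem_filter]
          by_cases h4 : 2 ≤ i
          · exact Or.inr ⟨hi, h4⟩
          · left
            omega
        refine (Finset.card_le_card h3).trans ((Finset.card_union_le _ _).trans ?_)
        refine Nat.add_le_add (Finset.card_le_two) ?_
        unfold ins
        refine Finset.card_le_card_of_injOn (fun i => pr (lst E e₀ i)) ?_ ?_
        · intro i hi
          rw [Finset.mem_coe, Finset.mem_filter] at hi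
          rw [Finset.mem_coe, Finset.mem_filter]
          exact ⟨mem_ps.2 ⟨_, lst_mem he₀ (lt1 i hi.1), rfl⟩,
            Finset.subset_biUnion_of_mem (fun i => pr (lst E e₀ i)) hi.1⟩
        · intro i hi j hj hij
          rw [Finset.mem_coe, Finset.mem_filter] at hi hj
          have li := lt1 i hi.1
          have lj := lt1 j hj.1
          have h5 := pr_inj (hE.1 _ (lst_mem he₀ li)) (hE.1 _ (lst_mem he₀ lj)) hij
          obtain ⟨a, rfl⟩ : ∃ a, i = a + 2 := ⟨i - 2, by omega⟩
          obtain ⟨b, rfl⟩ : ∃ b, j = b + 2 := ⟨j - 2, by omega⟩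
          rw [lst_succ E e₀ (by omega), lst_succ E e₀ (by omega)] at h5
          have h6 := (List.Nodup.getElem_inj_iff hE.2).1 h5
          omega
      omega

attribute [local fun_prop] poly_nuF

theorem poly_hyp {α : Type} [TEnc α] {E : α → List (ℕ × ℕ)} {e : α → ℕ × ℕ} (hE : Poly E)
    (he : Poly e) : Poly (fun a => hyp (E a) (e a)) := by
  unfold hyp
  fun_prop

attribute [local fun_prop] poly_hyp

theorem poly_spT {α : Type} [TEnc α] {E : α → List (ℕ × ℕ)} (hE : Poly E) :
    Poly (fun a => spT (E a)) := by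
  unfold spT
  fun_prop

end Pool.Agent.TH694.GP
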