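import Pool.Agent.H598R2.Count

/-!
# Globally rigid pinning: combinatorial definitions

`Γ` is a finite set of pairs (the edges of a graph on the vertex set `U`).
-/

set_option autoImplicit false

namespace Pool.Agent.TH694.GP

open Pool.Agent.H598R2.Cnt

variable {V : Type*} [DecidableEq V]

open Classical in
/-- rank of a set of pairs: the largest size of a sparse subset -/
noncomputable def rk (Γ : Finset (Finset V)) : ℕ :=
  (Γ.powerset.filter (fun I => Sp I)).sup Finset.card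

/-- separators of the count matroid restricted to `Γ` -/
def Sepr (Γ S : Finset (Finset V)) : Prop := S ⊆ Γ ∧ rk S + rk (Γ \ S) = rk Γ

open Classical in
/-- the smallest separator which contains `e` -/
noncomputable def cmp (Γ : Finset (Finset V)) (e : Finset V) : Finset (Finset V) :=
  Γ.filter (fun f => ∀ S, Sepr Γ S → e ∈ S → f ∈ S)

/-- the vertices covered by a set of pairs -/
def vs (S : Finset (Finset V)) : Finset V := S.biUnion id

open Classical in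
/-- the vertex sets of the components of the count matroid -/
noncomputable def bodies (Γ : Finset (Finset V)) : Finset (Finset V) :=
  Γ.image (fun e => vs (cmp Γ e))

/-- the total rank of the bodies which meet `Z` -/
def bb (𝓑 : Finset (Finset V)) (Z : Finset V) : ℕ :=
  ∑ B ∈ 𝓑.filter (fun B => (B ∩ Z).Nonempty), (2 * B.card - 3)

/-- every nonempty subset `Z` of `Q` satisfies `b(Z) ≥ 2|Z| + 1` -/
def Val (𝓑 : Finset (Finset V)) (Q : Finset V) : Prop :=
  ∀ Z ⊆ Q, Z.Nonempty → 2 * Z.card + 1 ≤ bb 𝓑 Z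

open Classical in
/-- the neighbours of `X` -/
noncomputable def Nb (U : Finset V) (Γ : Finset (Finset V)) (X : Finset V) : Finset V :=
  (U \ X).filter (fun v => ∃ x ∈ X, {v, x} ∈ Γ)

/-- a nonempty set with at most two neighbours which, together with its neighbours, is not
everything -/
def Sepd (U : Finset V) (Γ : Finset (Finset V)) (X : Finset V) : Prop :=
  X ⊆ U ∧ X.Nonempty ∧ (Nb U Γ X).card ≤ 2 ∧ X ∪ Nb U Γ X ≠ U

/-- `P` meets every such set -/
def Hit (U : Finset V) (Γ : Finset (Finset V)) (P : Finset V) : Prop :=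
  ∀ X, Sepd U Γ X → (X ∩ P).Nonempty

/-- the properties of the family of bodies which are used -/
structure Bodies (U : Finset V) (Γ 𝓑 : Finset (Finset V)) : Prop where
  pairs : Pairs Γ
  sub : ∀ p ∈ Γ, p ⊆ U
  two : ∀ B ∈ 𝓑, 2 ≤ B.card
  subU : ∀ B ∈ 𝓑, B ⊆ U
  cover : ∀ p ∈ Γ, ∃ B ∈ 𝓑, p ⊆ B
  cnt : ∀ 𝒞 ⊆ 𝓑, 𝒞.Nonempty → ∑ B ∈ 𝒞, (2 * B.card - 3) + 3 ≤ 2 * (𝒞.biUnion id).card
  conn : ∀ B ∈ 𝓑, ∀ A C : Finset V, B ⊆ A ∪ C → ¬ B ⊆ A → ¬ B ⊆ C → (A ∩ C ∩ B).card ≤ 1 →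
    ∃ a ∈ A \ C, ∃ c ∈ C \ A, a ∈ B ∧ c ∈ B ∧ {a, c} ∈ Γ

theorem mem_Nb {U : Finset V} {Γ : Finset (Finset V)} {X : Finset V} {v : V} :
    v ∈ Nb U Γ X ↔ v ∈ U ∧ v ∉ X ∧ ∃ x ∈ X, {v, x} ∈ Γ := by
  unfold Nb
  rw [Finset.mem_filter, Finset.mem_sdiff]
  tauto

theorem Val.mono {𝓑 : Finset (Finset V)} {Q Q' : Finset V} (h : Val 𝓑 Q) (hs : Q' ⊆ Q) :
    Val 𝓑 Q' := fun Z hZ => h Z (hZ.trans hs)

theorem Hit.mono {U : Finset V} {Γ : Finset (Finset V)} {P P' : Finset V} (h : Hit U Γ P)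
    (hs : P ⊆ P') : Hit U Γ P' := fun X hX => (h X hX).mono (Finset.inter_subset_inter_left hs)

theorem bb_mono (𝓑 : Finset (Finset V)) {Z Z' : Finset V} (h : Z ⊆ Z') : bb 𝓑 Z ≤ bb 𝓑 Z' := by
  unfold bb
  apply Finset.sum_le_sum_of_subset
  intro B hB
  rw [Finset.mem_filter] at hB ⊢
  exact ⟨hB.1, hB.2.mono (Finset.inter_subset_inter_left h)⟩

theorem Nb_submod (U : Finset V) (Γ : Finset (Finset V)) (X Y : Finset V) :
    (Nb U Γ (X ∩ Y)).card + (Nb U Γ (X ∪ Y)).card ≤ (Nb U Γ X).card + (Nb U Γ Y).card := by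
  rw [← Finset.card_union_add_card_inter, ← Finset.card_union_add_card_inter (Nb U Γ X)]
  refine Nat.add_le_add (Finset.card_le_card ?_) (Finset.card_le_card ?_)
  · intro v hv
    rw [Finset.mem_union, mem_Nb, mem_Nb] at hv
    rw [Finset.mem_union, mem_Nb, mem_Nb]
    rcases hv with ⟨h1, h2, x, hx, h3⟩ | ⟨h1, h2, x, hx, h3⟩
    · rw [Finset.mem_inter] at hx h2
      by_cases hvX : v ∈ X
      · exact Or.inr ⟨h1, fun h => h2 ⟨hvX, h⟩, x, hx.2, h3⟩
      · exact Or.inl ⟨h1, hvX, x, hx.1, h3⟩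
    · rw [Finset.mem_union] at hx h2
      push Not at h2
      rcases hx with hx | hx
      · exact Or.inl ⟨h1, h2.1, x, hx, h3⟩
      · exact Or.inr ⟨h1, h2.2, x, hx, h3⟩
  · intro v hv
    rw [Finset.mem_inter, mem_Nb, mem_Nb] at hv
    rw [Finset.mem_inter, mem_Nb, mem_Nb]
    obtain ⟨⟨h1, -, x, hx, h3⟩, -, h2, -⟩ := hv
    rw [Finset.mem_inter] at hx
    rw [Finset.mem_union] at h2
    push Not at h2
    exact ⟨⟨h1, h2.1, x, hx.1, h3⟩, h1, h2.2, x, hx.2, h3⟩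

end Pool.Agent.TH694.GP
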