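import Pool.Agent.TH811.GP.X1
import Pool.Agent.TH81.GP_X2
import Pool.Agent.TH11.GPX
import Pool.Agent.TH626.GPX4

/-!
# The exchange lemma
-/

set_option autoImplicit false

namespace Pool.Agent.TH694.GP

open Pool.Agent.H598R2.Cnt

variable {V : Type*} [DecidableEq V]

theorem nb_disj {U : Finset V} {Γ : Finset (Finset V)} {X : Finset V} {s : V}
    (h : s ∈ Nb U Γ X) : s ∉ X := (mem_Nb.1 h).2.1

/-- **Exchange lemma.**  If some feasible set contains `F`, then some feasible set of at most the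
same size contains `F` and an arbitrary element of a minimal separated set `X` disjoint from
`F` all of whose subsets are valid. -/
theorem exchange {U : Finset V} {Γ 𝓑 : Finset (Finset V)} (hB : Bodies U Γ 𝓑)
    {P F X : Finset V} (hPU : P ⊆ U) (hP4 : 4 ≤ P.card) (hV : Val 𝓑 (U \ P)) (hH : Hit U Γ P)
    (hF : F ⊆ P) (hX : Sepd U Γ X) (hmin : ∀ Y, Y ⊂ X → ¬ Sepd U Γ Y) (hXV : Val 𝓑 X)
    (hXF : Disjoint X F) {r : V} (hr : r ∈ X) :
    ∃ P', P' ⊆ U ∧ insert r F ⊆ P' ∧ P'.card ≤ P.card ∧ Val 𝓑 (U \ P') ∧ Hit U Γ P' := by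
  have hNU : Nb U Γ X ⊆ U := fun v hv => (mem_Nb.1 hv).1
  have hXU : X ⊆ U := hX.1
  have hFX : ∀ v ∈ F, v ∉ X := fun v hv hvX => (Finset.disjoint_left.1 hXF hvX) hv
  have h2 := nb_two hB hX hXV
  by_cases hrP : r ∈ P
  · exact ⟨P, hPU, Finset.insert_subset hrP hF, le_rfl, hV, hH⟩
  obtain ⟨ρ, hρ⟩ := hH X hX
  rw [Finset.mem_inter] at hρ
  have hρX := hρ.1
  have hρP := hρ.2
  have hswapU : insert r (P.erase ρ) ⊆ U :=
    Finset.insert_subset (hXU hr) ((Finset.erase_subset _ _).trans hPU)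
  have hswapF : insert r F ⊆ insert r (P.erase ρ) := by
    apply Finset.insert_subset_insert
    intro v hv
    exact Finset.mem_erase.2 ⟨fun h => hFX v hv (h ▸ hρX), hF hv⟩
  have hswapC : (insert r (P.erase ρ)).card ≤ P.card := by
    have h1 := Finset.card_insert_le r (P.erase ρ)
    have h3 := Finset.card_erase_of_mem hρP
    omega
  have hsplit : (P \ X).card + (P ∩ X).card = P.card := Finset.card_sdiff_add_card_inter P X
  by_cases hc : ∃ B ∈ 𝓑, (B ∩ X).Nonempty ∧ ¬ B ⊆ X ∪ Nb U Γ X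
  · obtain ⟨B, hBB, hm, hcr⟩ := hc
    obtain ⟨h3, h4, h5⟩ := crossing hB hX hXV hBB hm hcr
    refine ⟨insert r (P.erase ρ), hswapU, hswapF, hswapC, ?_, ?_⟩
    · exact val_swapB h4 (Finset.subset_union_left.trans h3) hρX hρP hr hrP (hXU hr) hV
    · exact TH11.GPX.hit_swap hPU hP4 hH hX hmin h2 hρX hρP hr hrP (Or.inr h5)
  have hin : ∀ B ∈ 𝓑, (B ∩ X).Nonempty → B ⊆ X ∪ Nb U Γ X := by
    intro B hBB hm
    by_contra h
    exact hc ⟨B, hBB, hm, h⟩
  have hPX : (P ∩ X).Nonempty := ⟨ρ, Finset.mem_inter.2 ⟨hρP, hρX⟩⟩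
  have hpos := hPX.card_pos
  by_cases h1 : (P ∩ X).card = 1
  · refine ⟨insert r (P.erase ρ), hswapU, hswapF, hswapC, ?_, ?_⟩
    · refine TH81.GP.val_caseA hB hX h2 hXV hin hPU hV hPX hr (Finset.mem_insert_self _ _) ?_ ?_
        (Or.inr h1)
      · intro v hv
        rw [Finset.mem_sdiff] at hv
        exact Finset.mem_insert_of_mem (Finset.mem_erase.2 ⟨fun h => hv.2 (h ▸ hρX), hv.1⟩)
      · intro s hs hsP'
        refine TH626.GPX4.nondeg_one hH hX h2 h1 hs fun hsP => hsP' ?_
        exact Finset.mem_insert_of_mem (Finset.mem_erase.2 ⟨fun h => nb_disj hs (h ▸ hρX), hsP⟩)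
    · exact TH11.GPX.hit_swap hPU hP4 hH hX hmin h2 hρX hρP hr hrP (Or.inl h1)
  have hFsub : F ⊆ P \ X := fun v hv => Finset.mem_sdiff.2 ⟨hF hv, hFX v hv⟩
  by_cases h3 : (P ∩ X).card = 2 ∧ Disjoint (Nb U Γ X) P
  · obtain ⟨t, ht, hhit, hnd⟩ := TH626.GPX4.hit_t hPU hP4 hH hX hmin h2 h3.1 h3.2 hr
    refine ⟨insert r (insert t (P \ X)), ?_, ?_, ?_, ?_, hhit⟩
    · exact Finset.insert_subset (hXU hr) (Finset.insert_subset (hNU ht)
        (Finset.sdiff_subset.trans hPU))
    · exact Finset.insert_subset_insert _ (hFsub.trans (Finset.subset_insert _ _))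
    · have h4 := Finset.card_insert_le r (insert t (P \ X))
      have h5 := Finset.card_insert_le t (P \ X)
      omega
    · refine TH81.GP.val_caseA hB hX h2 hXV hin hPU hV hPX hr (Finset.mem_insert_self _ _) ?_ ?_ ?_
      · exact (Finset.subset_insert _ _).trans (Finset.subset_insert _ _)
      · intro s hs hsP'
        refine hnd s hs fun h => hsP' ?_
        rw [h]
        simp
      · exact Or.inl ⟨t, by simp [ht]⟩
  · refine ⟨insert r ((P \ X) ∪ Nb U Γ X), ?_, ?_, ?_, ?_, ?_⟩
    · exact Finset.insert_subset (hXU hr) (Finset.union_subset (Finset.sdiff_subset.trans hPU) hNU)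
    · exact Finset.insert_subset_insert _ (hFsub.trans Finset.subset_union_left)
    · have h4 := Finset.card_insert_le r ((P \ X) ∪ Nb U Γ X)
      have h5 : (P \ X) ∪ Nb U Γ X = (P \ X) ∪ (Nb U Γ X \ P) := by
        ext v
        simp only [Finset.mem_union, Finset.mem_sdiff]
        constructor
        · rintro (h | h)
          · exact Or.inl h
          · by_cases hvP : v ∈ P
            · exact Or.inl ⟨hvP, nb_disj h⟩
            · exact Or.inr ⟨h, hvP⟩
        · rintro (h | h)
          · exact Or.inl h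
          · exact Or.inr h.1
      rw [h5] at h4
      have h6 := Finset.card_union_le (P \ X) (Nb U Γ X \ P)
      have h7 : (Nb U Γ X \ P).card + (Nb U Γ X ∩ P).card = (Nb U Γ X).card :=
        Finset.card_sdiff_add_card_inter _ _
      rw [h5]
      by_cases h8 : (P ∩ X).card = 2
      · have h9 : ¬ Disjoint (Nb U Γ X) P := fun h => h3 ⟨h8, h⟩
        rw [Finset.not_disjoint_iff_nonempty_inter] at h9
        have := h9.card_pos
        omega
      · omega
    · refine TH81.GP.val_caseA hB hX h2 hXV hin hPU hV hPX hr (Finset.mem_insert_self _ _) ?_ ?_ ?_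
      · exact Finset.subset_union_left.trans (Finset.subset_insert _ _)
      · intro s hs hsP'
        exact absurd (Finset.mem_insert_of_mem (Finset.mem_union_right _ hs)) hsP'
      · left
        have : (Nb U Γ X).Nonempty := by rw [← Finset.card_pos]; omega
        obtain ⟨s, hs⟩ := this
        exact ⟨s, Finset.mem_inter.2 ⟨hs, Finset.mem_insert_of_mem (Finset.mem_union_right _ hs)⟩⟩
    · exact TH626.GPX4.hit_two hH hX hmin h2 hr (Finset.mem_insert_self _ _)
        (Finset.subset_union_left.trans (Finset.subset_insert _ _))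
        (Finset.subset_union_right.trans (Finset.subset_insert _ _))

end Pool.Agent.TH694.GP
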