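import Pool.Agent.TH694.GP.AlgDefs
import Pool.Agent.H671R2.GraphEnc

/-!
# Globally rigid pinning: from graphs to sets of pairs of natural numbers
-/

set_option autoImplicit false

namespace Pool.Agent.TH694.GP

open Pool.Agent Pool.Agent.NPC Pool.Agent.H598R2.Cnt Pool.Agent.H632R2.Cogirth Pool.Agent.H442R3.MPar

/-- the complete graph on `P` -/
def onGraph {V : Type} (P : Finset V) : SimpleGraph V := SimpleGraph.fromRel (fun u v => u ∈ P ∧ v ∈ P)

/-- the pairs of natural numbers of a graph -/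
noncomputable def nps {n : ℕ} (G : SimpleGraph (Fin n)) : Finset (Finset ℕ) :=
  (prs G).map (mp Fin.valEmbedding)

theorem L1.mem_prs {V : Type} [Fintype V] [DecidableEq V] (G : SimpleGraph V) (e : Finset V) :
    e ∈ prs G ↔ ∃ u v, G.Adj u v ∧ e = {u, v} := by
  classical
  simp only [prs, Finset.mem_image, SimpleGraph.mem_edgeFinset]
  constructor
  · rintro ⟨a, ha, rfl⟩
    induction a with
    | _ u v =>
      rw [SimpleGraph.mem_edgeSet] at ha
      exact ⟨u, v, ha, toFinset_mk u v⟩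
  · rintro ⟨u, v, h, rfl⟩
    exact ⟨s(u, v), by rwa [SimpleGraph.mem_edgeSet], toFinset_mk u v⟩

theorem L1.mem_nps {n : ℕ} (G : SimpleGraph (Fin n)) (e : Finset ℕ) :
    e ∈ nps G ↔ ∃ u v : Fin n, G.Adj u v ∧ e = {(u : ℕ), (v : ℕ)} := by
  unfold nps
  simp only [Finset.mem_map, L1.mem_prs, mp_apply]
  constructor
  · rintro ⟨_, ⟨u, v, h, rfl⟩, rfl⟩
    exact ⟨u, v, h, by simp⟩
  · rintro ⟨u, v, h, rfl⟩
    exact ⟨{u, v}, ⟨u, v, h, rfl⟩, by simp⟩

theorem L1.pair_eq {a b c d : ℕ} (h : ({a, b} : Finset ℕ) = {c, d}) :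
    (a = c ∧ b = d) ∨ (a = d ∧ b = c) := by
  have h1 : a ∈ ({c, d} : Finset ℕ) := by rw [← h]; simp
  have h2 : b ∈ ({c, d} : Finset ℕ) := by rw [← h]; simp
  have h3 : c ∈ ({a, b} : Finset ℕ) := by rw [h]; simp
  have h4 : d ∈ ({a, b} : Finset ℕ) := by rw [h]; simp
  simp only [Finset.mem_insert, Finset.mem_singleton] at h1 h2 h3 h4
  omega

theorem L1.pair_mem_nps {n : ℕ} (G : SimpleGraph (Fin n)) (u v : Fin n) :
    ({(u : ℕ), (v : ℕ)} : Finset ℕ) ∈ nps G ↔ G.Adj u v := by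
  rw [L1.mem_nps]
  constructor
  · rintro ⟨a, b, h, he⟩
    rcases L1.pair_eq he with ⟨h1, h2⟩ | ⟨h1, h2⟩
    · rw [Fin.ext h1, Fin.ext h2]
      exact h
    · rw [Fin.ext h1, Fin.ext h2]
      exact h.symm
  · intro h
    exact ⟨u, v, h, rfl⟩

theorem nps_pairs {n : ℕ} (G : SimpleGraph (Fin n)) : Pairs (nps G) := by
  intro e he
  obtain ⟨u, v, h, rfl⟩ := (L1.mem_nps G e).1 he
  exact Finset.card_pair (fun h1 => h.ne (Fin.ext h1))

theorem nps_sub {n : ℕ} (G : SimpleGraph (Fin n)) : ∀ p ∈ nps G, p ⊆ Finset.range n := by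
  intro e he
  obtain ⟨u, v, h, rfl⟩ := (L1.mem_nps G e).1 he
  intro x hx
  simp only [Finset.mem_insert, Finset.mem_singleton] at hx
  rw [Finset.mem_range]
  rcases hx with rfl | rfl
  · exact u.2
  · exact v.2

theorem nps_sup {n : ℕ} (G : SimpleGraph (Fin n)) (P : Finset (Fin n)) :
    nps (G ⊔ onGraph P) = nps G ∪ (P.map Fin.valEmbedding).powersetCard 2 := by
  ext e
  rw [Finset.mem_union, L1.mem_nps, L1.mem_nps, Finset.mem_powersetCard]
  constructor
  · rintro ⟨u, v, h, rfl⟩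
    rw [SimpleGraph.sup_adj, onGraph, SimpleGraph.fromRel_adj] at h
    rcases h with h | ⟨h1, h2⟩
    · exact Or.inl ⟨u, v, h, rfl⟩
    · right
      have h3 : u ∈ P ∧ v ∈ P := by tauto
      refine ⟨?_, Finset.card_pair (fun h4 => h1 (Fin.ext h4))⟩
      intro x hx
      simp only [Finset.mem_insert, Finset.mem_singleton] at hx
      rcases hx with rfl | rfl
      · exact Finset.mem_map_of_mem Fin.valEmbedding h3.1
      · exact Finset.mem_map_of_mem Fin.valEmbedding h3.2
  · rintro (⟨u, v, h, rfl⟩ | ⟨h1, h2⟩)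
    · exact ⟨u, v, Or.inl h, rfl⟩
    · obtain ⟨x, y, hxy, rfl⟩ := Finset.card_eq_two.1 h2
      have hx : x ∈ P.map Fin.valEmbedding := h1 (by simp)
      have hy : y ∈ P.map Fin.valEmbedding := h1 (by simp)
      obtain ⟨u, hu, rfl⟩ := Finset.mem_map.1 hx
      obtain ⟨v, hv, rfl⟩ := Finset.mem_map.1 hy
      refine ⟨u, v, Or.inr ?_, rfl⟩
      rw [onGraph, SimpleGraph.fromRel_adj]
      refine ⟨fun h => hxy (by rw [h]), Or.inl ⟨hu, hv⟩⟩

theorem L1.nps_delete {n : ℕ} (H : SimpleGraph (Fin n)) (e : Sym2 (Fin n)) :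
    nps (H.deleteEdges {e}) = (nps H).erase (mp Fin.valEmbedding (Sym2.toFinset e)) := by
  have h := prs_deleteEdges H {e}
  rw [Finset.coe_singleton, Finset.image_singleton] at h
  unfold nps
  rw [h, Finset.sdiff_singleton_eq_erase]
  ext x
  simp only [Finset.mem_map, Finset.mem_erase]
  constructor
  · rintro ⟨a, ⟨h1, h2⟩, rfl⟩
    exact ⟨fun h3 => h1 ((mp Fin.valEmbedding).injective h3), a, h2, rfl⟩
  · rintro ⟨h1, a, h2, rfl⟩
    exact ⟨a, ⟨fun h3 => h1 (by rw [h3]), h2⟩, rfl⟩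

theorem L1.rigid {n : ℕ} (h2 : 2 ≤ n) (H : SimpleGraph (Fin n)) :
    RigidInPlane H ↔ Rig (nps H) (Finset.range n) := by
  rw [rigid_iff _ (by simpa using h2), nps, ← map_univ_range, rig_map _ (prs_pairs _)]

theorem link_rigid {n : ℕ} (h2 : 2 ≤ n) (H : SimpleGraph (Fin n)) :
    (RigidInPlane H ∧ ∀ e ∈ H.edgeSet, RigidInPlane (H.deleteEdges {e})) ↔
      Rig (nps H) (Finset.range n) ∧ ∀ e ∈ nps H, Rig ((nps H).erase e) (Finset.range n) := by
  rw [L1.rigid h2]
  refine and_congr Iff.rfl ?_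
  constructor
  · intro h e he
    obtain ⟨u, v, huv, rfl⟩ := (L1.mem_nps H e).1 he
    have h1 := (L1.rigid h2 _).1 (h s(u, v) (by rwa [SimpleGraph.mem_edgeSet]))
    rw [L1.nps_delete, toFinset_mk, mp_apply] at h1
    simpa using h1
  · intro h e he
    rw [L1.rigid h2, L1.nps_delete]
    apply h
    unfold nps
    apply Finset.mem_map_of_mem
    classical
    unfold prs
    exact Finset.mem_image_of_mem _ (SimpleGraph.mem_edgeFinset.2 he)

theorem link_conn {n : ℕ} (h4 : 4 ≤ n) (H : SimpleGraph (Fin n)) :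
    (∀ S : Finset (Fin n), S.card ≤ 2 → (H.induce {v | v ∉ S}).Connected) ↔
      ∀ X, ¬ Sepd (Finset.range n) (nps H) X := by
  classical
  constructor
  · intro h X hX
    obtain ⟨hXU, hXne, hNb, hne⟩ := hX
    set S : Finset (Fin n) :=
      Finset.univ.filter (fun v => (v : ℕ) ∈ Nb (Finset.range n) (nps H) X) with hS
    have hSc : S.card ≤ 2 := by
      refine le_trans ?_ hNb
      rw [← Finset.card_map Fin.valEmbedding]
      apply Finset.card_le_card
      intro x hx
      obtain ⟨v, hv, rfl⟩ := Finset.mem_map.1 hx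
      exact (Finset.mem_filter.1 hv).2
    have hc := h S hSc
    obtain ⟨x, hx⟩ := hXne
    have hxn : x < n := Finset.mem_range.1 (hXU hx)
    have hxS : (⟨x, hxn⟩ : Fin n) ∉ S := by
      intro h1
      have h2 := (Finset.mem_filter.1 h1).2
      rw [mem_Nb] at h2
      exact h2.2.1 hx
    have hsub : X ∪ Nb (Finset.range n) (nps H) X ⊆ Finset.range n := by
      apply Finset.union_subset hXU
      intro v hv
      exact (mem_Nb.1 hv).1
    obtain ⟨y, hy, hy'⟩ : ∃ y ∈ Finset.range n, y ∉ X ∪ Nb (Finset.range n) (nps H) X := by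
      by_contra hcon
      push Not at hcon
      exact hne (Finset.Subset.antisymm hsub hcon)
    rw [Finset.mem_union, not_or] at hy'
    have hyn : y < n := Finset.mem_range.1 hy
    have hyS : (⟨y, hyn⟩ : Fin n) ∉ S := fun h1 => hy'.2 (Finset.mem_filter.1 h1).2
    have hr := hc.preconnected ⟨⟨x, hxn⟩, hxS⟩ ⟨⟨y, hyn⟩, hyS⟩
    rw [SimpleGraph.reachable_iff_reflTransGen] at hr
    have key : ∀ z : {v | v ∉ S}, Relation.ReflTransGen (H.induce {v | v ∉ S}).Adj
        ⟨⟨x, hxn⟩, hxS⟩ z → ((z : Fin n) : ℕ) ∈ X := by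
      intro z hz
      induction hz with
      | refl => exact hx
      | @tail b c hb hab ih =>
        by_contra hcX
        apply c.2
        refine Finset.mem_filter.2 ⟨Finset.mem_univ _, ?_⟩
        rw [mem_Nb]
        refine ⟨Finset.mem_range.2 (c : Fin n).2, hcX, _, ih, ?_⟩
        rw [L1.pair_mem_nps]
        exact hab.symm
    exact hy'.1 (key _ hr)
  · intro h S hS
    have hcard : ∃ v : Fin n, v ∉ S := by
      by_contra hcon
      push Not at hcon
      have h1 : (Finset.univ : Finset (Fin n)).card ≤ S.card :=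
        Finset.card_le_card (fun v _ => hcon v)
      rw [Finset.card_univ, Fintype.card_fin] at h1
      omega
    obtain ⟨v0, hv0⟩ := hcard
    have hne : Nonempty {v | v ∉ S} := ⟨⟨v0, hv0⟩⟩
    refine ⟨?_⟩
    intro x y
    by_contra hxy
    set X : Finset ℕ := (Finset.univ.filter (fun v : Fin n =>
      ∃ hv : v ∉ S, (H.induce {v | v ∉ S}).Reachable x ⟨v, hv⟩)).map Fin.valEmbedding with hX
    have hmem : ∀ v : Fin n, (v : ℕ) ∈ X ↔
        ∃ hv : v ∉ S, (H.induce {v | v ∉ S}).Reachable x ⟨v, hv⟩ := by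
      intro v
      rw [hX, Finset.mem_map]
      constructor
      · rintro ⟨w, hw, hwv⟩
        have : w = v := Fin.ext hwv
        subst this
        exact (Finset.mem_filter.1 hw).2
      · intro hv
        exact ⟨v, Finset.mem_filter.2 ⟨Finset.mem_univ _, hv⟩, rfl⟩
    have hXU : X ⊆ Finset.range n := by
      intro v hv
      rw [hX] at hv
      obtain ⟨w, -, rfl⟩ := Finset.mem_map.1 hv
      exact Finset.mem_range.2 w.2
    have hNbS : Nb (Finset.range n) (nps H) X ⊆ S.map Fin.valEmbedding := by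
      intro v hv
      rw [mem_Nb] at hv
      obtain ⟨h1, h2, w, hw, h3⟩ := hv
      have hvn : v < n := Finset.mem_range.1 h1
      have hwn : w < n := Finset.mem_range.1 (hXU hw)
      have h5 : H.Adj ⟨v, hvn⟩ ⟨w, hwn⟩ := (L1.pair_mem_nps H ⟨v, hvn⟩ ⟨w, hwn⟩).1 h3
      obtain ⟨hwS, hreach⟩ := (hmem ⟨w, hwn⟩).1 hw
      by_contra hvS
      have hvS' : (⟨v, hvn⟩ : Fin n) ∉ S := by
        intro h6
        exact hvS (Finset.mem_map.2 ⟨_, h6, rfl⟩)
      apply h2
      refine (hmem ⟨v, hvn⟩).2 ⟨hvS', hreach.trans ?_⟩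
      apply SimpleGraph.Adj.reachable
      exact h5.symm
    refine h X ⟨hXU, ⟨((x : Fin n) : ℕ), (hmem x).2 ⟨x.2, SimpleGraph.Reachable.refl _⟩⟩, ?_, ?_⟩
    · refine (Finset.card_le_card hNbS).trans ?_
      rwa [Finset.card_map]
    · intro heq
      have h1 : ((y : Fin n) : ℕ) ∈ X ∪ Nb (Finset.range n) (nps H) X := by
        rw [heq]
        exact Finset.mem_range.2 (y : Fin n).2
      rw [Finset.mem_union] at h1
      rcases h1 with h1 | h1
      · obtain ⟨h2, h3⟩ := (hmem y).1 h1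
        exact hxy h3
      · obtain ⟨w, hw, hwy⟩ := Finset.mem_map.1 (hNbS h1)
        have : w = (y : Fin n) := Fin.ext hwy
        subst this
        exact y.2 hw

theorem nps_complete {n : ℕ} (H : SimpleGraph (Fin n)) :
    H = ⊤ ↔ nps H = (Finset.range n).powersetCard 2 := by
  constructor
  · rintro rfl
    ext e
    rw [L1.mem_nps, Finset.mem_powersetCard]
    constructor
    · rintro ⟨u, v, h, rfl⟩
      refine ⟨?_, Finset.card_pair (fun h1 => h.ne (Fin.ext h1))⟩
      intro x hx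
      simp only [Finset.mem_insert, Finset.mem_singleton] at hx
      rw [Finset.mem_range]
      rcases hx with rfl | rfl
      · exact u.2
      · exact v.2
    · rintro ⟨h1, h2⟩
      obtain ⟨x, y, hxy, rfl⟩ := Finset.card_eq_two.1 h2
      have hx : x < n := Finset.mem_range.1 (h1 (by simp))
      have hy : y < n := Finset.mem_range.1 (h1 (by simp))
      refine ⟨⟨x, hx⟩, ⟨y, hy⟩, ?_, rfl⟩
      rw [SimpleGraph.top_adj]
      intro h3
      exact hxy (congrArg Fin.val h3)
  · intro h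
    ext u v
    rw [SimpleGraph.top_adj, ← L1.pair_mem_nps, h, Finset.mem_powersetCard]
    constructor
    · rintro ⟨-, h2⟩ rfl
      simp at h2
    · intro h1
      refine ⟨?_, Finset.card_pair (fun h2 => h1 (Fin.ext h2))⟩
      intro x hx
      simp only [Finset.mem_insert, Finset.mem_singleton] at hx
      rw [Finset.mem_range]
      rcases hx with rfl | rfl
      · exact u.2
      · exact v.2

theorem L1.mem_allP (U : List ℕ) (a b : ℕ) : (a, b) ∈ allP U ↔ a ∈ U ∧ b ∈ U ∧ a < b := by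
  unfold allP
  simp only [List.mem_flatMap, List.mem_map, List.mem_filter, decide_eq_true_eq, Prod.mk.injEq]
  constructor
  · rintro ⟨x, hx, y, ⟨hy, hxy⟩, rfl, rfl⟩
    exact ⟨hx, hy, hxy⟩
  · rintro ⟨h1, h2, h3⟩
    exact ⟨a, h1, b, ⟨h2, h3⟩, rfl, rfl⟩

theorem L1.nodup_allP {U : List ℕ} (hU : U.Nodup) : (allP U).Nodup := by
  unfold allP
  rw [List.nodup_flatMap]
  constructor
  · intro a _
    apply List.Nodup.map
    · intro x y h
      exact (Prod.mk.inj h).2
    · exact hU.filter _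
  · refine hU.imp ?_
    intro a b hab x hx hx'
    simp only [List.mem_map] at hx hx'
    obtain ⟨c, -, rfl⟩ := hx
    obtain ⟨d, -, h⟩ := hx'
    exact hab (Prod.mk.inj h).1.symm

theorem L1.adjM_get {n : ℕ} (G : SimpleGraph (Fin n)) (i j : Fin n) :
    ((NPC.R671.adjMatrix G).getD i []).getD j false = true ↔ G.Adj i j := by
  unfold NPC.R671.adjMatrix
  simp

theorem edgesM_spec {n : ℕ} (G : SimpleGraph (Fin n)) : (NPC.R671.adjMatrix G).length = n ∧
    WF (edgesM (NPC.R671.adjMatrix G)) ∧ ps (edgesM (NPC.R671.adjMatrix G)) = nps G := by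
  have hlen : (NPC.R671.adjMatrix G).length = n := by
    unfold NPC.R671.adjMatrix
    simp
  refine ⟨hlen, ⟨?_, ?_⟩, ?_⟩
  · intro e he
    unfold edgesM at he
    rw [List.mem_filter] at he
    exact ((L1.mem_allP _ e.1 e.2).1 he.1).2.2
  · unfold edgesM
    exact (L1.nodup_allP List.nodup_range).filter _
  · ext e
    rw [L1.mem_nps, ps, List.mem_toFinset, List.mem_map]
    unfold edgesM
    rw [hlen]
    constructor
    · rintro ⟨⟨a, b⟩, hab, rfl⟩
      rw [List.mem_filter, L1.mem_allP, List.mem_range, List.mem_range] at hab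
      obtain ⟨⟨ha, hb, -⟩, h⟩ := hab
      exact ⟨⟨a, ha⟩, ⟨b, hb⟩, (L1.adjM_get G ⟨a, ha⟩ ⟨b, hb⟩).1 h, rfl⟩
    · rintro ⟨u, v, h, rfl⟩
      rcases lt_or_gt_of_ne (fun h1 => h.ne (Fin.ext h1) : (u : ℕ) ≠ v) with h1 | h1
      · refine ⟨(u, v), ?_, rfl⟩
        rw [List.mem_filter, L1.mem_allP, List.mem_range, List.mem_range]
        exact ⟨⟨u.2, v.2, h1⟩, (L1.adjM_get G u v).2 h⟩
      · refine ⟨(v, u), ?_, Finset.pair_comm _ _⟩
        rw [List.mem_filter, L1.mem_allP, List.mem_range, List.mem_range]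
        exact ⟨⟨v.2, u.2, h1⟩, (L1.adjM_get G v u).2 h.symm⟩

end Pool.Agent.TH694.GP
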