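import Pool.Agent.TH694.GP.AlgC
import Pool.Agent.TH694.GP.L1
import Pool.Agent.TH645.GP.P1core

/-!
# Globally rigid pinning: the decision algorithm for graphs
-/

set_option autoImplicit false

namespace Pool.Agent.TH694.GP

open Pool.Agent Pool.Agent.NPC Pool.Agent.H598R2.Cnt Pool.Agent.H632R2.Cogirth
  Pool.Agent.H442R3.MPar

/-- the combinatorial form of global rigidity for graphs -/
def CombGR {n : ℕ} (H : SimpleGraph (Fin n)) : Prop :=
  (n ≤ 3 ∧ H = ⊤) ∨ (4 ≤ n ∧ (∀ S : Finset (Fin n), S.card ≤ 2 → (H.induce {v | v ∉ S}).Connected) ∧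
    RigidInPlane H ∧ ∀ e ∈ H.edgeSet, RigidInPlane (H.deleteEdges {e}))

theorem gr_iff_comb {n : ℕ} (H : SimpleGraph (Fin n)) :
    GR (Finset.range n) (nps H) ↔ CombGR H := by
  unfold GR CombGR
  rw [Finset.card_range, ← nps_complete]
  by_cases h3 : n ≤ 3
  · constructor
    · intro h
      exact Or.inl ⟨h3, h.1 h3⟩
    · rintro (⟨-, h⟩ | ⟨h, -⟩)
      · exact ⟨fun _ => h, fun h4 => absurd h4 (by omega)⟩
      · omega
  · have h4 : 4 ≤ n := by omega
    rw [link_conn h4, link_rigid (by omega)]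
    constructor
    · intro h
      exact Or.inr ⟨h4, h.2 h4⟩
    · rintro (⟨h, -⟩ | ⟨-, h⟩)
      · omega
      · exact ⟨fun h' => absurd h' (by omega), fun _ => h⟩

theorem exists_fin_iff {n : ℕ} (Q : Finset ℕ → Prop) :
    (∃ P ⊆ Finset.range n, Q P) ↔ ∃ P : Finset (Fin n), Q (P.map Fin.valEmbedding) := by
  constructor
  · rintro ⟨P, h1, h2⟩
    refine ⟨P.preimage Fin.val Fin.val_injective.injOn, ?_⟩
    have : (P.preimage Fin.val Fin.val_injective.injOn : Finset (Fin n)).map Fin.valEmbedding = P := by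
      ext x
      simp only [Finset.mem_map, Finset.mem_preimage, Fin.valEmbedding_apply]
      constructor
      · rintro ⟨a, ha, rfl⟩
        exact ha
      · intro hx
        exact ⟨⟨x, Finset.mem_range.1 (h1 hx)⟩, hx, rfl⟩
    rw [this]
    exact h2
  · rintro ⟨P, h⟩
    refine ⟨_, ?_, h⟩
    intro x hx
    obtain ⟨a, -, rfl⟩ := Finset.mem_map.1 hx
    exact Finset.mem_range.2 a.2

theorem decT_iff {n : ℕ} (G : SimpleGraph (Fin n)) (k : ℕ) :
    decT (NPC.R671.adjMatrix G) k = true ↔
      ∃ P : Finset (Fin n), P.card ≤ k ∧ CombGR (G ⊔ onGraph P) := by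
  obtain ⟨h1, h2, h3⟩ := edgesM_spec G
  have hU : (List.range n).toFinset = Finset.range n := by
    ext x
    simp
  have hEU : ∀ e ∈ edgesM (NPC.R671.adjMatrix G), e.1 ∈ List.range n ∧ e.2 ∈ List.range n := by
    intro e he
    have h4 := nps_sub G {e.1, e.2} (by
      rw [← h3, ps, List.mem_toFinset, List.mem_map]
      exact ⟨e, he, rfl⟩)
    constructor
    · have := h4 (Finset.mem_insert_self _ _)
      simpa using this
    · have := h4 (Finset.mem_insert_of_mem (Finset.mem_singleton_self _))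
      simpa using this
  have key := dec_iff (U := List.range n) List.nodup_range h2 hEU k
  rw [List.length_range, hU, h3] at key
  unfold decT
  rw [h1, key, exists_fin_iff (fun P => P.card ≤ k ∧
    GR (Finset.range n) (nps G ∪ P.powersetCard 2))]
  refine exists_congr fun P => ?_
  rw [Finset.card_map, ← nps_sup, gr_iff_comb]

theorem asm : TH645.GP.Asm where
  basL := fun h => poly_basL h
  bodL := fun h => poly_bodL h
  nuV := fun h h2 => poly_nuV h h2
  cands := fun h h2 => poly_cands h h2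

theorem poly_decT : NPC.Poly (fun I : List (List Bool) × ℕ => decT I.1 I.2) :=
  TH645.GP.poly_decT asm (NPC.Poly.fst NPC.Poly.id) (NPC.Poly.snd NPC.Poly.id)

end Pool.Agent.TH694.GP
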