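import Pool.Agent.TH694.GP.Search

/-!
# Globally rigid pinning: the search algorithm for graphs
-/

set_option autoImplicit false

namespace Pool.Agent.TH694.GP

open Pool.Agent Pool.Agent.NPC Pool.Agent.H598R2.Cnt Pool.Agent.H632R2.Cogirth
  Pool.Agent.H442R3.MPar

theorem edgesM_mem {n : ℕ} (G : SimpleGraph (Fin n)) :
    ∀ e ∈ edgesM (NPC.R671.adjMatrix G), e.1 ∈ List.range n ∧ e.2 ∈ List.range n := by
  obtain ⟨h1, h2, h3⟩ := edgesM_spec G
  intro e he
  have h4 := nps_sub G {e.1, e.2} (by
    rw [← h3, ps, List.mem_toFinset, List.mem_map]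
    exact ⟨e, he, rfl⟩)
  constructor
  · have := h4 (Finset.mem_insert_self _ _)
    simpa using this
  · have := h4 (Finset.mem_insert_of_mem (Finset.mem_singleton_self _))
    simpa using this

/-- the search version for graphs -/
theorem search_graph : ∃ g : List (List Bool) → List Bool, NPC.Poly g ∧
    ∀ (n : ℕ) (G : SimpleGraph (Fin n)), ∃ P : Finset (Fin n), CombGR (G ⊔ onGraph P) ∧
      (∀ P' : Finset (Fin n), CombGR (G ⊔ onGraph P') → P.card ≤ P'.card) ∧
      g (NPC.R671.adjMatrix G) = List.ofFn fun i => decide (i ∈ P) := by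
  obtain ⟨sF, hsF, hspec⟩ := exists_search
  refine ⟨fun M => (List.range M.length).map (fun i =>
    decide (i ∈ sF (List.range M.length, edgesM M))), ?_, ?_⟩
  · refine NPC.Poly.map (F := fun (M : List (List Bool)) (i : ℕ) =>
      decide (i ∈ sF (List.range M.length, edgesM M))) (NPC.Poly.range_length NPC.Poly.id) ?_
    refine NPC.Poly.decide_mem (NPC.Poly.snd NPC.Poly.id) (hsF.comp (NPC.Poly.pair ?_ ?_))
    · exact NPC.Poly.range_length (NPC.Poly.fst NPC.Poly.id)
    · exact TH645.GP.poly_edgesM (NPC.Poly.fst NPC.Poly.id)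
  · intro n G
    obtain ⟨h1, h2, h3⟩ := edgesM_spec G
    have hU : (List.range n).toFinset = Finset.range n := by
      ext x
      simp
    obtain ⟨g1, g2, g3, g4⟩ := hspec (List.range n) (edgesM (NPC.R671.adjMatrix G))
      List.nodup_range h2 (edgesM_mem G)
    rw [hU] at g2 g3 g4
    rw [h3] at g3 g4
    set L := sF (List.range n, edgesM (NPC.R671.adjMatrix G)) with hL
    have hmap : ((Finset.univ : Finset (Fin n)).filter (fun i : Fin n => (i : ℕ) ∈ L)).map
        Fin.valEmbedding = L.toFinset := by
      ext x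
      simp only [Finset.mem_map, Finset.mem_filter, Finset.mem_univ, true_and,
        Fin.valEmbedding_apply, List.mem_toFinset]
      constructor
      · rintro ⟨a, ha, rfl⟩
        exact ha
      · intro hx
        have h5 := g2 (List.mem_toFinset.2 hx)
        exact ⟨⟨x, Finset.mem_range.1 h5⟩, hx, rfl⟩
    refine ⟨(Finset.univ : Finset (Fin n)).filter (fun i : Fin n => (i : ℕ) ∈ L), ?_, ?_, ?_⟩
    · rw [← gr_iff_comb, nps_sup, hmap]
      exact g3
    · intro P' hP'
      rw [← gr_iff_comb, nps_sup] at hP'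
      have h5 := g4 (P'.map Fin.valEmbedding) (by
        intro x hx
        obtain ⟨a, -, rfl⟩ := Finset.mem_map.1 hx
        exact Finset.mem_range.2 a.2) hP'
      rw [Finset.card_map] at h5
      rw [← Finset.card_map Fin.valEmbedding, hmap, List.toFinset_card_of_nodup g1]
      exact h5
    · beta_reduce
      rw [h1]
      apply List.ext_getElem
      · simp
      · intro i h5 h6
        simp [hL]

end Pool.Agent.TH694.GP
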