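import Pool.Agent.TH694.GP.M1

/-!
# Globally rigid pinning, piece M2: separators and components of the count matroid (helper81)
-/

set_option autoImplicit false

namespace Pool.Agent.TH694.GP

open Pool.Agent.H598R2.Cnt

variable {V : Type*} [DecidableEq V]

omit [DecidableEq V] in
theorem M2.pairs_of_subset {Γ A : Finset (Finset V)} (hΓ : Pairs Γ) (h : A ⊆ Γ) : Pairs A :=
  fun p hp => hΓ p (h hp)

theorem M2.rk_empty : rk (∅ : Finset (Finset V)) = 0 := by
  have := rk_le_card (∅ : Finset (Finset V))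
  rw [Finset.card_empty] at this
  omega

theorem sepr_compl {Γ S : Finset (Finset V)} (h : Sepr Γ S) : Sepr Γ (Γ \ S) := by
  refine ⟨Finset.sdiff_subset, ?_⟩
  rw [Finset.sdiff_sdiff_eq_self h.1, add_comm]
  exact h.2

/-- a separator splits every subset -/
theorem rk_split {Γ S A : Finset (Finset V)} (hΓ : Pairs Γ) (h : Sepr Γ S) (hA : A ⊆ Γ) :
    rk (A ∩ S) + rk (A \ S) = rk A := by
  have h1 := rk_union_le (A ∩ S) (A \ S)
  have e1 : A ∩ S ∪ A \ S = A := by
    ext x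
    simp only [Finset.mem_union, Finset.mem_inter, Finset.mem_sdiff]
    tauto
  rw [e1] at h1
  have hAS : A ∪ S ⊆ Γ := Finset.union_subset hA h.1
  have h2 := rk_submod (M2.pairs_of_subset hΓ hA) (M2.pairs_of_subset hΓ h.1)
  have h3 := rk_submod (M2.pairs_of_subset hΓ hAS)
    (M2.pairs_of_subset hΓ (Finset.sdiff_subset (s := Γ) (t := S)))
  have e2 : A ∪ S ∪ Γ \ S = Γ := by
    ext x
    simp only [Finset.mem_union, Finset.mem_sdiff]
    constructor
    · rintro ((hx | hx) | hx)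
      · exact hA hx
      · exact h.1 hx
      · exact hx.1
    · intro hx
      by_cases hS : x ∈ S
      · exact Or.inl (Or.inr hS)
      · exact Or.inr ⟨hx, hS⟩
  have e3 : (A ∪ S) ∩ (Γ \ S) = A \ S := by
    ext x
    simp only [Finset.mem_union, Finset.mem_sdiff, Finset.mem_inter]
    constructor
    · rintro ⟨hx | hx, -, h4⟩
      · exact ⟨hx, h4⟩
      · exact absurd hx h4
    · rintro ⟨hx, h4⟩
      exact ⟨Or.inl hx, hA hx, h4⟩
  rw [e2, e3] at h3
  have h4 := h.2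
  omega

theorem sepr_trans {Γ D S : Finset (Finset V)} (h : Sepr Γ D) (h' : Sepr D S) : Sepr Γ S := by
  refine ⟨h'.1.trans h.1, ?_⟩
  have h1 := rk_union_le (D \ S) (Γ \ D)
  have e1 : D \ S ∪ Γ \ D = Γ \ S := by
    ext x
    simp only [Finset.mem_union, Finset.mem_sdiff]
    constructor
    · rintro (hx | hx)
      · exact ⟨h.1 hx.1, hx.2⟩
      · exact ⟨hx.1, fun h2 => hx.2 (h'.1 h2)⟩
    · intro hx
      by_cases hD : x ∈ D
      · exact Or.inl ⟨hD, hx.2⟩
      · exact Or.inr ⟨hx.1, hD⟩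
  rw [e1] at h1
  have h2 := rk_union_le S (Γ \ S)
  rw [Finset.union_sdiff_of_subset (h'.1.trans h.1)] at h2
  have h3 := h.2
  have h4 := h'.2
  omega

/-- restriction of a separator to a subset -/
theorem sepr_restrict {Γ S A : Finset (Finset V)} (hΓ : Pairs Γ) (h : Sepr Γ S) (hA : A ⊆ Γ) :
    Sepr A (A ∩ S) := by
  refine ⟨Finset.inter_subset_left, ?_⟩
  rw [Finset.sdiff_inter_self_left]
  exact rk_split hΓ h hA

theorem sepr_inter {Γ S T : Finset (Finset V)} (hΓ : Pairs Γ) (h : Sepr Γ S) (h' : Sepr Γ T) :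
    Sepr Γ (S ∩ T) := sepr_trans h (sepr_restrict hΓ h' h.1)

theorem sepr_union {Γ S T : Finset (Finset V)} (hΓ : Pairs Γ) (h : Sepr Γ S) (h' : Sepr Γ T) :
    Sepr Γ (S ∪ T) := by
  have h1 := sepr_compl (sepr_inter hΓ (sepr_compl h) (sepr_compl h'))
  have e1 : Γ \ (Γ \ S ∩ (Γ \ T)) = S ∪ T := by
    ext x
    simp only [Finset.mem_union, Finset.mem_sdiff, Finset.mem_inter]
    constructor
    · rintro ⟨hx, h2⟩
      by_contra h3
      push Not at h3
      exact h2 ⟨⟨hx, h3.1⟩, hx, h3.2⟩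
    · rintro (hx | hx)
      · exact ⟨h.1 hx, fun h2 => h2.1.2 hx⟩
      · exact ⟨h'.1 hx, fun h2 => h2.2.2 hx⟩
  rwa [e1] at h1

theorem M2.sepr_self (Γ : Finset (Finset V)) : Sepr Γ Γ := by
  refine ⟨subset_rfl, ?_⟩
  rw [Finset.sdiff_self, M2.rk_empty, add_zero]

theorem M2.sepr_empty (Γ : Finset (Finset V)) : Sepr Γ ∅ := by
  refine ⟨Finset.empty_subset _, ?_⟩
  rw [Finset.sdiff_empty, M2.rk_empty, zero_add]

theorem M2.mem_cmp {Γ : Finset (Finset V)} {e f : Finset V} :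
    f ∈ cmp Γ e ↔ f ∈ Γ ∧ ∀ S, Sepr Γ S → e ∈ S → f ∈ S := by
  classical
  unfold cmp
  rw [Finset.mem_filter]

theorem cmp_subset (Γ : Finset (Finset V)) (e : Finset V) : cmp Γ e ⊆ Γ := fun _ hf =>
  (M2.mem_cmp.1 hf).1

theorem cmp_subset_of_sepr {Γ S : Finset (Finset V)} {e : Finset V} (h : Sepr Γ S) (he : e ∈ S) :
    cmp Γ e ⊆ S := fun _ hf => (M2.mem_cmp.1 hf).2 S h he

theorem mem_cmp_self {Γ : Finset (Finset V)} {e : Finset V} (he : e ∈ Γ) : e ∈ cmp Γ e :=
  M2.mem_cmp.2 ⟨he, fun _ _ h => h⟩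

theorem sepr_cmp {Γ : Finset (Finset V)} (hΓ : Pairs Γ) {e : Finset V} (he : e ∈ Γ) :
    Sepr Γ (cmp Γ e) := by
  classical
  obtain ⟨S, hS, hmin⟩ := Finset.exists_min_image
    (Γ.powerset.filter (fun S => Sepr Γ S ∧ e ∈ S)) Finset.card
    ⟨Γ, by simp [M2.sepr_self, he]⟩
  rw [Finset.mem_filter] at hS
  have e1 : cmp Γ e = S := by
    refine Finset.Subset.antisymm (cmp_subset_of_sepr hS.2.1 hS.2.2) fun f hf => ?_
    refine M2.mem_cmp.2 ⟨hS.2.1.1 hf, fun T hT heT => ?_⟩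
    have h1 := sepr_inter hΓ hS.2.1 hT
    have h2 := hmin (S ∩ T) (by
      rw [Finset.mem_filter, Finset.mem_powerset]
      exact ⟨h1.1, h1, Finset.mem_inter.2 ⟨hS.2.2, heT⟩⟩)
    have h3 := Finset.eq_of_subset_of_card_le (Finset.inter_subset_left (s₁ := S) (s₂ := T)) h2
    rw [← h3] at hf
    exact (Finset.mem_inter.1 hf).2
  rw [e1]
  exact hS.2.1

theorem cmp_eq_of_mem {Γ : Finset (Finset V)} (hΓ : Pairs Γ) {e f : Finset V} (he : e ∈ Γ)
    (hf : f ∈ cmp Γ e) : cmp Γ f = cmp Γ e := by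
  have hfΓ : f ∈ Γ := cmp_subset _ _ hf
  refine Finset.Subset.antisymm (cmp_subset_of_sepr (sepr_cmp hΓ he) hf)
    (cmp_subset_of_sepr (sepr_cmp hΓ hfΓ) ?_)
  by_contra h
  have h1 := (M2.mem_cmp.1 hf).2 (Γ \ cmp Γ f) (sepr_compl (sepr_cmp hΓ hfΓ))
    (Finset.mem_sdiff.2 ⟨he, h⟩)
  exact (Finset.mem_sdiff.1 h1).2 (mem_cmp_self hfΓ)

/-- a set which is a union of components is a separator -/
theorem sepr_of_closed {Γ S : Finset (Finset V)} (hΓ : Pairs Γ) (hS : S ⊆ Γ)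
    (h : ∀ e ∈ S, cmp Γ e ⊆ S) : Sepr Γ S := by
  have h1 : ∀ T : Finset (Finset V), T ⊆ Γ → Sepr Γ (T.biUnion (cmp Γ)) := by
    intro T
    induction T using Finset.induction_on with
    | empty => intro _; rw [Finset.biUnion_empty]; exact M2.sepr_empty Γ
    | insert a T ha ih =>
      intro hT
      rw [Finset.biUnion_insert]
      exact sepr_union hΓ (sepr_cmp hΓ (hT (Finset.mem_insert_self _ _)))
        (ih ((Finset.subset_insert _ _).trans hT))
  have h2 : S.biUnion (cmp Γ) = S := by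
    refine Finset.Subset.antisymm (Finset.biUnion_subset.2 h) fun e he => ?_
    exact Finset.mem_biUnion.2 ⟨e, he, mem_cmp_self (hS he)⟩
  rw [← h2]
  exact h1 S hS

/-- components of a subset are contained in components -/
theorem cmp_mono {Γ Δ : Finset (Finset V)} (hΔ : Pairs Δ) (h : Γ ⊆ Δ) {e : Finset V} (he : e ∈ Γ) :
    cmp Γ e ⊆ cmp Δ e := by
  intro f hf
  obtain ⟨h1, h2⟩ := M2.mem_cmp.1 hf
  refine M2.mem_cmp.2 ⟨h h1, fun S hS heS => ?_⟩
  exact (Finset.mem_inter.1 (h2 (Γ ∩ S) (sepr_restrict hΔ hS h)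
    (Finset.mem_inter.2 ⟨he, heS⟩))).2

open Classical in
/-- the rank of a union of components -/
theorem rk_sum {Γ S : Finset (Finset V)} (hΓ : Pairs Γ) (hS : S ⊆ Γ)
    (h : ∀ e ∈ S, cmp Γ e ⊆ S) : rk S = ∑ D ∈ S.image (cmp Γ), rk D := by
  induction S using Finset.strongInduction with
  | H S ih =>
    rcases S.eq_empty_or_nonempty with rfl | ⟨e, he⟩
    · rw [Finset.image_empty, Finset.sum_empty, M2.rk_empty]
    · have heΓ := hS he
      have hD := h e he
      have h1 := rk_split hΓ (sepr_cmp hΓ heΓ) hS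
      rw [Finset.inter_eq_right.2 hD] at h1
      have hlt : S \ cmp Γ e ⊂ S := by
        refine Finset.ssubset_iff_subset_ne.2 ⟨Finset.sdiff_subset, fun h2 => ?_⟩
        have h3 : e ∈ S \ cmp Γ e := by rw [h2]; exact he
        exact (Finset.mem_sdiff.1 h3).2 (mem_cmp_self heΓ)
      have hcl : ∀ f ∈ S \ cmp Γ e, cmp Γ f ⊆ S \ cmp Γ e := by
        intro f hf g hg
        rw [Finset.mem_sdiff] at hf ⊢
        refine ⟨h f hf.1 hg, fun hg' => hf.2 ?_⟩
        have h2 := cmp_eq_of_mem hΓ (hS hf.1) hg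
        have h3 := cmp_eq_of_mem hΓ heΓ hg'
        rw [← h3, h2]
        exact mem_cmp_self (hS hf.1)
      have h2 := ih _ hlt (Finset.sdiff_subset.trans hS) hcl
      have e1 : S.image (cmp Γ) = insert (cmp Γ e) ((S \ cmp Γ e).image (cmp Γ)) := by
        ext D
        rw [Finset.mem_insert, Finset.mem_image, Finset.mem_image]
        constructor
        · rintro ⟨f, hf, rfl⟩
          by_cases h3 : f ∈ cmp Γ e
          · exact Or.inl (cmp_eq_of_mem hΓ heΓ h3)
          · exact Or.inr ⟨f, Finset.mem_sdiff.2 ⟨hf, h3⟩, rfl⟩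
        · rintro (rfl | ⟨f, hf, rfl⟩)
          · exact ⟨e, he, rfl⟩
          · exact ⟨f, (Finset.mem_sdiff.1 hf).1, rfl⟩
      have e2 : cmp Γ e ∉ (S \ cmp Γ e).image (cmp Γ) := by
        rw [Finset.mem_image]
        rintro ⟨f, hf, h3⟩
        rw [Finset.mem_sdiff] at hf
        apply hf.2
        rw [← h3]
        exact mem_cmp_self (hS hf.1)
      rw [e1, Finset.sum_insert e2, ← h2]
      exact h1.symm

/-- a basis meets a separator in a basis of it -/
theorem rk_eq_inter {Γ I S : Finset (Finset V)} (hΓ : Pairs Γ) (hI : Maxl Γ I) (h : Sepr Γ S) :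
    rk S = (I ∩ S).card := by
  have h1 : (I ∩ S).card ≤ rk S :=
    card_le_rk Finset.inter_subset_right (hI.2.1.mono Finset.inter_subset_left)
  have h2 : (I \ S).card ≤ rk (Γ \ S) :=
    card_le_rk (Finset.sdiff_subset_sdiff hI.1 subset_rfl) (hI.2.1.mono Finset.sdiff_subset)
  have h3 := rk_eq hΓ hI
  have h4 := h.2
  have h5 := Finset.card_inter_add_card_sdiff I S
  omega

theorem M2.exch_aux {Γ I S : Finset (Finset V)} (hΓ : Pairs Γ) (hI : Maxl Γ I) (h : Sepr Γ S)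
    {e f : Finset V} (heI : e ∉ I) (hsp : Sp (insert e (I.erase f))) (he : e ∈ S) : f ∈ S := by
  by_contra hf
  have h1 : Sp (insert e (I ∩ S)) := by
    refine hsp.mono (Finset.insert_subset_insert _ fun x hx => ?_)
    rw [Finset.mem_inter] at hx
    exact Finset.mem_erase.2 ⟨fun h2 => hf (h2 ▸ hx.2), hx.1⟩
  have h2 := card_le_rk (Finset.insert_subset he Finset.inter_subset_right) h1
  rw [Finset.card_insert_of_notMem (fun h3 => heI (Finset.mem_inter.1 h3).1)] at h2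
  have h3 := rk_eq_inter hΓ hI h
  omega

theorem M2.maxl_inter {Γ I S : Finset (Finset V)} (hΓ : Pairs Γ) (hI : Maxl Γ I) (hS : S ⊆ Γ)
    (h : ∀ e ∈ Γ, e ∉ I → ∀ f ∈ I, Sp (insert e (I.erase f)) → e ∈ S → f ∈ S) :
    Maxl S (I ∩ S) := by
  refine ⟨Finset.inter_subset_right, hI.2.1.mono Finset.inter_subset_left, fun p hp hpI hsp => ?_⟩
  have hpI' : p ∉ I := fun h1 => hpI (Finset.mem_inter.2 ⟨h1, hp⟩)
  have hΓ' : Pairs (insert p I) :=
    M2.pairs_of_subset hΓ (Finset.insert_subset (hS hp) hI.1)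
  have hI' : Maxl (insert p I) I := by
    refine ⟨Finset.subset_insert _ _, hI.2.1, fun q hq hqI => ?_⟩
    rcases Finset.mem_insert.1 hq with h1 | h1
    · rw [h1]
      exact hI.2.2 p (hS hp) hpI'
    · exact absurd h1 hqI
  obtain ⟨J, hJ1, hJ2⟩ := exists_maxl (Γ := insert p I) (J := insert p (I ∩ S))
    (Finset.insert_subset_insert _ Finset.inter_subset_left) hsp
  have hc1 := hI'.card_le hΓ' hJ2.1 hJ2.2.1
  have hc2 := hJ2.card_le hΓ' hI'.1 hI'.2.1
  have hpJ : p ∈ J := hJ1 (Finset.mem_insert_self _ _)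
  have hc3 : (insert p I \ J).card = 1 := by
    rw [Finset.card_sdiff_of_subset hJ2.1, Finset.card_insert_of_notMem hpI']
    omega
  obtain ⟨f, hf⟩ := Finset.card_eq_one.1 hc3
  have hf1 : f ∈ insert p I \ J := by rw [hf]; exact Finset.mem_singleton_self f
  rw [Finset.mem_sdiff, Finset.mem_insert] at hf1
  have hfI : f ∈ I := by
    rcases hf1.1 with h1 | h1
    · exact absurd (h1 ▸ hpJ) hf1.2
    · exact h1
  have hsub : insert p (I.erase f) ⊆ J := by
    intro q hq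
    rcases Finset.mem_insert.1 hq with h1 | h1
    · rw [h1]; exact hpJ
    · rw [Finset.mem_erase] at h1
      by_contra h2
      have h3 : q ∈ insert p I \ J :=
        Finset.mem_sdiff.2 ⟨Finset.mem_insert_of_mem h1.2, h2⟩
      rw [hf, Finset.mem_singleton] at h3
      exact h1.1 h3
  have hfS := h p (hS hp) hpI' f hfI (hJ2.2.1.mono hsub) hp
  exact hf1.2 (hJ1 (Finset.mem_insert_of_mem (Finset.mem_inter.2 ⟨hfI, hfS⟩)))

/-- separators in terms of exchanges with a fixed basis -/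
theorem sepr_iff_exch {Γ I S : Finset (Finset V)} (hΓ : Pairs Γ) (hI : Maxl Γ I) (hS : S ⊆ Γ) :
    Sepr Γ S ↔ ∀ e ∈ Γ, e ∉ I → ∀ f ∈ I, Sp (insert e (I.erase f)) → (e ∈ S ↔ f ∈ S) := by
  constructor
  · intro h e he heI f hf hsp
    refine ⟨fun heS => M2.exch_aux hΓ hI h heI hsp heS, fun hfS => ?_⟩
    by_contra heS
    have h1 := M2.exch_aux hΓ hI (sepr_compl h) heI hsp (Finset.mem_sdiff.2 ⟨he, heS⟩)
    exact (Finset.mem_sdiff.1 h1).2 hfS
  · intro h
    have h1 := M2.maxl_inter hΓ hI hS fun e he heI f hf hsp => (h e he heI f hf hsp).1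
    have h2 := M2.maxl_inter hΓ hI (Finset.sdiff_subset (s := Γ) (t := S))
      fun e he heI f hf hsp heS => Finset.mem_sdiff.2 ⟨hI.1 hf, fun hfS =>
        (Finset.mem_sdiff.1 heS).2 ((h e he heI f hf hsp).2 hfS)⟩
    refine ⟨hS, ?_⟩
    rw [rk_eq (M2.pairs_of_subset hΓ hS) h1, rk_eq (M2.pairs_of_subset hΓ Finset.sdiff_subset) h2,
      rk_eq hΓ hI]
    have e1 : I ∩ (Γ \ S) = I \ S := by
      ext x
      simp only [Finset.mem_inter, Finset.mem_sdiff]
      exact ⟨fun hx => ⟨hx.1, hx.2.2⟩, fun hx => ⟨hx.1, hI.1 hx.1, hx.2⟩⟩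
    rw [e1]
    exact Finset.card_inter_add_card_sdiff I S

end Pool.Agent.TH694.GP
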