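import Pool.Agent.TH694.GP.Exch

/-!
# Smallest feasible sets
-/

set_option autoImplicit false

namespace Pool.Agent.TH694.GP

open Pool.Agent.H598R2.Cnt

variable {V : Type*} [DecidableEq V]

/-- feasible sets with at least four elements -/
def Feas (U : Finset V) (Γ 𝓑 : Finset (Finset V)) (P : Finset V) : Prop :=
  P ⊆ U ∧ 4 ≤ P.card ∧ Val 𝓑 (U \ P) ∧ Hit U Γ P

theorem Feas.sup {U : Finset V} {Γ 𝓑 : Finset (Finset V)} {P' : Finset V} (hU : P' ⊆ U)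
    (hV : Val 𝓑 (U \ P')) (hH : Hit U Γ P') {m : ℕ} (hm : P'.card ≤ m) (h4 : 4 ≤ m)
    (hmU : m ≤ U.card) : ∃ P, P' ⊆ P ∧ Feas U Γ 𝓑 P ∧ P.card = m := by
  obtain ⟨P, h1, h2, h3⟩ := Finset.exists_subsuperset_card_eq hU hm hmU
  exact ⟨P, h1, ⟨h2, by omega, hV.mono (Finset.sdiff_subset_sdiff le_rfl h1), hH.mono h1⟩, h3⟩

theorem feas_step {U : Finset V} {Γ 𝓑 : Finset (Finset V)} (hB : Bodies U Γ 𝓑)
    {F X : Finset V} (hX : Sepd U Γ X) (hmin : ∀ Y, Y ⊂ X → ¬ Sepd U Γ Y) (hXV : Val 𝓑 X)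
    (hXF : Disjoint X F) {r : V} (hr : r ∈ X) {k : ℕ}
    (h : ∃ P, F ⊆ P ∧ Feas U Γ 𝓑 P ∧ P.card ≤ k) :
    ∃ P, insert r F ⊆ P ∧ Feas U Γ 𝓑 P ∧ P.card ≤ k := by
  obtain ⟨P, hF, ⟨h1, h2, h3, h4⟩, hk⟩ := h
  obtain ⟨P', g1, g2, g3, g4, g5⟩ := exchange hB h1 h2 h3 h4 hF hX hmin hXV hXF hr
  obtain ⟨P'', f1, f2, f3⟩ := Feas.sup g1 g4 g5 g3 h2 (Finset.card_le_card h1)
  exact ⟨P'', g2.trans f1, f2, by omega⟩

theorem feas_end {U : Finset V} {Γ 𝓑 : Finset (Finset V)} {F : Finset V} (hFU : F ⊆ U)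
    (hend : ∀ X, Sepd U Γ X → Disjoint X F → ¬ Val 𝓑 X) {k : ℕ} :
    (∃ P, F ⊆ P ∧ Feas U Γ 𝓑 P ∧ P.card ≤ k) ↔
      4 ≤ k ∧ 4 ≤ U.card ∧ ∃ Q ⊆ U \ F, Val 𝓑 Q ∧ U.card ≤ k + Q.card := by
  constructor
  · rintro ⟨P, hF, ⟨h1, h2, h3, h4⟩, hk⟩
    refine ⟨h2.trans hk, h2.trans (Finset.card_le_card h1), U \ P,
      Finset.sdiff_subset_sdiff le_rfl hF, h3, ?_⟩
    have := Finset.card_sdiff_add_card_eq_card h1
    omega
  · rintro ⟨h4, hU4, Q, hQ, hV, hk⟩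
    have hQU : Q ⊆ U := hQ.trans Finset.sdiff_subset
    have hc := Finset.card_sdiff_add_card_eq_card hQU
    have hdd : U \ (U \ Q) = Q := Finset.sdiff_sdiff_eq_self hQU
    have hH : Hit U Γ (U \ Q) := by
      intro X hX
      by_cases hXF : Disjoint X F
      · have h1 := hend X hX hXF
        have h2 : ¬ X ⊆ Q := fun h => h1 (hV.mono h)
        obtain ⟨x, hx, hxQ⟩ := Finset.not_subset.1 h2
        exact ⟨x, Finset.mem_inter.2 ⟨hx, Finset.mem_sdiff.2 ⟨hX.1 hx, hxQ⟩⟩⟩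
      · obtain ⟨x, hx, hxF⟩ := Finset.not_disjoint_iff.1 hXF
        refine ⟨x, Finset.mem_inter.2 ⟨hx, Finset.mem_sdiff.2 ⟨hX.1 hx, fun h => ?_⟩⟩⟩
        exact (Finset.mem_sdiff.1 (hQ h)).2 hxF
    have hF : F ⊆ U \ Q := by
      intro x hx
      exact Finset.mem_sdiff.2 ⟨hFU hx, fun h => (Finset.mem_sdiff.1 (hQ h)).2 hx⟩
    obtain ⟨P, g1, g2, g3⟩ := Feas.sup (m := max 4 (U \ Q).card) Finset.sdiff_subset
      (by rw [hdd]; exact hV) hH (le_max_right _ _) (le_max_left _ _)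
      (max_le hU4 (Finset.card_le_card Finset.sdiff_subset))
    exact ⟨P, hF.trans g1, g2, by rw [g3]; exact max_le h4 (by omega)⟩

end Pool.Agent.TH694.GP
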