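import Pool.Agent.TH694.GP.Final

/-!
# Globally rigid pinning: the optimum
-/

set_option autoImplicit false

namespace Pool.Agent.TH694.GP

open Pool.Agent Pool.Agent.NPC Pool.Agent.H598R2.Cnt Pool.Agent.H632R2.Cogirth
  Pool.Agent.H442R3.MPar

/-- the least size of a solution with at least three elements (for at least four vertices) -/
def pinF (U : List ℕ) (E : List (ℕ × ℕ)) : ℕ :=
  if U.length ≤ 3 then U.length
  else if U.any (fun a => U.any (fun b => U.any (fun c => decide (a < b) && (decide (b < c) &&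
    grT U (addK U E [a, b, c]))))) then 3
  else bigOpt U E

theorem PinF.sorted {P : Finset ℕ} (h : P.card = 3) :
    ∃ a b c, a < b ∧ b < c ∧ P = {a, b, c} := by
  refine ⟨P.orderEmbOfFin h 0, P.orderEmbOfFin h 1, P.orderEmbOfFin h 2, ?_, ?_, ?_⟩
  · exact (P.orderEmbOfFin h).strictMono (by decide)
  · exact (P.orderEmbOfFin h).strictMono (by decide)
  · have h1 := Finset.image_orderEmbOfFin_univ P h
    have h2 : (Finset.univ : Finset (Fin 3)) = {0, 1, 2} := by decide
    rw [h2, Finset.image_insert, Finset.image_insert, Finset.image_singleton] at h1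
    exact h1.symm

theorem pinF_spec {U : List ℕ} {E : List (ℕ × ℕ)} (hU : U.Nodup) (hE : WF E)
    (hEU : ∀ e ∈ E, e.1 ∈ U ∧ e.2 ∈ U) (h4 : 4 ≤ U.length) :
    IsLeast {k | ∃ P ⊆ U.toFinset, 3 ≤ P.card ∧ GR U.toFinset (ps E ∪ P.powersetCard 2) ∧
      P.card = k} (pinF U E) := by
  have key : ∀ a b c : ℕ, a ∈ U → b ∈ U → c ∈ U → (grT U (addK U E [a, b, c]) = true ↔
      GR U.toFinset (ps E ∪ ({a, b, c} : Finset ℕ).powersetCard 2)) := by
    intro a b c ha hb hc
    have hP : ∀ x ∈ [a, b, c], x ∈ U := by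
      intro x hx
      simp only [List.mem_cons, List.not_mem_nil, or_false] at hx
      rcases hx with rfl | rfl | rfl <;> assumption
    obtain ⟨h1, h2, h3⟩ := addK_spec hU hE hEU hP
    have e : [a, b, c].toFinset = ({a, b, c} : Finset ℕ) := by ext x; simp
    rw [grT_iff hU h1 h2, h3, e]
  unfold pinF
  rw [if_neg (by omega)]
  by_cases ht : U.any (fun a => U.any (fun b => U.any (fun c => decide (a < b) &&
      (decide (b < c) && grT U (addK U E [a, b, c]))))) = true
  · rw [if_pos ht]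
    simp only [List.any_eq_true, Bool.and_eq_true, decide_eq_true_eq] at ht
    obtain ⟨a, ha, b, hb, c, hc, hab, hbc, hg⟩ := ht
    refine ⟨⟨{a, b, c}, ?_, ?_, (key a b c ha hb hc).1 hg, ?_⟩, ?_⟩
    · intro x hx
      simp only [Finset.mem_insert, Finset.mem_singleton] at hx
      rw [List.mem_toFinset]
      rcases hx with rfl | rfl | rfl <;> assumption
    · rw [Finset.card_eq_three.2 ⟨a, b, c, by omega, by omega, by omega, rfl⟩]
    · exact Finset.card_eq_three.2 ⟨a, b, c, by omega, by omega, by omega, rfl⟩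
    · rintro k ⟨P, _, h3, _, rfl⟩
      exact h3
  · rw [if_neg ht]
    have hno : ∀ P ⊆ U.toFinset, P.card = 3 →
        ¬ GR U.toFinset (ps E ∪ P.powersetCard 2) := by
      intro P hP h3 hg
      obtain ⟨a, b, c, hab, hbc, rfl⟩ := PinF.sorted h3
      apply ht
      simp only [List.any_eq_true, Bool.and_eq_true, decide_eq_true_eq]
      have ha : a ∈ U := List.mem_toFinset.1 (hP (by simp))
      have hb : b ∈ U := List.mem_toFinset.1 (hP (by simp))
      have hc : c ∈ U := List.mem_toFinset.1 (hP (by simp))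
      exact ⟨a, ha, b, hb, c, hc, hab, hbc, (key a b c ha hb hc).2 hg⟩
    constructor
    · obtain ⟨P, hF, hc⟩ := (bigOpt_iff hU hE hEU h4 (bigOpt U E)).1 le_rfl
      have h5 := (bigOpt_iff hU hE hEU h4 P.card).2 ⟨P, hF, le_rfl⟩
      exact ⟨P, hF.1, by have := hF.2.1; omega,
        (gr_iff_feas (ps_pairs hE) (ps_sub hEU) hF.1 hF.2.1).2 hF, by omega⟩
    · rintro k ⟨P, hP, h3, hg, rfl⟩
      have h6 : P.card ≠ 3 := fun h => hno P hP h hg
      exact (bigOpt_iff hU hE hEU h4 P.card).2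
        ⟨P, (gr_iff_feas (ps_pairs hE) (ps_sub hEU) hP (by omega)).1 hg, le_rfl⟩

theorem poly_pinF {α : Type} [TEnc α] {U : α → List ℕ} {E : α → List (ℕ × ℕ)} (hU : Poly U)
    (hE : Poly E) : Poly (fun a => pinF (U a) (E a)) := by
  unfold pinF
  have hlen := NPC.Poly.length hU
  refine NPC.Poly.ite (NPC.Poly.decide_le hlen (NPC.Poly.const 3)) hlen ?_
  suffices hb : Poly (fun a => (U a).any (fun x => (U a).any (fun y => (U a).any (fun z =>
      decide (x < y) && (decide (y < z) && grT (U a) (addK (U a) (E a) [x, y, z])))))) from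
    NPC.Poly.ite (hb.congr fun a => by rw [Bool.decide_eq_true]) (NPC.Poly.const 3)
      (TH645.GP.poly_bigOpt asm hU hE)
  refine NPC.Poly.any (p := fun a x => (U a).any (fun y => (U a).any (fun z =>
    decide (x < y) && (decide (y < z) && grT (U a) (addK (U a) (E a) [x, y, z]))))) hU ?_
  refine NPC.Poly.any (l := fun p : α × ℕ => U p.1) (p := fun p y => (U p.1).any (fun z =>
    decide (p.2 < y) && (decide (y < z) && grT (U p.1) (addK (U p.1) (E p.1) [p.2, y, z]))))
    (hU.comp (NPC.Poly.fst NPC.Poly.id)) ?_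
  refine NPC.Poly.any (l := fun p : (α × ℕ) × ℕ => U p.1.1) (p := fun p z =>
    decide (p.1.2 < p.2) && (decide (p.2 < z) && grT (U p.1.1)
      (addK (U p.1.1) (E p.1.1) [p.1.2, p.2, z])))
    (hU.comp (NPC.Poly.fst (NPC.Poly.fst NPC.Poly.id))) ?_
  have f1 : NPC.Poly (fun q : ((α × ℕ) × ℕ) × ℕ => q.1.1.1) :=
    NPC.Poly.fst (NPC.Poly.fst (NPC.Poly.fst NPC.Poly.id))
  have f2 : NPC.Poly (fun q : ((α × ℕ) × ℕ) × ℕ => q.1.1.2) :=
    NPC.Poly.snd (NPC.Poly.fst (NPC.Poly.fst NPC.Poly.id))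
  have f3 : NPC.Poly (fun q : ((α × ℕ) × ℕ) × ℕ => q.1.2) :=
    NPC.Poly.snd (NPC.Poly.fst NPC.Poly.id)
  have f4 : NPC.Poly (fun q : ((α × ℕ) × ℕ) × ℕ => q.2) := NPC.Poly.snd NPC.Poly.id
  refine NPC.Poly.and (NPC.Poly.decide_lt f2 f3) (NPC.Poly.and (NPC.Poly.decide_lt f3 f4) ?_)
  refine TH645.GP.poly_grT asm (hU.comp f1) (TH645.GP.poly_addK (hU.comp f1) (hE.comp f1) ?_)
  exact NPC.Poly.cons f2 (NPC.Poly.cons f3 (NPC.Poly.cons f4 (NPC.Poly.const [])))

end Pool.Agent.TH694.GP
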