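import Pool.Agent.TH694.GP.Final

/-!
# Globally rigid pinning: the search version
-/

set_option autoImplicit false

namespace Pool.Agent.TH694.GP

open Pool.Agent Pool.Agent.NPC Pool.Agent.H598R2.Cnt Pool.Agent.H632R2.Cogirth
  Pool.Agent.H442R3.MPar

namespace Srch

/-- the candidates with at most three elements, in the order of their size -/
def smalls (U : List ℕ) : List (List ℕ) :=
  [] :: ((allP U).map (fun e => [e.1, e.2]) ++
    (allP U).flatMap (fun e => (U.filter (fun c => decide (e.2 < c))).map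
      (fun c => [e.1, e.2, c])))

/-- the solutions among the small candidates -/
def goods (U : List ℕ) (E : List (ℕ × ℕ)) : List (List ℕ) :=
  (smalls U).filter (fun P => grT U (addK U E P))

/-- one step of the deletion -/
def shS (L : List (List ℕ)) (ν : ℕ) (R : List ℕ) (w : ℕ) : List ℕ :=
  if nuV L (R.filter (fun x => !decide (x = w))) = ν then R.filter (fun x => !decide (x = w))
  else R

/-- a valid sublist of `W` of the largest size -/
def shr (L : List (List ℕ)) (W : List ℕ) : List ℕ := W.foldl (shS L (nuV L W)) W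

/-- the elements which are not forced -/
def bigW (U : List ℕ) (E : List (ℕ × ℕ)) : List ℕ :=
  U.filter (fun v => !decide (v ∈ finF U (bodL E) (cands U E)))

/-- the complement of a smallest solution -/
def bigQ (U : List ℕ) (E : List (ℕ × ℕ)) : List ℕ := shr (bodL E) (bigW U E)

/-- fill up to four elements -/
def fill (P Q : List ℕ) : List ℕ :=
  P ++ (Q.zipIdx.filter (fun q => decide (q.2 + P.length < 4))).map (fun q => q.1)

/-- a smallest solution with at least four elements -/
def bigF (U : List ℕ) (E : List (ℕ × ℕ)) : List ℕ :=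
  fill (U.filter (fun v => !decide (v ∈ bigQ U E))) (bigQ U E)

/-- a smallest solution -/
def sF (I : List ℕ × List (ℕ × ℕ)) : List ℕ :=
  match (goods I.1 I.2).head? with
  | none => bigF I.1 I.2
  | some P => P

/-! ### Small solutions -/

theorem smalls_spec {U : List ℕ} {P : List ℕ} (h : P ∈ smalls U) :
    P.Nodup ∧ (∀ x ∈ P, x ∈ U) ∧ P.length ≤ 3 := by
  unfold smalls at h
  rw [List.mem_cons, List.mem_append, List.mem_map, List.mem_flatMap] at h
  rcases h with rfl | ⟨e, he, rfl⟩ | ⟨e, he, h⟩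
  · simp
  · rw [mem_allP] at he
    obtain ⟨h1, h2, h3⟩ := he
    refine ⟨?_, ?_, by simp⟩
    · simp only [List.nodup_cons, List.mem_singleton, List.not_mem_nil, not_false_eq_true,
        List.nodup_nil, and_true]
      exact h3.ne
    · intro x hx
      simp only [List.mem_cons, List.not_mem_nil, or_false] at hx
      rcases hx with rfl | rfl <;> assumption
  · rw [List.mem_map] at h
    obtain ⟨c, hc, rfl⟩ := h
    rw [List.mem_filter, decide_eq_true_eq] at hc
    rw [mem_allP] at he
    obtain ⟨h1, h2, h3⟩ := he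
    refine ⟨?_, ?_, by simp⟩
    · simp only [List.nodup_cons, List.mem_cons, List.not_mem_nil, not_false_eq_true,
        List.nodup_nil, and_true, or_false, not_or]
      refine ⟨⟨h3.ne, ?_⟩, hc.2.ne⟩
      exact (h3.trans hc.2).ne
    · intro x hx
      simp only [List.mem_cons, List.not_mem_nil, or_false] at hx
      rcases hx with rfl | rfl | rfl
      · exact h1
      · exact h2
      · exact hc.1

theorem smalls_sorted (U : List ℕ) :
    (smalls U).Pairwise (fun P Q => P.length ≤ Q.length) := by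
  unfold smalls
  rw [List.pairwise_cons, List.pairwise_append]
  have h2 : ∀ P ∈ (allP U).map (fun e => [e.1, e.2]), P.length = 2 := by
    intro P hP
    obtain ⟨e, -, rfl⟩ := List.mem_map.1 hP
    rfl
  have h3 : ∀ P ∈ (allP U).flatMap (fun e => (U.filter (fun c => decide (e.2 < c))).map
      (fun c => [e.1, e.2, c])), P.length = 3 := by
    intro P hP
    obtain ⟨e, -, hP⟩ := List.mem_flatMap.1 hP
    obtain ⟨c, -, rfl⟩ := List.mem_map.1 hP
    rfl
  refine ⟨fun P _ => by simp, ?_, ?_, ?_⟩
  · exact List.pairwise_of_forall_mem_list (fun P hP Q hQ => by rw [h2 P hP, h2 Q hQ])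
  · exact List.pairwise_of_forall_mem_list (fun P hP Q hQ => by rw [h3 P hP, h3 Q hQ])
  · intro P hP Q hQ
    rw [h2 P hP, h3 Q hQ]
    omega

theorem smalls_complete {U : List ℕ} {P : Finset ℕ} (hP : P ⊆ U.toFinset) (h3 : P.card ≤ 3) :
    ∃ Q ∈ smalls U, Q.length ≤ P.card ∧ Q.toFinset.powersetCard 2 = P.powersetCard 2 := by
  rcases Nat.lt_or_ge P.card 2 with h2 | h2
  · refine ⟨[], by unfold smalls; exact List.mem_cons_self, by simp, ?_⟩
    rw [Finset.powersetCard_eq_empty.2 h2, Finset.powersetCard_eq_empty.2 (by simp)]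
  · have hl : (P.sort (· ≤ ·)).length = P.card := Finset.length_sort _
    have hf : (P.sort (· ≤ ·)).toFinset = P := Finset.sort_toFinset _ _
    have hs : (P.sort (· ≤ ·)).Pairwise (· < ·) := (Finset.sortedLT_sort P).pairwise
    have hm : ∀ x ∈ P.sort (· ≤ ·), x ∈ U := by
      intro x hx
      exact List.mem_toFinset.1 (hP ((Finset.mem_sort _).1 hx))
    refine ⟨P.sort (· ≤ ·), ?_, hl.le, by rw [hf]⟩
    rcases Nat.lt_or_ge P.card 3 with h4 | h4
    · have h5 : P.card = 2 := by omega
      rw [h5] at hl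
      obtain ⟨a, b, hab⟩ := List.length_eq_two.1 hl
      rw [hab] at hs hm ⊢
      simp only [List.pairwise_cons, List.mem_singleton, forall_eq, List.not_mem_nil,
        false_imp_iff, implies_true, List.Pairwise.nil, and_true] at hs
      unfold smalls
      refine List.mem_cons_of_mem _ (List.mem_append_left _ (List.mem_map.2 ⟨(a, b), ?_, rfl⟩))
      exact mem_allP.2 ⟨hm a (by simp), hm b (by simp), hs⟩
    · have h5 : P.card = 3 := by omega
      rw [h5] at hl
      obtain ⟨a, b, c, hab⟩ := List.length_eq_three.1 hl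
      rw [hab] at hs hm ⊢
      simp only [List.pairwise_cons, List.mem_cons, List.not_mem_nil, or_false,
        forall_eq_or_imp, forall_eq,
        false_imp_iff, implies_true, List.Pairwise.nil, and_true] at hs
      unfold smalls
      refine List.mem_cons_of_mem _ (List.mem_append_right _ (List.mem_flatMap.2
        ⟨(a, b), mem_allP.2 ⟨hm a (by simp), hm b (by simp), hs.1.1⟩,
          List.mem_map.2 ⟨c, List.mem_filter.2 ⟨hm c (by simp), ?_⟩, rfl⟩⟩))
      exact decide_eq_true hs.2

section

variable {U : List ℕ} {E : List (ℕ × ℕ)}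

theorem goods_iff (hU : U.Nodup) (hE : WF E) (hEU : ∀ e ∈ E, e.1 ∈ U ∧ e.2 ∈ U) {P : List ℕ}
    (hP : ∀ x ∈ P, x ∈ U) : grT U (addK U E P) = true ↔
      GR U.toFinset (ps E ∪ P.toFinset.powersetCard 2) := by
  obtain ⟨h1, h2, h3⟩ := addK_spec hU hE hEU hP
  rw [grT_iff hU h1 h2, h3]

theorem goods_complete (hU : U.Nodup) (hE : WF E) (hEU : ∀ e ∈ E, e.1 ∈ U ∧ e.2 ∈ U)
    {P : Finset ℕ} (hP : P ⊆ U.toFinset) (h3 : P.card ≤ 3)
    (hG : GR U.toFinset (ps E ∪ P.powersetCard 2)) : ∃ Q ∈ goods U E, Q.length ≤ P.card := by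
  obtain ⟨Q, h1, h2, h4⟩ := smalls_complete hP h3
  refine ⟨Q, ?_, h2⟩
  unfold goods
  rw [List.mem_filter]
  refine ⟨h1, ?_⟩
  rw [goods_iff hU hE hEU (smalls_spec h1).2.1, h4]
  exact hG

/-- the case of a small solution -/
theorem small_case (hU : U.Nodup) (hE : WF E) (hEU : ∀ e ∈ E, e.1 ∈ U ∧ e.2 ∈ U) {P : List ℕ}
    (h : (goods U E).head? = some P) :
    P.Nodup ∧ P.toFinset ⊆ U.toFinset ∧ GR U.toFinset (ps E ∪ P.toFinset.powersetCard 2) ∧
      ∀ P' ⊆ U.toFinset, GR U.toFinset (ps E ∪ P'.powersetCard 2) → P.length ≤ P'.card := by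
  have hm : P ∈ goods U E := List.mem_of_mem_head? (by rw [h]; rfl)
  have hm' := hm
  unfold goods at hm'
  rw [List.mem_filter] at hm'
  obtain ⟨h1, h2, h3⟩ := smalls_spec hm'.1
  refine ⟨h1, ?_, (goods_iff hU hE hEU h2).1 hm'.2, ?_⟩
  · intro x hx
    exact List.mem_toFinset.2 (h2 x (List.mem_toFinset.1 hx))
  · intro P' hP' hG
    by_cases h4 : P'.card ≤ 3
    · obtain ⟨Q, hQ, hQl⟩ := goods_complete hU hE hEU hP' h4 hG
      have hs : (goods U E).Pairwise (fun P Q => P.length ≤ Q.length) :=
        (smalls_sorted U).filter _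
      cases hg : goods U E with
      | nil => rw [hg] at hm; exact absurd hm List.not_mem_nil
      | cons a l =>
        rw [hg] at hs hQ h
        rw [List.head?_cons, Option.some.injEq] at h
        subst h
        rw [List.pairwise_cons] at hs
        rcases List.mem_cons.1 hQ with rfl | hQ
        · exact hQl
        · exact (hs.1 Q hQ).trans hQl
    · omega

/-- without a small solution there are at least four vertices -/
theorem no_small (hU : U.Nodup) (hE : WF E) (hEU : ∀ e ∈ E, e.1 ∈ U ∧ e.2 ∈ U)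
    (h : (goods U E).head? = none) : 4 ≤ U.length ∧
      ∀ P' ⊆ U.toFinset, GR U.toFinset (ps E ∪ P'.powersetCard 2) → 4 ≤ P'.card := by
  have hnil : goods U E = [] := List.head?_eq_none_iff.1 h
  have key : ∀ P' ⊆ U.toFinset, GR U.toFinset (ps E ∪ P'.powersetCard 2) → 4 ≤ P'.card := by
    intro P' hP' hG
    by_contra h4
    obtain ⟨Q, hQ, -⟩ := goods_complete hU hE hEU hP' (by omega) hG
    rw [hnil] at hQ
    exact absurd hQ List.not_mem_nil
  refine ⟨?_, key⟩
  have hc : U.toFinset.card = U.length := List.toFinset_card_of_nodup hU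
  by_contra h4
  have h5 := key U.toFinset le_rfl ⟨fun _ => ?_, fun h6 => absurd h6 (by omega)⟩
  · omega
  · apply Finset.union_eq_right.2
    intro p hp
    exact Finset.mem_powersetCard.2 ⟨ps_sub hEU p hp, ps_pairs hE p hp⟩

end

/-! ### Large solutions -/

theorem nuV_mono (L : List (List ℕ)) {A B : List ℕ} (hA : A.Nodup) (hB : B.Nodup)
    (h : A.toFinset ⊆ B.toFinset) : nuV L A ≤ nuV L B := by
  obtain ⟨⟨Q, h1, h2, h3⟩, -⟩ := nuV_spec L hA
  rw [← h3]
  exact (nuV_spec L hB).2 ⟨Q, h1.trans h, h2, rfl⟩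

theorem shS_sublist (L : List (List ℕ)) (ν : ℕ) (R : List ℕ) (w : ℕ) :
    (shS L ν R w).Sublist R := by
  unfold shS
  split_ifs
  · exact List.filter_sublist
  · exact List.Sublist.refl _

theorem fold_sublist (L : List (List ℕ)) (ν : ℕ) (l R : List ℕ) :
    (l.foldl (shS L ν) R).Sublist R := by
  induction l generalizing R with
  | nil => exact List.Sublist.refl _
  | cons w l ih => exact (ih (shS L ν R w)).trans (shS_sublist L ν R w)

theorem fold_spec (L : List (List ℕ)) (ν : ℕ) (l R : List ℕ) (hR : R.Nodup)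
    (hν : nuV L R = ν) : nuV L (l.foldl (shS L ν) R) = ν ∧
      ∀ w ∈ l, w ∈ l.foldl (shS L ν) R →
        nuV L ((l.foldl (shS L ν) R).filter (fun x => !decide (x = w))) ≠ ν := by
  induction l generalizing R with
  | nil => exact ⟨hν, fun w hw => absurd hw List.not_mem_nil⟩
  | cons w l ih =>
    have hs := shS_sublist L ν R w
    have h1 : nuV L (shS L ν R w) = ν := by
      unfold shS
      split_ifs with h
      · exact h
      · exact hν
    obtain ⟨g1, g2⟩ := ih (shS L ν R w) (hs.nodup hR) h1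
    rw [List.foldl_cons]
    refine ⟨g1, ?_⟩
    intro w' hw' hm
    rcases List.mem_cons.1 hw' with rfl | hw'
    · have hsub := fold_sublist L ν l (shS L ν R w')
      have hm1 : w' ∈ shS L ν R w' := hsub.subset hm
      have hne : nuV L (R.filter (fun x => !decide (x = w'))) ≠ ν := by
        intro h
        unfold shS at hm1
        rw [if_pos h, List.mem_filter] at hm1
        simp at hm1
      have hle : nuV L (R.filter (fun x => !decide (x = w'))) ≤ ν := by
        rw [← hν]
        refine nuV_mono L (hR.filter _) hR ?_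
        intro x hx
        exact List.mem_toFinset.2 (List.mem_filter.1 (List.mem_toFinset.1 hx)).1
      have hle2 : nuV L ((l.foldl (shS L ν) (shS L ν R w')).filter
          (fun x => !decide (x = w'))) ≤ nuV L (R.filter (fun x => !decide (x = w'))) := by
        refine nuV_mono L ((hsub.nodup (hs.nodup hR)).filter _) (hR.filter _) ?_
        intro x hx
        rw [List.mem_toFinset, List.mem_filter] at hx ⊢
        exact ⟨hs.subset (hsub.subset hx.1), hx.2⟩
      omega
    · exact g2 w' hw' hm

theorem shr_sublist (L : List (List ℕ)) (W : List ℕ) : (shr L W).Sublist W :=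
  fold_sublist _ _ _ _

/-- the shrunk list is valid and its length is the largest size of a valid subset -/
theorem shr_spec (L : List (List ℕ)) {W : List ℕ} (hW : W.Nodup) :
    (shr L W).length = nuV L W ∧ ∀ Z ⊆ (shr L W).toFinset, Z.Nonempty → 2 * Z.card + 1 ≤
      ((Finset.range L.length).filter (fun i => ∃ z ∈ Z, z ∈ L.getD i [])).card := by
  obtain ⟨h1, h2⟩ := fold_spec L (nuV L W) W W hW rfl
  change nuV L (shr L W) = nuV L W at h1
  change ∀ w ∈ W, w ∈ shr L W → nuV L ((shr L W).filter (fun x => !decide (x = w))) ≠ nuV L W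
    at h2
  have hsub := shr_sublist L W
  have hn : (shr L W).Nodup := hsub.nodup hW
  obtain ⟨⟨S, g1, g2, g3⟩, -⟩ := nuV_spec L hn
  have hS : S = (shr L W).toFinset := by
    apply Finset.Subset.antisymm g1
    intro w hw
    by_contra hwS
    have hw' : w ∈ shr L W := List.mem_toFinset.1 hw
    have h3 := h2 w (hsub.subset hw') hw'
    apply h3
    apply le_antisymm
    · rw [← h1]
      refine nuV_mono L (hn.filter _) hn ?_
      intro x hx
      exact List.mem_toFinset.2 (List.mem_filter.1 (List.mem_toFinset.1 hx)).1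
    · rw [← h1, ← g3]
      refine (nuV_spec L (hn.filter _)).2 ⟨S, ?_, g2, rfl⟩
      intro x hx
      rw [List.mem_toFinset, List.mem_filter]
      refine ⟨List.mem_toFinset.1 (g1 hx), ?_⟩
      have : x ≠ w := fun h => hwS (h ▸ hx)
      simp [this]
  refine ⟨?_, by rw [← hS]; exact g2⟩
  rw [← h1, ← g3, hS, List.toFinset_card_of_nodup hn]

theorem zip_take (k : ℕ) (l : List ℕ) (n : ℕ) :
    ((l.zipIdx n).filter (fun q => decide (q.2 + k < 4))).map (fun q => q.1) =
      l.take (4 - (n + k)) := by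
  induction l generalizing n with
  | nil => simp
  | cons a l ih =>
    rw [List.zipIdx_cons, List.filter_cons]
    by_cases h : n + k < 4
    · rw [if_pos (by simpa using h), List.map_cons, ih]
      obtain ⟨m, hm⟩ : ∃ m, 4 - (n + k) = m + 1 := ⟨4 - (n + k) - 1, by omega⟩
      rw [hm, List.take_succ_cons]
      congr 2
      omega
    · rw [if_neg (by simpa using h), ih]
      have h1 : 4 - (n + k) = 0 := by omega
      have h2 : 4 - (n + 1 + k) = 0 := by omega
      rw [h1, h2]
      simp

theorem fill_eq (P Q : List ℕ) : fill P Q = P ++ Q.take (4 - P.length) := by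
  unfold fill
  rw [zip_take]
  simp

section

variable {U : List ℕ} {E : List (ℕ × ℕ)}

/-- the case of large solutions -/
theorem big_case (hU : U.Nodup) (hE : WF E) (hEU : ∀ e ∈ E, e.1 ∈ U ∧ e.2 ∈ U)
    (h4 : 4 ≤ U.length) :
    (bigF U E).Nodup ∧ Feas U.toFinset (ps E) (bodies (ps E)) (bigF U E).toFinset ∧
      (bigF U E).length = bigOpt U E := by
  obtain ⟨hFU, -, -⟩ := loop_inv hU hE hEU U.length
  have hdone := finF_done hU hE hEU
  change (finF U (bodL E) (cands U E)).toFinset ⊆ U.toFinset at hFU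
  have hend : ∀ X, Sepd U.toFinset (ps E) X →
      Disjoint X (finF U (bodL E) (cands U E)).toFinset → ¬ Val (bodies (ps E)) X := by
    intro X hX hd hV
    obtain ⟨Y, hY, hYX⟩ := cands_complete hU hE hX
    obtain ⟨hYn, -, -⟩ := cands_sound hU hE hY
    have h1 := hdone Y hY
    rw [← Bool.not_eq_true, okX_iff hE hYn] at h1
    exact h1 ⟨Finset.disjoint_of_subset_left hYX hd, hV.mono hYX⟩
  have hWn : (bigW U E).Nodup := hU.filter _
  have hWsub : (bigW U E).Sublist U := List.filter_sublist
  have hQsub : (bigQ U E).Sublist (bigW U E) := shr_sublist _ _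
  have hQU : (bigQ U E).Sublist U := hQsub.trans hWsub
  have hQn : (bigQ U E).Nodup := hQsub.nodup hWn
  obtain ⟨hQl, hQv⟩ := shr_spec (bodL E) hWn
  change (bigQ U E).length = nuV (bodL E) (bigW U E) at hQl
  change ∀ Z ⊆ (bigQ U E).toFinset, _ at hQv
  have hVal : Val (bodies (ps E)) (bigQ U E).toFinset := (val_iff hE _).2 hQv
  have hPn : (U.filter (fun v => !decide (v ∈ bigQ U E))).Nodup := hU.filter _
  have hPf : (U.filter (fun v => !decide (v ∈ bigQ U E))).toFinset =
      U.toFinset \ (bigQ U E).toFinset := by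
    ext v
    simp
  have hQUf : (bigQ U E).toFinset ⊆ U.toFinset := by
    intro x hx
    exact List.mem_toFinset.2 (hQU.subset (List.mem_toFinset.1 hx))
  have hdd : U.toFinset \ (U.toFinset \ (bigQ U E).toFinset) = (bigQ U E).toFinset :=
    Finset.sdiff_sdiff_eq_self hQUf
  have hPl : (U.filter (fun v => !decide (v ∈ bigQ U E))).length + (bigQ U E).length =
      U.length := by
    rw [← List.toFinset_card_of_nodup hPn, hPf, ← List.toFinset_card_of_nodup hQn,
      ← List.toFinset_card_of_nodup hU]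
    exact Finset.card_sdiff_add_card_eq_card hQUf
  have hH : Hit U.toFinset (ps E) (U.toFinset \ (bigQ U E).toFinset) := by
    intro X hX
    by_cases hXF : Disjoint X (finF U (bodL E) (cands U E)).toFinset
    · have h1 := hend X hX hXF
      have h2 : ¬ X ⊆ (bigQ U E).toFinset := fun h => h1 (hVal.mono h)
      obtain ⟨x, hx, hxQ⟩ := Finset.not_subset.1 h2
      exact ⟨x, Finset.mem_inter.2 ⟨hx, Finset.mem_sdiff.2 ⟨hX.1 hx, hxQ⟩⟩⟩
    · obtain ⟨x, hx, hxF⟩ := Finset.not_disjoint_iff.1 hXF
      refine ⟨x, Finset.mem_inter.2 ⟨hx, Finset.mem_sdiff.2 ⟨hX.1 hx, fun h => ?_⟩⟩⟩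
      have h1 := hQsub.subset (List.mem_toFinset.1 h)
      unfold bigW at h1
      rw [List.mem_filter] at h1
      rw [List.mem_toFinset] at hxF
      simp [hxF] at h1
  unfold bigF
  rw [fill_eq]
  set P := U.filter (fun v => !decide (v ∈ bigQ U E)) with hP
  set T := (bigQ U E).take (4 - P.length) with hT
  have hTs : T.Sublist (bigQ U E) := List.take_sublist _ _
  have hTl : T.length = min (4 - P.length) (bigQ U E).length := List.length_take
  have hnod : (P ++ T).Nodup := by
    refine List.Nodup.append hPn (hTs.nodup hQn) ?_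
    intro x hx hx'
    have h1 := hTs.subset hx'
    rw [hP, List.mem_filter] at hx
    simp [h1] at hx
  have hlen : (P ++ T).length = max 4 P.length := by
    rw [List.length_append, hTl]
    omega
  have hsup : U.toFinset \ (bigQ U E).toFinset ⊆ (P ++ T).toFinset := by
    rw [← hPf, List.toFinset_append]
    exact Finset.subset_union_left
  refine ⟨hnod, ⟨?_, ?_, ?_, ?_⟩, ?_⟩
  · intro x hx
    rw [List.mem_toFinset, List.mem_append] at hx
    rw [List.mem_toFinset]
    rcases hx with hx | hx
    · exact (List.mem_filter.1 hx).1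
    · exact hQU.subset (hTs.subset hx)
  · rw [List.toFinset_card_of_nodup hnod, hlen]
    exact le_max_left _ _
  · have h1 : Val (bodies (ps E)) (U.toFinset \ (U.toFinset \ (bigQ U E).toFinset)) := by
      rw [hdd]
      exact hVal
    exact h1.mono (Finset.sdiff_subset_sdiff le_rfl hsup)
  · exact hH.mono hsup
  · rw [hlen]
    unfold bigOpt
    change max 4 P.length = max 4 (U.length - nuV (bodL E) (bigW U E))
    rw [← hQl]
    congr 1
    omega

end

/-! ### Running times -/

section

variable {α : Type} [TEnc α]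

theorem poly_smalls {U : α → List ℕ} (hU : NPC.Poly U) : NPC.Poly (fun a => smalls (U a)) := by
  unfold smalls
  have h1 := TH645.GP.poly_allP hU
  fun_prop

theorem poly_goods {U : α → List ℕ} {E : α → List (ℕ × ℕ)} (hU : NPC.Poly U)
    (hE : NPC.Poly E) : NPC.Poly (fun a => goods (U a) (E a)) := by
  unfold goods
  refine NPC.Poly.filter (p := fun a P => grT (U a) (addK (U a) (E a) P)) (poly_smalls hU) ?_
  have hU' : NPC.Poly (fun x : α × List ℕ => U x.1) := hU.comp (NPC.Poly.fst NPC.Poly.id)
  have hE' : NPC.Poly (fun x : α × List ℕ => E x.1) := hE.comp (NPC.Poly.fst NPC.Poly.id)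
  exact TH645.GP.poly_grT asm hU' (TH645.GP.poly_addK hU' hE' (NPC.Poly.snd NPC.Poly.id))

theorem poly_shr {L : α → List (List ℕ)} {W : α → List ℕ} (hL : NPC.Poly L)
    (hW : NPC.Poly W) : NPC.Poly (fun a => shr (L a) (W a)) := by
  unfold shr
  obtain ⟨q, hq⟩ := hW.sz_le
  refine NPC.Poly.foldl (l := W) (s := W) (F := fun a R w => shS (L a) (nuV (L a) (W a)) R w)
    hW hW ?_ q ?_
  · have h1 : Poly (fun p : α × List ℕ × ℕ => p.2.1.filter (fun x => !decide (x = p.2.2))) := by
      fun_prop
    have hL' : Poly (fun p : α × List ℕ × ℕ => L p.1) := hL.comp (NPC.Poly.fst NPC.Poly.id)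
    have hW' : Poly (fun p : α × List ℕ × ℕ => W p.1) := hW.comp (NPC.Poly.fst NPC.Poly.id)
    have h2 := poly_nuV hL' h1
    have h3 := poly_nuV hL' hW'
    have h4 : Poly (fun p : α × List ℕ × ℕ => p.2.1) := by fun_prop
    exact (NPC.Poly.cond (NPC.Poly.dec_eq h2 h3) h1 h4).congr fun a => by
      unfold shS
      by_cases h : nuV (L a.1) (a.2.1.filter (fun x => !decide (x = a.2.2))) =
          nuV (L a.1) (W a.1)
      · rw [if_pos h]
        simp [h]
      · rw [if_neg h]
        simp [h]
  · intro a k hk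
    exact (sz_sublist_le' (fold_sublist _ _ _ _)).trans (hq a)

theorem poly_fill {P Q : α → List ℕ} (hP : NPC.Poly P) (hQ : NPC.Poly Q) :
    NPC.Poly (fun a => fill (P a) (Q a)) := by
  unfold fill
  fun_prop

theorem poly_bigF {U : α → List ℕ} {E : α → List (ℕ × ℕ)} (hU : NPC.Poly U)
    (hE : NPC.Poly E) : NPC.Poly (fun a => bigF (U a) (E a)) := by
  have hF : NPC.Poly (fun a => finF (U a) (bodL (E a)) (cands (U a) (E a))) :=
    TH645.GP.poly_finF asm hU (poly_bodL hE) (poly_cands hU hE)
  have hW : NPC.Poly (fun a => bigW (U a) (E a)) := by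
    unfold bigW
    exact NPC.Poly.filter
      (p := fun a v => !decide (v ∈ finF (U a) (bodL (E a)) (cands (U a) (E a)))) hU
      (NPC.Poly.not (NPC.Poly.dec_mem (NPC.Poly.snd NPC.Poly.id)
        (hF.comp (NPC.Poly.fst NPC.Poly.id))))
  have hQ : NPC.Poly (fun a => bigQ (U a) (E a)) := poly_shr (poly_bodL hE) hW
  unfold bigF
  refine poly_fill (NPC.Poly.filter (p := fun a v => !decide (v ∈ bigQ (U a) (E a))) hU
      (NPC.Poly.not (NPC.Poly.dec_mem (NPC.Poly.snd NPC.Poly.id)
        (hQ.comp (NPC.Poly.fst NPC.Poly.id))))) hQ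

theorem poly_sF : NPC.Poly sF := by
  have hU : NPC.Poly (fun I : List ℕ × List (ℕ × ℕ) => I.1) := NPC.Poly.fst NPC.Poly.id
  have hE : NPC.Poly (fun I : List ℕ × List (ℕ × ℕ) => I.2) := NPC.Poly.snd NPC.Poly.id
  refine (NPC.Poly.optCases (h := fun _ P => P) (NPC.Poly.head? (poly_goods hU hE))
    (poly_bigF hU hE) (NPC.Poly.snd NPC.Poly.id)).congr fun a => ?_
  unfold sF
  cases (goods a.1 a.2).head? <;> rfl

end

end Srch

/-- the search version -/
theorem exists_search : ∃ sF : List ℕ × List (ℕ × ℕ) → List ℕ, Poly sF ∧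
    ∀ (U : List ℕ) (E : List (ℕ × ℕ)), U.Nodup → WF E → (∀ e ∈ E, e.1 ∈ U ∧ e.2 ∈ U) →
      (sF (U, E)).Nodup ∧ (sF (U, E)).toFinset ⊆ U.toFinset ∧
      GR U.toFinset (ps E ∪ (sF (U, E)).toFinset.powersetCard 2) ∧
      ∀ P ⊆ U.toFinset, GR U.toFinset (ps E ∪ P.powersetCard 2) →
        (sF (U, E)).length ≤ P.card := by
  refine ⟨Srch.sF, Srch.poly_sF, fun U E hU hE hEU => ?_⟩
  cases h : (Srch.goods U E).head? with
  | some P =>
    have h1 : Srch.sF (U, E) = P := by
      unfold Srch.sF
      simp only [h]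
    rw [h1]
    exact Srch.small_case hU hE hEU h
  | none =>
    have h1 : Srch.sF (U, E) = Srch.bigF U E := by
      unfold Srch.sF
      simp only [h]
    rw [h1]
    obtain ⟨h4, hk⟩ := Srch.no_small hU hE hEU h
    obtain ⟨g1, g2, g3⟩ := Srch.big_case hU hE hEU h4
    refine ⟨g1, g2.1, (gr_iff_feas (ps_pairs hE) (ps_sub hEU) g2.1 g2.2.1).2 g2, ?_⟩
    intro P' hP' hG
    rw [g3, bigOpt_iff hU hE hEU h4]
    exact ⟨P', (gr_iff_feas (ps_pairs hE) (ps_sub hEU) hP' (hk P' hP' hG)).1 hG, le_rfl⟩

end Pool.Agent.TH694.GP
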